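import Pool.Agent.Lib.H50X.Defs

/-! # H50X, chunk BA: elementary facts on `nn` (distance to the nearest integer).

`nn x = |x - round x|`; use `round_le`, `abs_sub_round`, `round_add_intCast`, `Int.fract`, ... -/

open scoped Classical

namespace Pool.Agent.Lib.H50X

theorem nn_nonneg (x : ℝ) : 0 ≤ nn x := abs_nonneg _

theorem nn_le_half (x : ℝ) : nn x ≤ 1 / 2 := abs_sub_round x

theorem nn_le (x : ℝ) (m : ℤ) : nn x ≤ |x - m| := round_le x m

theorem nn_neg (x : ℝ) : nn (-x) = nn x := by
  have h : ∀ t : ℝ, nn (-t) ≤ nn t := by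
    intro t
    refine le_trans (nn_le (-t) (-round t)) (le_of_eq ?_)
    unfold nn
    rw [← abs_neg]
    congr 1
    push_cast
    ring
  apply le_antisymm (h x)
  have h2 := h (-x)
  rwa [neg_neg] at h2

theorem nn_add_le (x y : ℝ) : nn (x + y) ≤ nn x + nn y := by
  refine le_trans (nn_le (x + y) (round x + round y)) ?_
  unfold nn
  refine le_trans (le_of_eq ?_) (abs_add_le _ _)
  congr 1
  push_cast
  ring

theorem nn_sub_le (x y : ℝ) : nn (x - y) ≤ nn x + nn y := by
  have h := nn_add_le x (-y)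
  rwa [nn_neg, ← sub_eq_add_neg] at h

theorem ba_int (m : ℤ) : nn m = 0 := by
  apply le_antisymm _ (nn_nonneg _)
  have h := nn_le (m : ℝ) m
  rwa [sub_self, abs_zero] at h

theorem nn_add_int (x : ℝ) (m : ℤ) : nn (x + m) = nn x := by
  apply le_antisymm
  · have h := nn_add_le x m
    rwa [ba_int, add_zero] at h
  · have h := nn_sub_le (x + m) m
    rwa [ba_int, add_zero, add_sub_cancel_right] at h

theorem nn_sub_int (x : ℝ) (m : ℤ) : nn (x - m) = nn x := by
  have h := nn_add_int (x - m) m
  rw [sub_add_cancel] at h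
  exact h.symm

theorem abs_nn_sub_le (x y : ℝ) : |nn x - nn y| ≤ |x - y| := by
  have h : ∀ s t : ℝ, nn s ≤ |s - t| + nn t := by
    intro s t
    refine le_trans (nn_le s (round t)) ?_
    unfold nn
    refine le_trans (le_of_eq ?_) (abs_add_le _ _)
    congr 1
    ring
  rw [abs_le]
  constructor
  · have h1 := h y x
    rw [abs_sub_comm] at h1
    linarith
  · have h1 := h x y
    linarith

theorem nn_eq_zero_iff (x : ℝ) : nn x = 0 ↔ ∃ m : ℤ, x = m := by
  constructor
  · intro h
    refine ⟨round x, ?_⟩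
    unfold nn at h
    rw [abs_eq_zero] at h
    linarith
  · rintro ⟨m, rfl⟩
    exact ba_int m

theorem nn_int_mul_le (m : ℤ) (x : ℝ) : nn (m * x) ≤ |(m : ℝ)| * nn x := by
  refine le_trans (nn_le (m * x) (m * round x)) (le_of_eq ?_)
  unfold nn
  rw [← abs_mul]
  congr 1
  push_cast
  ring

theorem nn_fract_sub (x c : ℝ) : nn (Int.fract x - c) = nn (x - c) := by
  have h : Int.fract x - c = (x - c) - (⌊x⌋ : ℤ) := by
    unfold Int.fract
    ring
  rw [h, nn_sub_int]

end Pool.Agent.Lib.H50X
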