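import Pool.Agent.Lib.H50X.BA

/-! # H50X, chunk BB: elementary facts on `ee x = exp(2 π i x)` and the Fourier coefficients of intervals.

`four_nn_le`: `‖1 - ee x‖ = 2 |sin (π x)|`, periodic mod 1, and `|sin (π t)| ≥ 2 |t|` for `|t| ≤ 1/2`
(Jordan: `Real.mul_abs_le_abs_sin`). `norm_geom_le`: geometric sum, `‖D_N‖ ≤ 2 / ‖1 - ee θ‖`
(trivial if `nn θ = 0`). `norm_chat_le`: the integral is `(ee(-kb) - ee(-ka))/(-2 π i k)`. -/

open scoped Classical

namespace Pool.Agent.Lib.H50X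

theorem ee_zero : ee 0 = 1 := by
  unfold ee
  simp

theorem ee_add (x y : ℝ) : ee (x + y) = ee x * ee y := by
  unfold ee
  rw [← Complex.exp_add]
  congr 1
  push_cast
  ring

theorem ee_int (m : ℤ) : ee m = 1 := by
  unfold ee
  rw [Complex.exp_eq_one_iff]
  refine ⟨m, ?_⟩
  push_cast
  ring

theorem bb_eq (x : ℝ) : ee x = Complex.exp ((2 * Real.pi * x : ℝ) * Complex.I) := by
  unfold ee
  congr 1
  push_cast
  ring

theorem norm_ee (x : ℝ) : ‖ee x‖ = 1 := by
  rw [bb_eq, Complex.norm_exp_ofReal_mul_I]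

theorem ee_neg (x : ℝ) : ee (-x) = (starRingEnd ℂ) (ee x) := by
  rw [bb_eq, bb_eq, ← Complex.exp_conj, map_mul, Complex.conj_ofReal, Complex.conj_I]
  congr 1
  push_cast
  ring

theorem ee_nat_mul (n : ℕ) (x : ℝ) : ee (n * x) = ee x ^ n := by
  unfold ee
  rw [← Complex.exp_nat_mul]
  congr 1
  push_cast
  ring

theorem ee_add_int (x : ℝ) (m : ℤ) : ee (x + m) = ee x := by
  rw [ee_add, ee_int, mul_one]

theorem continuous_ee : Continuous ee := by
  unfold ee
  exact Complex.continuous_exp.comp (continuous_const.mul Complex.continuous_ofReal)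

theorem bb_norm (x : ℝ) : ‖1 - ee x‖ = 2 * |Real.sin (Real.pi * x)| := by
  have h1 : ‖1 - ee x‖ ^ 2 = (2 * |Real.sin (Real.pi * x)|) ^ 2 := by
    rw [bb_eq, Complex.exp_mul_I, ← Complex.normSq_eq_norm_sq, Complex.normSq_apply, mul_pow, sq_abs,
      Real.sin_sq (Real.pi * x)]
    have hc := Real.cos_sq (Real.pi * x)
    have e : 2 * (Real.pi * x) = 2 * Real.pi * x := by ring
    rw [e] at hc
    have hs := Real.sin_sq_add_cos_sq (2 * Real.pi * x)
    simp only [← Complex.ofReal_cos, ← Complex.ofReal_sin, Complex.sub_re, Complex.sub_im,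
      Complex.add_re, Complex.add_im, Complex.ofReal_re, Complex.ofReal_im, Complex.one_re,
      Complex.one_im, Complex.mul_re, Complex.mul_im, Complex.I_re, Complex.I_im]
    rw [hc]
    nlinarith [hs]
  exact (pow_left_inj₀ (norm_nonneg _) (by positivity) (by norm_num)).1 h1

theorem four_nn_le (x : ℝ) : 4 * nn x ≤ ‖1 - ee x‖ := by
  have h1 : ee x = ee (x - round x) := by
    have h := ee_add_int (x - round x) (round x)
    rw [sub_add_cancel] at h
    exact h
  rw [h1, bb_norm]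
  set t : ℝ := x - round x with ht
  have h2 : |t| ≤ 1 / 2 := abs_sub_round x
  have h3 : |Real.pi * t| ≤ Real.pi / 2 := by
    rw [abs_mul, abs_of_pos Real.pi_pos]
    nlinarith [Real.pi_pos]
  have h4 := Real.mul_abs_le_abs_sin h3
  rw [abs_mul, abs_of_pos Real.pi_pos] at h4
  have h5 : 2 / Real.pi * (Real.pi * |t|) = 2 * |t| := by
    field_simp
  rw [h5] at h4
  have h6 : nn x = |t| := rfl
  rw [h6]
  linarith

theorem norm_geom_le (N : ℕ) (θ : ℝ) :
    ‖∑ n ∈ Finset.range N, ee (n * θ)‖ * (2 * nn θ) ≤ 1 := by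
  have h1 : (∑ n ∈ Finset.range N, ee (n * θ)) * (1 - ee θ) = 1 - ee θ ^ N := by
    simp_rw [ee_nat_mul]
    rw [mul_comm, mul_neg_geom_sum]
  have h2 : ‖∑ n ∈ Finset.range N, ee (n * θ)‖ * ‖1 - ee θ‖ ≤ 2 := by
    rw [← norm_mul, h1]
    refine le_trans (norm_sub_le _ _) ?_
    rw [norm_one, norm_pow, norm_ee, one_pow]
    norm_num
  have h3 := four_nn_le θ
  have h4 : ‖∑ n ∈ Finset.range N, ee (n * θ)‖ * (4 * nn θ)
      ≤ ‖∑ n ∈ Finset.range N, ee (n * θ)‖ * ‖1 - ee θ‖ := by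
    gcongr
  linarith

theorem bb_hasDeriv (c : ℝ) (hc : c ≠ 0) (y : ℝ) :
    HasDerivAt (fun y : ℝ => ee (c * y) / (2 * Real.pi * Complex.I * c)) (ee (c * y)) y := by
  have hne : (2 * Real.pi * Complex.I * c : ℂ) ≠ 0 := by
    have h1 : (c : ℂ) ≠ 0 := by exact_mod_cast hc
    have h2 : (Real.pi : ℂ) ≠ 0 := by exact_mod_cast Real.pi_ne_zero
    simp [h1, h2, Complex.I_ne_zero]
  unfold ee
  have h1 : HasDerivAt (fun y : ℝ => (2 * Real.pi * Complex.I * ((c * y : ℝ) : ℂ)))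
      (2 * Real.pi * Complex.I * c) y := by
    have h2 : HasDerivAt (fun y : ℝ => ((c * y : ℝ) : ℂ)) ((c : ℝ) : ℂ) y := by
      have h3 : HasDerivAt (fun y : ℝ => c * y) c y := by
        simpa using (hasDerivAt_id y).const_mul c
      exact h3.ofReal_comp
    exact h2.const_mul _
  have h4 := h1.cexp.div_const (2 * Real.pi * Complex.I * c)
  rw [mul_div_assoc, div_self hne, mul_one] at h4
  exact h4

theorem bb_int (c : ℝ) (hc : c ≠ 0) (p q : ℝ) :
    (∫ y in p..q, ee (c * y)) = (ee (c * q) - ee (c * p)) / (2 * Real.pi * Complex.I * c) := by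
  rw [intervalIntegral.integral_eq_sub_of_hasDerivAt (fun y _ => bb_hasDeriv c hc y)]
  · rw [sub_div]
  · exact (continuous_ee.comp (continuous_const.mul continuous_id)).intervalIntegrable _ _

/-- orthogonality over a period, with any start `t` -/
theorem integral_ee_period (k : ℤ) (x t : ℝ) :
    (∫ y in t..(t + 1), ee (k * (x - y))) = if k = 0 then 1 else 0 := by
  by_cases hk : k = 0
  · rw [if_pos hk, hk]
    have h : ∀ y : ℝ, ee (((0 : ℤ) : ℝ) * (x - y)) = 1 := by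
      intro y
      rw [Int.cast_zero, zero_mul, ee_zero]
    simp_rw [h]
    simp
  · rw [if_neg hk]
    have hk' : (-(k : ℝ)) ≠ 0 := by
      rw [neg_ne_zero]
      exact_mod_cast hk
    have h : ∀ y : ℝ, ee ((k : ℝ) * (x - y)) = ee (k * x) * ee (-(k : ℝ) * y) := by
      intro y
      rw [← ee_add]
      congr 1
      ring
    simp_rw [h]
    rw [intervalIntegral.integral_const_mul, bb_int _ hk']
    have h2 : ee (-(k : ℝ) * (t + 1)) = ee (-(k : ℝ) * t) := by
      have h3 := ee_add_int (-(k : ℝ) * t) (-k)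
      rw [← h3]
      congr 1
      push_cast
      ring
    rw [h2, sub_self, zero_div, mul_zero]

/-- `‖∫_a^b ee(-k y) dy‖ ≤ 1/|k|` -/
theorem norm_chat_le (a b : ℝ) (k : ℤ) (hk : k ≠ 0) : ‖chat a b k‖ ≤ 1 / |(k : ℝ)| := by
  have hk' : (-(k : ℝ)) ≠ 0 := by
    rw [neg_ne_zero]
    exact_mod_cast hk
  have hkp : 0 < |(k : ℝ)| := by
    rw [abs_pos]
    exact_mod_cast hk
  unfold chat
  have h : ∀ y : ℝ, ee (-((k : ℝ) * y)) = ee (-(k : ℝ) * y) := by
    intro y
    congr 1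
    ring
  simp_rw [h]
  rw [bb_int _ hk', norm_div]
  have h1 : ‖(2 * Real.pi * Complex.I * ((-(k : ℝ) : ℝ) : ℂ) : ℂ)‖ = 2 * Real.pi * |(k : ℝ)| := by
    rw [norm_mul, norm_mul, norm_mul, Complex.norm_I, Complex.norm_real, Complex.norm_real,
      Real.norm_eq_abs, Real.norm_eq_abs, abs_neg, abs_of_pos Real.pi_pos]
    norm_num
  rw [h1, div_le_div_iff₀ (by positivity) hkp]
  have h2 : ‖ee (-(k : ℝ) * b) - ee (-(k : ℝ) * a)‖ ≤ 2 := by
    refine le_trans (norm_sub_le _ _) ?_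
    rw [norm_ee, norm_ee]
    norm_num
  have h3 := Real.pi_gt_three
  nlinarith

theorem chat_zero (a b : ℝ) : chat a b 0 = ((b - a : ℝ) : ℂ) := by
  unfold chat
  have h : ∀ y : ℝ, ee (-(((0 : ℤ) : ℝ) * y)) = 1 := by
    intro y
    rw [Int.cast_zero, zero_mul, neg_zero, ee_zero]
  simp_rw [h]
  simp

end Pool.Agent.Lib.H50X
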