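import Pool.Agent.Lib.H50X.BA

/-! # H50X, chunk DA1 (count_le): counting orbit points in a small box (pigeonhole).

`count_le`: put `y_j(n) = (n α_j - z_j) - round(n α_j - z_j)`, `|y_j(n)| 2^(a_j) < 2^(u_j)`; cell index
`c_j(n) = ⌊y_j(n) 2^(a_j) + 2^(u_j)⌋ ∈ [0, 2^(u_j+1))`: there are `∏ 2^(u_j+1)` cells. If `n, n'` have the
same cell then `|y_j(n) - y_j(n')| 2^(a_j) < 1`, so `nn((n-n') α_j) 2^(a_j) < 1` for all `j` and `|n-n'| < L`:
for fixed `n` the map `n' ↦ n' - n` injects the cell into the set counted by `QQ 1 α a L`.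

`sum_env_le`: expand the product over `j` of the sums over `e ∈ {a'_j, b'_j}` and `u_j ≤ a_j`, exchange with
the sum over `n`, and use `count_le` with `z_j = e_j`:
`∑ ≤ ∏_j (2 ∑_u (1/4)^u 2^(u+1)) QQ ≤ 8^s QQ`. -/

open scoped Classical

namespace Pool.Agent.Lib.H50X

/-- signed distance -/
noncomputable def da1_y (x : ℝ) : ℝ := x - round x

/-- the cell of `n` -/
noncomputable def da1_c {s : ℕ} (α z : Fin s → ℝ) (a u : Fin s → ℕ) (n : ℕ) : Fin s → ℕ :=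
  fun j => ⌊da1_y ((n : ℝ) * α j - z j) * 2 ^ a j + 2 ^ u j⌋₊

theorem da1_cell {s : ℕ} (α z : Fin s → ℝ) (a u : Fin s → ℕ) (n : ℕ)
    (hn : ∀ j, nn ((n : ℝ) * α j - z j) * 2 ^ a j < 2 ^ u j) (j : Fin s) :
    0 ≤ da1_y ((n : ℝ) * α j - z j) * 2 ^ a j + 2 ^ u j ∧
      da1_y ((n : ℝ) * α j - z j) * 2 ^ a j + 2 ^ u j < 2 ^ (u j + 1) := by
  have h1 := hn j
  have h2 : nn ((n : ℝ) * α j - z j) = |da1_y ((n : ℝ) * α j - z j)| := rfl
  have h3 : |da1_y ((n : ℝ) * α j - z j) * 2 ^ a j| < 2 ^ u j := by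
    rw [abs_mul, abs_of_pos (by positivity : (0 : ℝ) < 2 ^ a j), ← h2]
    exact h1
  rw [abs_lt] at h3
  rw [pow_succ]
  constructor
  · linarith [h3.1]
  · linarith [h3.2]

theorem da1_diff {s : ℕ} (α z : Fin s → ℝ) (a u : Fin s → ℕ) (n m : ℕ)
    (hn : ∀ j, nn ((n : ℝ) * α j - z j) * 2 ^ a j < 2 ^ u j)
    (hm : ∀ j, nn ((m : ℝ) * α j - z j) * 2 ^ a j < 2 ^ u j)
    (h : da1_c α z a u n = da1_c α z a u m) (j : Fin s) :
    nn ((((n : ℤ) - (m : ℤ) : ℤ) : ℝ) * α j) * 2 ^ a j < 1 := by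
  have h1 := da1_cell α z a u n hn j
  have h2 := da1_cell α z a u m hm j
  have h3 : ⌊da1_y ((n : ℝ) * α j - z j) * 2 ^ a j + 2 ^ u j⌋₊
      = ⌊da1_y ((m : ℝ) * α j - z j) * 2 ^ a j + 2 ^ u j⌋₊ := congrFun h j
  have h4 := Nat.floor_le h1.1
  have h5 := Nat.lt_floor_add_one (da1_y ((n : ℝ) * α j - z j) * 2 ^ a j + 2 ^ u j)
  have h6 := Nat.floor_le h2.1
  have h7 := Nat.lt_floor_add_one (da1_y ((m : ℝ) * α j - z j) * 2 ^ a j + 2 ^ u j)
  rw [h3] at h4 h5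
  have h8 : |(da1_y ((n : ℝ) * α j - z j) - da1_y ((m : ℝ) * α j - z j)) * 2 ^ a j| < 1 := by
    rw [abs_lt]
    constructor <;> nlinarith
  rw [abs_mul, abs_of_pos (by positivity : (0 : ℝ) < 2 ^ a j)] at h8
  have h9 : nn ((((n : ℤ) - (m : ℤ) : ℤ) : ℝ) * α j)
      ≤ |da1_y ((n : ℝ) * α j - z j) - da1_y ((m : ℝ) * α j - z j)| := by
    refine le_trans (nn_le _ (round ((n : ℝ) * α j - z j) - round ((m : ℝ) * α j - z j))) (le_of_eq ?_)
    unfold da1_y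
    congr 1
    push_cast
    ring
  calc nn ((((n : ℤ) - (m : ℤ) : ℤ) : ℝ) * α j) * 2 ^ a j
      ≤ |da1_y ((n : ℝ) * α j - z j) - da1_y ((m : ℝ) * α j - z j)| * 2 ^ a j := by gcongr
    _ < 1 := h8

theorem count_le {s : ℕ} (α z : Fin s → ℝ) (a u : Fin s → ℕ) (L n0 : ℕ) :
    (((Finset.Ico n0 (n0 + L)).filter fun n : ℕ =>
        ∀ j, nn ((n : ℝ) * α j - z j) * 2 ^ a j < 2 ^ u j).card : ℝ)
      ≤ (∏ j, (2 : ℝ) ^ (u j + 1)) * QQ 1 α a L := by
  set F := (Finset.Ico n0 (n0 + L)).filter fun n : ℕ =>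
        ∀ j, nn ((n : ℝ) * α j - z j) * 2 ^ a j < 2 ^ u j with hF
  have h1 : F.card ≤ QQ 1 α a L * (F.image (da1_c α z a u)).card := by
    apply Finset.card_le_mul_card_image
    intro c _
    rcases Finset.eq_empty_or_nonempty (F.filter fun n => da1_c α z a u n = c) with he | ⟨n1, hn1⟩
    · rw [he]
      simp
    · unfold QQ
      apply Finset.card_le_card_of_injOn (fun n : ℕ => (n : ℤ) - (n1 : ℤ))
      · intro n hn
        rw [Finset.mem_coe, Finset.mem_filter] at hn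
        rw [Finset.mem_filter] at hn1
        obtain ⟨hnF, hnc⟩ := hn
        obtain ⟨hn1F, hn1c⟩ := hn1
        rw [hF, Finset.mem_filter, Finset.mem_Ico] at hnF hn1F
        rw [Finset.mem_coe, Finset.mem_filter, Finset.mem_Ioo]
        refine ⟨?_, ?_⟩
        · show -(L : ℤ) < (n : ℤ) - (n1 : ℤ) ∧ (n : ℤ) - (n1 : ℤ) < (L : ℤ)
          omega
        · intro j
          exact da1_diff α z a u n n1 hnF.2 hn1F.2 (hnc.trans hn1c.symm) j
      · intro n _ m _ h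
        simp only at h
        omega
  have h2 : (F.image (da1_c α z a u)).card ≤ ∏ j, 2 ^ (u j + 1) := by
    have h3 : F.image (da1_c α z a u) ⊆ Fintype.piFinset fun j => Finset.range (2 ^ (u j + 1)) := by
      intro c hc
      rw [Finset.mem_image] at hc
      obtain ⟨n, hn, rfl⟩ := hc
      rw [Fintype.mem_piFinset]
      intro j
      rw [Finset.mem_range]
      rw [hF, Finset.mem_filter] at hn
      have h4 := da1_cell α z a u n hn.2 j
      unfold da1_c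
      rw [Nat.floor_lt h4.1]
      push_cast
      exact h4.2
    have h5 := Finset.card_le_card h3
    rw [Fintype.card_piFinset] at h5
    simpa using h5
  have h6 : F.card ≤ QQ 1 α a L * ∏ j, 2 ^ (u j + 1) := h1.trans (Nat.mul_le_mul_left _ h2)
  have h7 : (F.card : ℝ) ≤ ((QQ 1 α a L * ∏ j, 2 ^ (u j + 1) : ℕ) : ℝ) := by exact_mod_cast h6
  push_cast at h7
  linarith

end Pool.Agent.Lib.H50X
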