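import Pool.Agent.Lib.H50X.DA1

/-! # H50X, chunk DA2 (sum_env_le): counting orbit points in a small box (pigeonhole).

`count_le`: put `y_j(n) = (n α_j - z_j) - round(n α_j - z_j)`, `|y_j(n)| 2^(a_j) < 2^(u_j)`; cell index
`c_j(n) = ⌊y_j(n) 2^(a_j) + 2^(u_j)⌋ ∈ [0, 2^(u_j+1))`: there are `∏ 2^(u_j+1)` cells. If `n, n'` have the
same cell then `|y_j(n) - y_j(n')| 2^(a_j) < 1`, so `nn((n-n') α_j) 2^(a_j) < 1` for all `j` and `|n-n'| < L`:
for fixed `n` the map `n' ↦ n' - n` injects the cell into the set counted by `QQ 1 α a L`.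

`sum_env_le`: expand the product over `j` of the sums over `e ∈ {a'_j, b'_j}` and `u_j ≤ a_j`, exchange with
the sum over `n`, and use `count_le` with `z_j = e_j`:
`∑ ≤ ∏_j (2 ∑_u (1/4)^u 2^(u+1)) QQ ≤ 8^s QQ`. -/

open scoped Classical

namespace Pool.Agent.Lib.H50X

theorem da2_geo (a : ℕ) : ∑ u ∈ Finset.range (a + 1), (1 / 4 : ℝ) ^ u * 2 ^ (u + 1) ≤ 4 := by
  have h1 : ∀ u ∈ Finset.range (a + 1), (1 / 4 : ℝ) ^ u * 2 ^ (u + 1) = 2 * (1 / 2 : ℝ) ^ u := by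
    intro u _
    rw [pow_succ, show (1 / 4 : ℝ) = 1 / 2 * (1 / 2) by norm_num, mul_pow]
    have h2 : (1 / 2 : ℝ) ^ u * 2 ^ u = 1 := by rw [← mul_pow]; norm_num
    calc (1 / 2 : ℝ) ^ u * (1 / 2) ^ u * (2 ^ u * 2) = 2 * (1 / 2) ^ u * ((1 / 2 : ℝ) ^ u * 2 ^ u) := by ring
      _ = 2 * (1 / 2) ^ u := by rw [h2, mul_one]
  rw [Finset.sum_congr rfl h1, ← Finset.mul_sum]
  have h3 : ∑ u ∈ Finset.range (a + 1), (1 / 2 : ℝ) ^ u = 2 * (1 - (1 / 2) ^ (a + 1)) := by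
    rw [geom_sum_eq (by norm_num)]
    ring
  rw [h3]
  have h4 : (0 : ℝ) ≤ (1 / 2) ^ (a + 1) := by positivity
  linarith

/-- The end points. -/
noncomputable def da2_E {s : ℕ} (a' b' : Fin s → ℝ) (j : Fin s) (e : Bool) : ℝ := if e then a' j else b' j

theorem da2_env {s : ℕ} (a' b' : Fin s → ℝ) (a : Fin s → ℕ) (j : Fin s) (x : ℝ) :
    Env (a' j) (b' j) (a j) x = ∑ p ∈ (Finset.univ : Finset Bool) ×ˢ Finset.range (a j + 1),
      (1 / 4 : ℝ) ^ p.2 * (if nn (x - da2_E a' b' j p.1) * 2 ^ a j < 2 ^ p.2 then 1 else 0) := by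
  rw [Finset.sum_product, Fintype.sum_bool]
  rfl

theorem sum_env_le {s : ℕ} (α a' b' : Fin s → ℝ) (a : Fin s → ℕ) (L n0 : ℕ) :
    ∑ n ∈ Finset.Ico n0 (n0 + L), ∏ j, Env (a' j) (b' j) (a j) ((n : ℝ) * α j)
      ≤ 8 ^ s * QQ 1 α a L := by
  have h1 : ∀ n : ℕ, ∏ j, Env (a' j) (b' j) (a j) ((n : ℝ) * α j) =
      ∑ p ∈ Fintype.piFinset fun j => (Finset.univ : Finset Bool) ×ˢ Finset.range (a j + 1),
        (∏ j, (1 / 4 : ℝ) ^ (p j).2) *
          (if ∀ j, nn ((n : ℝ) * α j - da2_E a' b' j (p j).1) * 2 ^ a j < 2 ^ (p j).2 then 1 else 0) := by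
    intro n
    rw [Finset.prod_congr rfl fun j _ => da2_env a' b' a j ((n : ℝ) * α j), Finset.prod_univ_sum]
    refine Finset.sum_congr rfl fun p _ => ?_
    rw [Finset.prod_mul_distrib, Finset.prod_boole]
    simp only [Finset.mem_univ, forall_true_left]
  rw [Finset.sum_congr rfl fun n _ => h1 n, Finset.sum_comm]
  have h2 : ∀ p : Fin s → Bool × ℕ, ∑ n ∈ Finset.Ico n0 (n0 + L), (∏ j, (1 / 4 : ℝ) ^ (p j).2) *
          (if ∀ j, nn ((n : ℝ) * α j - da2_E a' b' j (p j).1) * 2 ^ a j < 2 ^ (p j).2 then 1 else 0) ≤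
      (∏ j, (1 / 4 : ℝ) ^ (p j).2 * 2 ^ ((p j).2 + 1)) * QQ 1 α a L := by
    intro p
    rw [← Finset.mul_sum, Finset.sum_boole, Finset.prod_mul_distrib, mul_assoc]
    apply mul_le_mul_of_nonneg_left _ (Finset.prod_nonneg fun j _ => by positivity)
    exact count_le α (fun j => da2_E a' b' j (p j).1) a (fun j => (p j).2) L n0
  refine (Finset.sum_le_sum fun p _ => h2 p).trans ?_
  rw [← Finset.sum_mul, ← Finset.prod_univ_sum (t := fun j => (Finset.univ : Finset Bool) ×ˢ Finset.range (a j + 1))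
    (f := fun j (p : Bool × ℕ) => (1 / 4 : ℝ) ^ p.2 * 2 ^ (p.2 + 1))]
  apply mul_le_mul_of_nonneg_right _ (Nat.cast_nonneg _)
  calc ∏ j, ∑ p ∈ (Finset.univ : Finset Bool) ×ˢ Finset.range (a j + 1), (1 / 4 : ℝ) ^ p.2 * 2 ^ (p.2 + 1)
      ≤ ∏ _j : Fin s, (8 : ℝ) := by
        refine Finset.prod_le_prod (fun j _ => Finset.sum_nonneg fun p _ => by positivity) fun j _ => ?_
        rw [Finset.sum_product, Fintype.sum_bool]
        have := da2_geo (a j)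
        linarith
    _ = 8 ^ s := by
        rw [Finset.prod_const, Finset.card_univ, Fintype.card_fin]

end Pool.Agent.Lib.H50X
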