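import Pool.Agent.Lib.H50X.Defs

/-! # H50X, chunk DB: truncation of a product of telescoping sums (PURE algebra).

Induction on `s`. First coordinate `a 0 = k`: with `P_s(K) = ∑_{a ∈ boxes s K} ∏ ψ`,
`P_(s+1)(K) = ∑_{k ≤ K} ψ_0(k) P_s(K-k)` and
`∏ χ - P_(s+1)(K) = (χ_0 - ∑_{k ≤ K} ψ_0(k)) ∏' χ + ∑_{k ≤ K} ψ_0(k) (∏' χ - P_s(K-k))`.
First term: `≤ c E_0(K)`, at most `c` times the term `a = (K, 0, ..., 0)` of the sum over `top (s+1) K`
(`E_i(0) ≥ 1`). Second: `≤ ∑_k c E_0(k) s c^s ∑_{top s (K-k)} ∏ E`. Total `≤ (s+1) c^(s+1) ∑_{top (s+1) K} ∏ E`.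
Useful: `Fin.consEquiv`/`Fin.cons`, `Fin.prod_univ_succ`, `Finset.sum_bij'`. -/

open scoped Classical

namespace Pool.Agent.Lib.H50X

theorem db_mem_boxes (s K : ℕ) (a : Fin s → ℕ) : a ∈ boxes s K ↔ ∑ j, a j ≤ K := by
  unfold boxes
  rw [Finset.mem_filter, Fintype.mem_piFinset]
  constructor
  · exact fun h => h.2
  · intro h1
    refine ⟨fun j => ?_, h1⟩
    have h4 : a j ≤ ∑ j, a j := Finset.single_le_sum (f := fun j => a j)
      (fun _ _ => Nat.zero_le _) (Finset.mem_univ j)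
    rw [Finset.mem_range]
    omega

theorem db_mem_top (s K : ℕ) (a : Fin s → ℕ) : a ∈ top s K ↔ ∑ j, a j = K := by
  unfold top
  rw [Finset.mem_filter, Fintype.mem_piFinset]
  constructor
  · exact fun h => h.2
  · intro h1
    refine ⟨fun j => ?_, h1⟩
    have h4 : a j ≤ ∑ j, a j := Finset.single_le_sum (f := fun j => a j)
      (fun _ _ => Nat.zero_le _) (Finset.mem_univ j)
    rw [Finset.mem_range]
    omega

theorem db_boxes_succ (s K : ℕ) (f : Fin (s + 1) → ℕ → ℝ) :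
    ∑ a ∈ boxes (s + 1) K, ∏ i, f i (a i) = ∑ k ∈ Finset.range (K + 1),
      f 0 k * ∑ a ∈ boxes s (K - k), ∏ i, f (Fin.succ i) (a i) := by
  simp_rw [Finset.mul_sum]
  rw [Finset.sum_sigma']
  refine Finset.sum_nbij' (fun a => ⟨a 0, Fin.tail a⟩) (fun p => Fin.cons p.1 p.2) ?_ ?_ ?_ ?_ ?_
  · intro a ha
    rw [db_mem_boxes, Fin.sum_univ_succ] at ha
    rw [Finset.mem_sigma, Finset.mem_range, db_mem_boxes]
    have e : ∑ j, Fin.tail a j = ∑ j : Fin s, a j.succ := rfl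
    dsimp only
    rw [e]
    omega
  · rintro ⟨k, a⟩ hp
    rw [Finset.mem_sigma, Finset.mem_range, db_mem_boxes] at hp
    rw [db_mem_boxes, Fin.sum_univ_succ]
    simp only [Fin.cons_zero, Fin.cons_succ]
    dsimp only at hp
    omega
  · intro a _
    exact Fin.cons_self_tail a
  · rintro ⟨k, a⟩ _
    simp
  · intro a _
    rw [Fin.prod_univ_succ]
    rfl

theorem db_top_succ (s K : ℕ) (f : Fin (s + 1) → ℕ → ℝ) :
    ∑ a ∈ top (s + 1) K, ∏ i, f i (a i) = ∑ k ∈ Finset.range (K + 1),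
      f 0 k * ∑ a ∈ top s (K - k), ∏ i, f (Fin.succ i) (a i) := by
  simp_rw [Finset.mul_sum]
  rw [Finset.sum_sigma']
  refine Finset.sum_nbij' (fun a => ⟨a 0, Fin.tail a⟩) (fun p => Fin.cons p.1 p.2) ?_ ?_ ?_ ?_ ?_
  · intro a ha
    rw [db_mem_top, Fin.sum_univ_succ] at ha
    rw [Finset.mem_sigma, Finset.mem_range, db_mem_top]
    have e : ∑ j, Fin.tail a j = ∑ j : Fin s, a j.succ := rfl
    dsimp only
    rw [e]
    omega
  · rintro ⟨k, a⟩ hp
    rw [Finset.mem_sigma, Finset.mem_range, db_mem_top] at hp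
    rw [db_mem_top, Fin.sum_univ_succ]
    simp only [Fin.cons_zero, Fin.cons_succ]
    dsimp only at hp
    omega
  · intro a _
    exact Fin.cons_self_tail a
  · rintro ⟨k, a⟩ _
    simp
  · intro a _
    rw [Fin.prod_univ_succ]
    rfl

theorem db_top_zero (s : ℕ) (E : Fin s → ℕ → ℝ) (h1 : ∀ i, 1 ≤ E i 0) (h2 : ∀ i j, 0 ≤ E i j) :
    1 ≤ ∑ a ∈ top s 0, ∏ i, E i (a i) := by
  have h3 : (fun _ : Fin s => 0) ∈ top s 0 := by
    rw [db_mem_top]
    simp
  have h4 := Finset.single_le_sum (f := fun a : Fin s → ℕ => ∏ i, E i (a i))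
    (fun a _ => Finset.prod_nonneg fun i _ => h2 i (a i)) h3
  refine le_trans ?_ h4
  have h5 := Finset.prod_le_prod (s := Finset.univ) (f := fun _ : Fin s => (1 : ℝ))
    (g := fun i => E i 0) (fun _ _ => zero_le_one) (fun i _ => h1 i)
  simpa using h5

theorem tele (s : ℕ) : ∀ (K : ℕ) (ψ E : Fin s → ℕ → ℝ) (χ : Fin s → ℝ) (c : ℝ) (_ : 1 ≤ c)
    (_ : ∀ i, 1 ≤ E i 0) (_ : ∀ i j, 0 ≤ E i j) (_ : ∀ i, |χ i| ≤ 1)
    (_ : ∀ i j, |ψ i j| ≤ c * E i j)
    (_ : ∀ i j, |χ i - ∑ k ∈ Finset.range (j + 1), ψ i k| ≤ c * E i j),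
    |∏ i, χ i - ∑ a ∈ boxes s K, ∏ i, ψ i (a i)|
      ≤ s * c ^ s * ∑ a ∈ top s K, ∏ i, E i (a i) := by
  induction s with
  | zero =>
    intro K ψ E χ c hc h1 h2 h3 h4 h5
    have e : boxes 0 K = {Fin.elim0} := by
      ext a
      rw [db_mem_boxes, Finset.mem_singleton]
      constructor
      · intro _
        exact Subsingleton.elim _ _
      · intro _
        simp
    rw [e]
    simp
  | succ s ih =>
    intro K ψ E χ c hc h1 h2 h3 h4 h5
    have hc0 : 0 ≤ c := by linarith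
    set χ' : ℝ := ∏ i : Fin s, χ i.succ with hχ'
    set P : ℕ → ℝ := fun K => ∑ a ∈ boxes s K, ∏ i : Fin s, ψ i.succ (a i) with hP
    set T : ℕ → ℝ := fun K => ∑ a ∈ top s K, ∏ i : Fin s, E i.succ (a i) with hT
    have hT0 : ∀ K, 0 ≤ T K := fun K =>
      Finset.sum_nonneg fun a _ => Finset.prod_nonneg fun i _ => h2 _ _
    have hih : ∀ K, |χ' - P K| ≤ s * c ^ s * T K := fun K =>
      ih K (fun i => ψ i.succ) (fun i => E i.succ) (fun i => χ i.succ) c hc (fun i => h1 _)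
        (fun i j => h2 _ _) (fun i => h3 _) (fun i j => h4 _ _) (fun i j => h5 _ _)
    rw [Fin.prod_univ_succ, db_boxes_succ, db_top_succ]
    have hχ'1 : |χ'| ≤ 1 := by
      rw [hχ', Finset.abs_prod]
      exact Finset.prod_le_one (fun _ _ => abs_nonneg _) fun i _ => h3 _
    have e : χ 0 * χ' - ∑ k ∈ Finset.range (K + 1), ψ 0 k * P (K - k) =
        (χ 0 - ∑ k ∈ Finset.range (K + 1), ψ 0 k) * χ' +
          ∑ k ∈ Finset.range (K + 1), ψ 0 k * (χ' - P (K - k)) := by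
      simp_rw [mul_sub]
      rw [Finset.sum_sub_distrib, ← Finset.sum_mul]
      ring
    show |χ 0 * χ' - ∑ k ∈ Finset.range (K + 1), ψ 0 k * P (K - k)| ≤
      ((s + 1 : ℕ) : ℝ) * c ^ (s + 1) * ∑ k ∈ Finset.range (K + 1), E 0 k * T (K - k)
    rw [e]
    have b1 : |(χ 0 - ∑ k ∈ Finset.range (K + 1), ψ 0 k) * χ'| ≤ c * E 0 K := by
      rw [abs_mul]
      calc _ ≤ (c * E 0 K) * 1 := mul_le_mul (h5 0 K) hχ'1 (abs_nonneg _)
            (mul_nonneg hc0 (h2 _ _))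
        _ = _ := mul_one _
    have b2 : |∑ k ∈ Finset.range (K + 1), ψ 0 k * (χ' - P (K - k))| ≤
        ∑ k ∈ Finset.range (K + 1), (c * E 0 k) * (s * c ^ s * T (K - k)) := by
      refine (Finset.abs_sum_le_sum_abs _ _).trans (Finset.sum_le_sum fun k _ => ?_)
      rw [abs_mul]
      exact mul_le_mul (h4 0 k) (hih _) (abs_nonneg _) (mul_nonneg hc0 (h2 _ _))
    have b3 : ∑ k ∈ Finset.range (K + 1), (c * E 0 k) * (s * c ^ s * T (K - k)) =
        s * c ^ (s + 1) * ∑ k ∈ Finset.range (K + 1), E 0 k * T (K - k) := by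
      rw [Finset.mul_sum]
      refine Finset.sum_congr rfl fun k _ => ?_
      ring
    have b4 : E 0 K ≤ ∑ k ∈ Finset.range (K + 1), E 0 k * T (K - k) := by
      have h6 := Finset.single_le_sum (f := fun k => E 0 k * T (K - k))
        (s := Finset.range (K + 1)) (fun k _ => mul_nonneg (h2 _ _) (hT0 _))
        (Finset.mem_range.2 (Nat.lt_succ_self K))
      refine le_trans ?_ h6
      rw [Nat.sub_self]
      have h7 : 1 ≤ T 0 := db_top_zero s (fun i => E i.succ) (fun i => h1 _) (fun i j => h2 _ _)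
      have := h2 0 K
      nlinarith
    have b5 : c * E 0 K ≤ c ^ (s + 1) * ∑ k ∈ Finset.range (K + 1), E 0 k * T (K - k) := by
      have h6 : c ≤ c ^ (s + 1) := by
        rw [pow_succ]
        have : 1 ≤ c ^ s := one_le_pow₀ hc
        nlinarith
      exact mul_le_mul h6 b4 (h2 _ _) (by positivity)
    refine (abs_add_le _ _).trans ?_
    rw [b3] at b2
    push_cast
    linarith

end Pool.Agent.Lib.H50X
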