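import Pool.Agent.Lib.H50X.BB

/-! # H50X, chunk DC0 (smooth_le, geom2_le): one dyadic piece along the orbit.

Let `L = 2^(∑ a)`, `g(n) = ∏_j psi (a'_j) (b'_j) (a_j) (n α_j)` for `n ∈ ℕ`.
(1) `∑_{n<N} g(n) - (1/L) ∑_{l<L} ∑_{n<N} g(n+l)` is bounded by `∑_{n<L} |g| + ∑_{N≤n<N+L} |g|`
    (`∑_{n<N} g(n+l) - ∑_{n<N} g(n) = ∑_{N≤n<N+l} g - ∑_{n<l} g`), and by `abs_psi_le` and `sum_env_le` each
    of the two sums is `≤ 5^s 8^s QQ 1 α a L = 40^s QQ`.
(2) `psi_expand` and `Finset.prod_univ_sum`: `g(n) = ∑_{h ∈ ∏ kset(a_j)} c(h) ee(n (h·α))` with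
    `|c(h)| ≤ ∏ 6/2^(a_j) = 6^s/L`; `(1/L) ∑_l ∑_n ee((n+l) θ) = (1/L) D_N(θ) D_L(θ)`, `θ = h·α`, and
    `|D_N| ≤ 1/(2 nn θ)`, `|D_L| ≤ min(L, 1/(2 nn θ))` (`norm_geom_le`), so the absolute value is at most
    `min(1/nn θ, 1/(L (nn θ)^2))`. -/

open scoped Classical

namespace Pool.Agent.Lib.H50X

/-- smoothing in time (PURE) -/
theorem dc0_shift (g : ℕ → ℝ) (N l : ℕ) :
    ∑ n ∈ Finset.range N, g n - ∑ n ∈ Finset.range N, g (n + l) =
      ∑ n ∈ Finset.Ico 0 (0 + l), g n - ∑ n ∈ Finset.Ico N (N + l), g n := by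
  have h1 : ∑ n ∈ Finset.range N, g (n + l) = ∑ n ∈ Finset.Ico l (N + l), g n := by
    rw [Finset.sum_Ico_eq_sum_range, Nat.add_sub_cancel]
    exact Finset.sum_congr rfl fun n _ => by rw [add_comm]
  have h2 : ∑ n ∈ Finset.range N, g n + ∑ n ∈ Finset.Ico N (N + l), g n =
      ∑ n ∈ Finset.range (N + l), g n := by
    rw [Finset.range_eq_Ico, Finset.range_eq_Ico]
    exact Finset.sum_Ico_consecutive _ (Nat.zero_le _) (Nat.le_add_right _ _)
  have h3 : ∑ n ∈ Finset.Ico 0 (0 + l), g n + ∑ n ∈ Finset.Ico l (N + l), g n =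
      ∑ n ∈ Finset.range (N + l), g n := by
    rw [zero_add, Finset.range_eq_Ico]
    exact Finset.sum_Ico_consecutive _ (Nat.zero_le _) (Nat.le_add_left _ _)
  rw [h1]
  linarith

/-- smoothing in time (PURE) -/
theorem smooth_le (g : ℕ → ℝ) (N L : ℕ) (hL : 1 ≤ L) :
    |∑ n ∈ Finset.range N, g n|
      ≤ |(1 / (L : ℝ)) * ∑ l ∈ Finset.range L, ∑ n ∈ Finset.range N, g (n + l)|
        + (∑ n ∈ Finset.Ico 0 (0 + L), |g n| + ∑ n ∈ Finset.Ico N (N + L), |g n|) := by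
  set E := ∑ n ∈ Finset.Ico 0 (0 + L), |g n| + ∑ n ∈ Finset.Ico N (N + L), |g n| with hE
  have hL0 : (0 : ℝ) < L := by exact_mod_cast hL
  have h1 : ∀ l ∈ Finset.range L,
      |∑ n ∈ Finset.range N, g n - ∑ n ∈ Finset.range N, g (n + l)| ≤ E := by
    intro l hl
    rw [dc0_shift]
    have hl' := Finset.mem_range.1 hl
    refine (abs_sub _ _).trans ?_
    apply add_le_add
    · refine (Finset.abs_sum_le_sum_abs _ _).trans ?_
      apply Finset.sum_le_sum_of_subset_of_nonneg _ fun _ _ _ => abs_nonneg _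
      exact Finset.Ico_subset_Ico_right (by omega)
    · refine (Finset.abs_sum_le_sum_abs _ _).trans ?_
      apply Finset.sum_le_sum_of_subset_of_nonneg _ fun _ _ _ => abs_nonneg _
      exact Finset.Ico_subset_Ico_right (by omega)
  have h2 : |∑ n ∈ Finset.range N, g n - (1 / (L : ℝ)) *
      ∑ l ∈ Finset.range L, ∑ n ∈ Finset.range N, g (n + l)| ≤ E := by
    have e : ∑ n ∈ Finset.range N, g n - (1 / (L : ℝ)) *
        ∑ l ∈ Finset.range L, ∑ n ∈ Finset.range N, g (n + l) = (1 / (L : ℝ)) *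
        ∑ l ∈ Finset.range L, (∑ n ∈ Finset.range N, g n - ∑ n ∈ Finset.range N, g (n + l)) := by
      rw [Finset.sum_sub_distrib, Finset.sum_const, Finset.card_range, nsmul_eq_mul, mul_sub]
      congr 1
      field_simp
    rw [e, abs_mul, abs_of_pos (by positivity)]
    have h3 := (Finset.abs_sum_le_sum_abs (fun l => ∑ n ∈ Finset.range N, g n -
      ∑ n ∈ Finset.range N, g (n + l)) (Finset.range L)).trans (Finset.sum_le_sum h1)
    rw [Finset.sum_const, Finset.card_range, nsmul_eq_mul] at h3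
    calc _ ≤ 1 / (L : ℝ) * (L * E) := mul_le_mul_of_nonneg_left h3 (by positivity)
      _ = E := by field_simp
  have h3 := abs_sub_abs_le_abs_sub (∑ n ∈ Finset.range N, g n) ((1 / (L : ℝ)) *
      ∑ l ∈ Finset.range L, ∑ n ∈ Finset.range N, g (n + l))
  linarith

/-- double geometric sum -/
theorem geom2_le (N L : ℕ) (hL : 1 ≤ L) (θ : ℝ) (hθ : nn θ ≠ 0) :
    ‖(1 / (L : ℂ)) * ∑ l ∈ Finset.range L, ∑ n ∈ Finset.range N, ee (((n + l : ℕ) : ℝ) * θ)‖
      ≤ min (1 / nn θ) (1 / ((L : ℝ) * nn θ ^ 2)) := by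
  have hL0 : (0 : ℝ) < L := by exact_mod_cast hL
  have hx : 0 < nn θ := lt_of_le_of_ne (abs_nonneg _) (Ne.symm hθ)
  have e : ∑ l ∈ Finset.range L, ∑ n ∈ Finset.range N, ee (((n + l : ℕ) : ℝ) * θ) =
      (∑ l ∈ Finset.range L, ee (l * θ)) * ∑ n ∈ Finset.range N, ee (n * θ) := by
    rw [Finset.sum_mul_sum]
    refine Finset.sum_congr rfl fun l _ => Finset.sum_congr rfl fun n _ => ?_
    rw [← ee_add]
    congr 1
    push_cast
    ring
  have hN := norm_geom_le N θ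
  have hLL := norm_geom_le L θ
  have hL2 : ‖∑ l ∈ Finset.range L, ee (l * θ)‖ ≤ L := by
    refine (norm_sum_le _ _).trans (le_of_eq ?_)
    simp_rw [norm_ee]
    rw [Finset.sum_const, Finset.card_range, nsmul_eq_mul, mul_one]
  obtain ⟨A, hA⟩ : ∃ A : ℝ, A = ‖∑ n ∈ Finset.range N, ee (n * θ)‖ := ⟨_, rfl⟩
  obtain ⟨B, hB⟩ : ∃ B : ℝ, B = ‖∑ n ∈ Finset.range L, ee (n * θ)‖ := ⟨_, rfl⟩
  obtain ⟨x, hxx⟩ : ∃ x : ℝ, x = nn θ := ⟨_, rfl⟩
  have hA0 : 0 ≤ A := by rw [hA]; positivity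
  have hB0 : 0 ≤ B := by rw [hB]; positivity
  rw [e, norm_mul, norm_mul, norm_div, norm_one, Complex.norm_natCast, ← hA, ← hB, ← hxx]
  rw [← hA, ← hxx] at hN
  rw [← hB, ← hxx] at hLL
  rw [← hB] at hL2
  rw [← hxx] at hx
  have hA1 : A ≤ 1 / (2 * x) := by
    rw [le_div_iff₀ (by positivity)]
    exact hN
  have hB1 : B ≤ 1 / (2 * x) := by
    rw [le_div_iff₀ (by positivity)]
    exact hLL
  apply le_min
  · calc 1 / (L : ℝ) * (B * A) ≤ 1 / (L : ℝ) * (L * (1 / (2 * x))) := by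
          apply mul_le_mul_of_nonneg_left _ (by positivity)
          exact mul_le_mul hL2 hA1 hA0 hL0.le
      _ = 1 / x * (1 / 2) := by field_simp
      _ ≤ 1 / x := by
          have : 0 < 1 / x := by positivity
          linarith
  · calc 1 / (L : ℝ) * (B * A) ≤ 1 / (L : ℝ) * (1 / (2 * x) * (1 / (2 * x))) := by
          apply mul_le_mul_of_nonneg_left _ (by positivity)
          exact mul_le_mul hB1 hA1 hA0 (by positivity)
      _ = 1 / (L * x ^ 2) * (1 / 4) := by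
          field_simp
          norm_num
      _ ≤ 1 / (L * x ^ 2) := by
          have : 0 < 1 / (L * x ^ 2) := by positivity
          linarith

end Pool.Agent.Lib.H50X
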