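import Pool.Agent.Lib.H50X.KE
import Pool.Agent.Lib.H50X.DA2
import Pool.Agent.Lib.H50X.DC0

/-! # H50X, chunk DC (main_le): one dyadic piece along the orbit.

Let `L = 2^(∑ a)`, `g(n) = ∏_j psi (a'_j) (b'_j) (a_j) (n α_j)` for `n ∈ ℕ`.
(1) `∑_{n<N} g(n) - (1/L) ∑_{l<L} ∑_{n<N} g(n+l)` is bounded by `∑_{n<L} |g| + ∑_{N≤n<N+L} |g|`
    (`∑_{n<N} g(n+l) - ∑_{n<N} g(n) = ∑_{N≤n<N+l} g - ∑_{n<l} g`), and by `abs_psi_le` and `sum_env_le` each
    of the two sums is `≤ 5^s 8^s QQ 1 α a L = 40^s QQ`.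
(2) `psi_expand` and `Finset.prod_univ_sum`: `g(n) = ∑_{h ∈ ∏ kset(a_j)} c(h) ee(n (h·α))` with
    `|c(h)| ≤ ∏ 6/2^(a_j) = 6^s/L`; `(1/L) ∑_l ∑_n ee((n+l) θ) = (1/L) D_N(θ) D_L(θ)`, `θ = h·α`, and
    `|D_N| ≤ 1/(2 nn θ)`, `|D_L| ≤ min(L, 1/(2 nn θ))` (`norm_geom_le`), so the absolute value is at most
    `min(1/nn θ, 1/(L (nn θ)^2))`. -/

open scoped Classical

namespace Pool.Agent.Lib.H50X

theorem dc_ee_sum {s : ℕ} (f : Fin s → ℝ) : ee (∑ j, f j) = ∏ j, ee (f j) := by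
  induction s with
  | zero => simp [ee_zero]
  | succ s ih => rw [Fin.sum_univ_succ, Fin.prod_univ_succ, ee_add, ih]

/-- sums of the absolute values over a window of length `L` -/
theorem dc_window {s : ℕ} (α a' b' : Fin s → ℝ) (ha : ∀ j, 0 ≤ a' j) (hab : ∀ j, a' j ≤ b' j)
    (hb : ∀ j, b' j ≤ 1) (a : Fin s → ℕ) (L n0 : ℕ) :
    ∑ n ∈ Finset.Ico n0 (n0 + L), |∏ j, psi (a' j) (b' j) (a j) ((n : ℝ) * α j)|
      ≤ 40 ^ s * QQ 1 α a L := by
  have h1 : ∀ n ∈ Finset.Ico n0 (n0 + L), |∏ j, psi (a' j) (b' j) (a j) ((n : ℝ) * α j)|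
      ≤ 5 ^ s * ∏ j, Env (a' j) (b' j) (a j) ((n : ℝ) * α j) := by
    intro n _
    rw [Finset.abs_prod]
    have h2 : ∏ j, |psi (a' j) (b' j) (a j) ((n : ℝ) * α j)|
        ≤ ∏ j, (5 * Env (a' j) (b' j) (a j) ((n : ℝ) * α j)) :=
      Finset.prod_le_prod (fun j _ => abs_nonneg _)
        (fun j _ => abs_psi_le (a' j) (b' j) (ha j) (hab j) (hb j) (a j) _)
    refine h2.trans (le_of_eq ?_)
    rw [Finset.prod_mul_distrib, Finset.prod_const, Finset.card_univ, Fintype.card_fin]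
  refine (Finset.sum_le_sum h1).trans ?_
  rw [← Finset.mul_sum]
  have h3 := sum_env_le α a' b' a L n0
  calc (5 : ℝ) ^ s * ∑ n ∈ Finset.Ico n0 (n0 + L), ∏ j, Env (a' j) (b' j) (a j) ((n : ℝ) * α j)
      ≤ 5 ^ s * (8 ^ s * QQ 1 α a L) := mul_le_mul_of_nonneg_left h3 (by positivity)
    _ = 40 ^ s * QQ 1 α a L := by
        rw [← mul_assoc, ← mul_pow]
        norm_num

/-- the Fourier expansion of the product -/
theorem dc_expand {s : ℕ} (α a' b' : Fin s → ℝ) (a : Fin s → ℕ) (t : ℝ) :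
    ((∏ j, psi (a' j) (b' j) (a j) (t * α j) : ℝ) : ℂ)
      = ∑ h ∈ Fintype.piFinset fun j => kset (a j),
        (∏ j, cpsi (a' j) (b' j) (a j) (h j)) * ee (t * dot h α) := by
  rw [Complex.ofReal_prod]
  have h1 : ∀ j : Fin s, ((psi (a' j) (b' j) (a j) (t * α j) : ℝ) : ℂ)
      = ∑ k ∈ kset (a j), cpsi (a' j) (b' j) (a j) k * ee (k * (t * α j)) :=
    fun j => psi_expand _ _ _ _
  rw [Finset.prod_congr rfl fun j _ => h1 j, Finset.prod_univ_sum]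
  refine Finset.sum_congr rfl fun h _ => ?_
  rw [Finset.prod_mul_distrib]
  congr 1
  rw [← dc_ee_sum]
  congr 1
  unfold dot
  rw [Finset.mul_sum]
  refine Finset.sum_congr rfl fun j _ => ?_
  ring

theorem main_le {s : ℕ} (α a' b' : Fin s → ℝ) (ha : ∀ j, 0 ≤ a' j) (hab : ∀ j, a' j ≤ b' j)
    (hb : ∀ j, b' j ≤ 1) (a : Fin s → ℕ) (hane : a ≠ 0) (N : ℕ)
    (hα : ∀ h : Fin s → ℤ, h ≠ 0 → nn (dot h α) ≠ 0) :
    |∑ n ∈ Finset.range N, ∏ j, psi (a' j) (b' j) (a j) ((n : ℝ) * α j)|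
      ≤ 2 * 40 ^ s * QQ 1 α a (2 ^ ∑ j, a j)
        + 6 ^ s / 2 ^ (∑ j, a j) * ∑ h ∈ Fintype.piFinset fun j => kset (a j),
            min (1 / nn (dot h α)) (1 / (2 ^ (∑ j, a j) * nn (dot h α) ^ 2)) := by
  set L : ℕ := 2 ^ ∑ j, a j with hL
  have hL1 : 1 ≤ L := Nat.one_le_two_pow
  have hLr : ((L : ℕ) : ℝ) = 2 ^ (∑ j, a j) := by
    rw [hL]
    push_cast
    rfl
  have h1 := smooth_le (fun n : ℕ => ∏ j, psi (a' j) (b' j) (a j) ((n : ℝ) * α j)) N L hL1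
  have h2 := dc_window α a' b' ha hab hb a L 0
  have h3 := dc_window α a' b' ha hab hb a L N
  have h4 : |(1 / (L : ℝ)) * ∑ l ∈ Finset.range L, ∑ n ∈ Finset.range N,
      ∏ j, psi (a' j) (b' j) (a j) (((n + l : ℕ) : ℝ) * α j)|
      ≤ 6 ^ s / 2 ^ (∑ j, a j) * ∑ h ∈ Fintype.piFinset fun j => kset (a j),
            min (1 / nn (dot h α)) (1 / (2 ^ (∑ j, a j) * nn (dot h α) ^ 2)) := by
    rw [← Real.norm_eq_abs, ← Complex.norm_real]
    have h5 : (((1 / (L : ℝ)) * ∑ l ∈ Finset.range L, ∑ n ∈ Finset.range N,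
      ∏ j, psi (a' j) (b' j) (a j) (((n + l : ℕ) : ℝ) * α j) : ℝ) : ℂ)
        = ∑ h ∈ Fintype.piFinset fun j => kset (a j),
          (∏ j, cpsi (a' j) (b' j) (a j) (h j)) *
            ((1 / (L : ℂ)) * ∑ l ∈ Finset.range L, ∑ n ∈ Finset.range N,
              ee (((n + l : ℕ) : ℝ) * dot h α)) := by
      rw [Complex.ofReal_mul, Complex.ofReal_sum]
      have h6 : ∀ l ∈ Finset.range L, (((∑ n ∈ Finset.range N,
          ∏ j, psi (a' j) (b' j) (a j) (((n + l : ℕ) : ℝ) * α j) : ℝ)) : ℂ)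
          = ∑ n ∈ Finset.range N, ∑ h ∈ Fintype.piFinset fun j => kset (a j),
            (∏ j, cpsi (a' j) (b' j) (a j) (h j)) * ee (((n + l : ℕ) : ℝ) * dot h α) := by
        intro l _
        rw [Complex.ofReal_sum]
        exact Finset.sum_congr rfl fun n _ => dc_expand α a' b' a _
      rw [Finset.sum_congr rfl h6]
      have h7 : ∀ l ∈ Finset.range L, (∑ n ∈ Finset.range N,
          ∑ h ∈ Fintype.piFinset fun j => kset (a j),
            (∏ j, cpsi (a' j) (b' j) (a j) (h j)) * ee (((n + l : ℕ) : ℝ) * dot h α))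
          = ∑ h ∈ Fintype.piFinset fun j => kset (a j), ∑ n ∈ Finset.range N,
            (∏ j, cpsi (a' j) (b' j) (a j) (h j)) * ee (((n + l : ℕ) : ℝ) * dot h α) :=
        fun l _ => Finset.sum_comm
      rw [Finset.sum_congr rfl h7, Finset.sum_comm, Finset.mul_sum]
      refine Finset.sum_congr rfl fun h _ => ?_
      simp_rw [← Finset.mul_sum]
      push_cast
      ring
    rw [h5]
    refine (norm_sum_le _ _).trans ?_
    rw [Finset.mul_sum]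
    refine Finset.sum_le_sum fun h hh => ?_
    rw [norm_mul]
    rw [Fintype.mem_piFinset] at hh
    have hne : h ≠ 0 := by
      intro h0
      apply hane
      funext j
      have h8 := hh j
      rw [h0] at h8
      rcases haj : a j with _ | m
      · rfl
      · rw [haj] at h8
        exfalso
        have h9 : (0 : ℤ) ∈ (Finset.Ioo (-(2 ^ (m + 2) : ℤ)) (2 ^ (m + 2))).filter
          (fun k => k ≠ 0) := h8
        rw [Finset.mem_filter] at h9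
        exact h9.2 rfl
    have h10 : ‖∏ j, cpsi (a' j) (b' j) (a j) (h j)‖ ≤ 6 ^ s / 2 ^ (∑ j, a j) := by
      rw [norm_prod]
      calc ∏ j, ‖cpsi (a' j) (b' j) (a j) (h j)‖ ≤ ∏ j, ((6 : ℝ) / 2 ^ a j) :=
            Finset.prod_le_prod (fun j _ => norm_nonneg _)
              (fun j _ => norm_cpsi_le (a' j) (b' j) (ha j) (hab j) (hb j) (a j) (h j) (hh j))
        _ = 6 ^ s / 2 ^ (∑ j, a j) := by
            rw [Finset.prod_div_distrib, Finset.prod_const, Finset.card_univ, Fintype.card_fin,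
              Finset.prod_pow_eq_pow_sum]
    have h11 := geom2_le N L hL1 (dot h α) (hα h hne)
    rw [hLr] at h11
    exact mul_le_mul h10 h11 (norm_nonneg _) (by positivity)
  have h12 : |(1 / (L : ℝ)) * ∑ l ∈ Finset.range L, ∑ n ∈ Finset.range N,
      (fun n : ℕ => ∏ j, psi (a' j) (b' j) (a j) ((n : ℝ) * α j)) (n + l)|
      ≤ 6 ^ s / 2 ^ (∑ j, a j) * ∑ h ∈ Fintype.piFinset fun j => kset (a j),
            min (1 / nn (dot h α)) (1 / (2 ^ (∑ j, a j) * nn (dot h α) ^ 2)) := h4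
  have h13 : ∑ n ∈ Finset.Ico 0 (0 + L), |(fun n : ℕ => ∏ j, psi (a' j) (b' j) (a j)
      ((n : ℝ) * α j)) n| ≤ 40 ^ s * QQ 1 α a L := h2
  have h14 : ∑ n ∈ Finset.Ico N (N + L), |(fun n : ℕ => ∏ j, psi (a' j) (b' j) (a j)
      ((n : ℝ) * α j)) n| ≤ 40 ^ s * QQ 1 α a L := h3
  have h15 : |∑ n ∈ Finset.range N, ∏ j, psi (a' j) (b' j) (a j) ((n : ℝ) * α j)|
      ≤ |(1 / (L : ℝ)) * ∑ l ∈ Finset.range L, ∑ n ∈ Finset.range N,
      (fun n : ℕ => ∏ j, psi (a' j) (b' j) (a j) ((n : ℝ) * α j)) (n + l)|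
      + (∑ n ∈ Finset.Ico 0 (0 + L), |(fun n : ℕ => ∏ j, psi (a' j) (b' j) (a j)
      ((n : ℝ) * α j)) n| + ∑ n ∈ Finset.Ico N (N + L), |(fun n : ℕ => ∏ j, psi (a' j) (b' j) (a j)
      ((n : ℝ) * α j)) n|) := h1
  linarith

end Pool.Agent.Lib.H50X
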