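import Pool.Agent.Lib.H50X.Defs

/-! # H50X, chunk PC: counting by size (PURE).

The integers of size `z ≥ 1` are `±k`, `2^(z-1) ≤ k < 2^z`: there are `2^z`; size `0` only `0`. So
`∑_{k : sz k < R} 2^(-sz k) = R` and the product formula (`Finset.prod_univ_sum`) gives
`∑_{h : ∀ j, sz (h j) < R} 2^(-bb h) = R^s`. `card_ablk_le`: subset of the functions into `range (2^(i+1))`.
`sz_facts`: from `Nat.lt_size_self`, `Nat.size_le`, `Nat.lt_size`. -/

open scoped Classical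

namespace Pool.Agent.Lib.H50X

theorem sz_zero_iff (k : ℤ) : sz k = 0 ↔ k = 0 := by
  unfold sz
  rw [Nat.size_eq_zero, Int.natAbs_eq_zero]

theorem abs_lt_two_pow_sz (k : ℤ) : |(k : ℝ)| < 2 ^ sz k := by
  have h1 : k.natAbs < 2 ^ sz k := Nat.lt_size_self _
  have h2 : |(k : ℝ)| = (k.natAbs : ℝ) := by
    rw [Nat.cast_natAbs, Int.cast_abs]
  rw [h2]
  exact_mod_cast h1

theorem pc_abs_int (k : ℤ) : |k| < 2 ^ sz k := by
  have h := abs_lt_two_pow_sz k
  have h2 : ((|k| : ℤ) : ℝ) < ((2 ^ sz k : ℤ) : ℝ) := by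
    push_cast
    exact h
  exact_mod_cast h2

theorem pc_sz_lower (k : ℤ) (m : ℕ) (h : m < sz k) : 2 ^ m ≤ k.natAbs := by
  unfold sz at h
  exact Nat.lt_size.1 h

theorem two_pow_sz_le (k : ℤ) (hk : k ≠ 0) : (2 : ℝ) ^ sz k ≤ 2 * |(k : ℝ)| := by
  have h0 : sz k ≠ 0 := fun h => hk ((sz_zero_iff k).1 h)
  obtain ⟨m, hm⟩ := Nat.exists_eq_succ_of_ne_zero h0
  have h1 := pc_sz_lower k m (by omega)
  have h2 : |(k : ℝ)| = (k.natAbs : ℝ) := by
    rw [Nat.cast_natAbs, Int.cast_abs]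
  have h3 : (2 : ℝ) ^ m ≤ (k.natAbs : ℝ) := by exact_mod_cast h1
  rw [hm, pow_succ, h2]
  linarith

theorem sz_two_pow_mul (k : ℤ) (hk : k ≠ 0) (m : ℕ) : sz (2 ^ m * k) = sz k + m := by
  unfold sz
  have h1 : (2 ^ m * k : ℤ).natAbs = k.natAbs <<< m := by
    rw [Int.natAbs_mul, Int.natAbs_pow, Nat.shiftLeft_eq, mul_comm]
    rfl
  rw [h1, Nat.size_shiftLeft (Int.natAbs_ne_zero.2 hk)]

theorem pc_card_fib (F : Finset ℤ) (z : ℕ) : (F.filter fun k => sz k = z).card ≤ 2 ^ z := by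
  rcases z with _ | z
  · rw [pow_zero, Finset.card_le_one]
    intro a ha b hb
    rw [Finset.mem_filter] at ha hb
    rw [(sz_zero_iff a).1 ha.2, (sz_zero_iff b).1 hb.2]
  · have h1 : (F.filter fun k => sz k = z + 1) ⊆
        Finset.Ico (2 ^ z : ℤ) (2 ^ (z + 1)) ∪ Finset.Ioc (-(2 ^ (z + 1)) : ℤ) (-(2 ^ z)) := by
      intro k hk
      have hsz := (Finset.mem_filter.1 hk).2
      have h2 := pc_abs_int k
      have h3 := pc_sz_lower k z (by omega)
      have h4 : (2 ^ z : ℤ) ≤ |k| := by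
        have : ((2 ^ z : ℕ) : ℤ) ≤ (k.natAbs : ℤ) := by exact_mod_cast h3
        rw [Int.natCast_natAbs] at this
        exact_mod_cast this
      rw [hsz] at h2
      rw [Finset.mem_union, Finset.mem_Ico, Finset.mem_Ioc]
      rcases abs_cases k with ⟨h5, h6⟩ | ⟨h5, h6⟩
      · left
        rw [h5] at h2 h4
        exact ⟨h4, h2⟩
      · right
        rw [h5] at h2 h4
        constructor <;> linarith
    refine (Finset.card_le_card h1).trans ((Finset.card_union_le _ _).trans (le_of_eq ?_))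
    rw [Int.card_Ico, Int.card_Ioc]
    have e1 : (2 ^ (z + 1) - 2 ^ z : ℤ) = ((2 ^ z : ℕ) : ℤ) := by
      push_cast
      ring
    have e2 : (-(2 ^ z) - -(2 ^ (z + 1)) : ℤ) = ((2 ^ z : ℕ) : ℤ) := by
      push_cast
      ring
    rw [e1, e2, Int.toNat_natCast, pow_succ]
    ring

theorem sum_sz (R : ℕ) (F : Finset ℤ) (hF : ∀ k ∈ F, sz k < R) :
    ∑ k ∈ F, (1 / 2 ^ sz k : ℝ) ≤ R := by
  have h1 : ∑ k ∈ F, (1 / 2 ^ sz k : ℝ) =
      ∑ z ∈ Finset.range R, ∑ k ∈ F.filter (fun k => sz k = z), (1 / 2 ^ sz k : ℝ) :=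
    (Finset.sum_fiberwise_of_maps_to (fun k hk => Finset.mem_range.2 (hF k hk)) _).symm
  rw [h1]
  have h2 : ∀ z ∈ Finset.range R, ∑ k ∈ F.filter (fun k => sz k = z), (1 / 2 ^ sz k : ℝ) ≤ 1 := by
    intro z _
    have h3 : ∑ k ∈ F.filter (fun k => sz k = z), (1 / 2 ^ sz k : ℝ) =
        ∑ k ∈ F.filter (fun k => sz k = z), (1 / 2 ^ z : ℝ) :=
      Finset.sum_congr rfl fun k hk => by rw [(Finset.mem_filter.1 hk).2]
    rw [h3, Finset.sum_const, nsmul_eq_mul, mul_one_div, div_le_one (by positivity)]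
    exact_mod_cast pc_card_fib F z
  refine (Finset.sum_le_sum h2).trans ?_
  simp

theorem sum_bb (s R : ℕ) (F : Finset (Fin s → ℤ)) (hF : ∀ h ∈ F, ∀ j, sz (h j) < R) :
    ∑ h ∈ F, (1 / 2 ^ bb h : ℝ) ≤ (R : ℝ) ^ s := by
  set G : Finset ℤ := F.biUnion fun h => Finset.univ.image h with hG
  have hGR : ∀ k ∈ G, sz k < R := by
    intro k hk
    obtain ⟨h, hh, hk2⟩ := Finset.mem_biUnion.1 hk
    obtain ⟨j, _, rfl⟩ := Finset.mem_image.1 hk2
    exact hF h hh j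
  have hsub : F ⊆ Fintype.piFinset fun _ : Fin s => G := by
    intro h hh
    rw [Fintype.mem_piFinset]
    intro j
    exact Finset.mem_biUnion.2 ⟨h, hh, Finset.mem_image.2 ⟨j, Finset.mem_univ _, rfl⟩⟩
  have h1 : ∑ h ∈ F, (1 / 2 ^ bb h : ℝ) ≤
      ∑ h ∈ Fintype.piFinset fun _ : Fin s => G, (1 / 2 ^ bb h : ℝ) :=
    Finset.sum_le_sum_of_subset_of_nonneg hsub fun _ _ _ => by positivity
  have h2 : ∑ h ∈ Fintype.piFinset fun _ : Fin s => G, (1 / 2 ^ bb h : ℝ) =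
      ∏ _j : Fin s, ∑ k ∈ G, (1 / 2 ^ sz k : ℝ) := by
    rw [Finset.prod_univ_sum]
    refine Finset.sum_congr rfl fun h _ => ?_
    unfold bb
    rw [← Finset.prod_pow_eq_pow_sum, Finset.prod_div_distrib, Finset.prod_const_one]
  rw [h2] at h1
  refine h1.trans ?_
  rw [Finset.prod_const, Finset.card_univ, Fintype.card_fin]
  exact pow_le_pow_left₀ (Finset.sum_nonneg fun _ _ => by positivity) (sum_sz R G hGR) s

theorem card_ablk_le (s i : ℕ) : ((ablk s i).card : ℝ) ≤ ((2 : ℝ) ^ (i + 1)) ^ s := by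
  have h1 : (ablk s i).card ≤ (2 ^ (i + 1)) ^ s := by
    unfold ablk
    refine (Finset.card_filter_le _ _).trans (le_of_eq ?_)
    rw [Fintype.card_piFinset, Finset.prod_const, Finset.card_range, Finset.card_univ,
      Fintype.card_fin]
  exact_mod_cast h1

/-- membership in `hblk` needs no box condition -/
theorem mem_hblk (s i : ℕ) (h : Fin s → ℤ) :
    h ∈ hblk s i ↔ (∃ j, 2 ^ i ≤ sz (h j)) ∧ ∀ j, sz (h j) < 2 ^ (i + 1) := by
  unfold hblk
  rw [Finset.mem_filter, Fintype.mem_piFinset]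
  constructor
  · exact fun h => h.2
  · intro h1
    refine ⟨fun j => ?_, h1⟩
    have h2 := pc_abs_int (h j)
    have h3 : (2 : ℤ) ^ sz (h j) ≤ 2 ^ 2 ^ (i + 1) :=
      pow_le_pow_right₀ (by norm_num) (h1.2 j).le
    rw [Finset.mem_Icc]
    exact abs_le.1 (h2.le.trans h3)

theorem mem_ablk (s i : ℕ) (a : Fin s → ℕ) :
    a ∈ ablk s i ↔ (∃ j, 2 ^ i ≤ a j) ∧ ∀ j, a j < 2 ^ (i + 1) := by
  unfold ablk
  rw [Finset.mem_filter, Fintype.mem_piFinset]
  simp only [Finset.mem_range]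
  exact and_comm

theorem mem_hset (s R : ℕ) (h : Fin s → ℤ) : h ∈ hset s R ↔ h ≠ 0 ∧ bb h ≤ R := by
  unfold hset
  rw [Finset.mem_filter, Fintype.mem_piFinset]
  constructor
  · exact fun h => h.2
  · intro h1
    refine ⟨fun j => ?_, h1⟩
    have h2 := pc_abs_int (h j)
    have h4 : sz (h j) ≤ bb h := by
      unfold bb
      exact Finset.single_le_sum (f := fun j => sz (h j)) (fun _ _ => Nat.zero_le _)
        (Finset.mem_univ j)
    have h3 : (2 : ℤ) ^ sz (h j) ≤ 2 ^ R :=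
      pow_le_pow_right₀ (by norm_num) (h4.trans h1.2)
    rw [Finset.mem_Icc]
    exact abs_le.1 (h2.le.trans h3)

theorem mem_boxes (s K : ℕ) (a : Fin s → ℕ) : a ∈ boxes s K ↔ ∑ j, a j ≤ K := by
  unfold boxes
  rw [Finset.mem_filter, Fintype.mem_piFinset]
  constructor
  · exact fun h => h.2
  · intro h1
    refine ⟨fun j => ?_, h1⟩
    have h4 : a j ≤ ∑ j, a j := Finset.single_le_sum (f := fun j => a j)
      (fun _ _ => Nat.zero_le _) (Finset.mem_univ j)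
    rw [Finset.mem_range]
    omega

end Pool.Agent.Lib.H50X
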