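import Pool.Agent.Lib.H50X.BA
import Pool.Agent.Lib.H50X.PC

/-! # H50X, chunk DD: reorganising the frequency sums.

For `h ∈ ∏ kset(a_j)`: `h_j = 0` iff `a_j = 0`, and `|h_j| < 2^(a_j+1)` gives
`sz (h_j) ≤ a_j + 1`. So `bb h ≤ ∑ a + s ≤ K + s`, `h ≠ 0` (as `a ≠ 0`), and `2^(-∑ a) ≤ 2^s 2^(-bb h)`.
With `x = nn (h·α) > 0`: `min(1/x, 1/(2^(∑a) x^2)) ≤ 2^s min(1/x, 1/(2^(bb h) x^2))` and for fixed `h`
`∑_{a : h ∈ ∏ kset(a_j)} 2^(-∑ a) ≤ ∏_j (4 / 2^(sz h_j)) = 4^s 2^(-bb h)`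
(for `h_j ≠ 0`: `a_j ≥ max(1, sz h_j - 1)`, geometric series `2 · 2^(-max(1, sz-1)) ≤ 4 · 2^(-sz)`).
Finally `2^(-bb h) min(1/x, 1/(2^(bb h) x^2)) = gg (TT α h)`. Total factor `8^s`. -/

open scoped Classical

namespace Pool.Agent.Lib.H50X

theorem gg_TT {s : ℕ} (α : Fin s → ℝ) (h : Fin s → ℤ) (hx : nn (dot h α) ≠ 0) :
    gg (TT α h) = 1 / 2 ^ bb h * min (1 / nn (dot h α)) (1 / (2 ^ bb h * nn (dot h α) ^ 2)) := by
  unfold gg TT
  rw [mul_min_of_nonneg _ _ (by positivity)]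
  congr 1
  · field_simp
  · field_simp

theorem mem_kset_sz (j : ℕ) (k : ℤ) (hk : k ∈ kset j) : sz k ≤ j + 1 ∧ (k = 0 ↔ j = 0) := by
  rcases j with _ | j
  · have h1 : k = 0 := by
      unfold kset at hk
      exact Finset.mem_singleton.1 hk
    rw [h1]
    refine ⟨?_, by simp⟩
    rw [(sz_zero_iff 0).2 rfl]
    omega
  · unfold kset at hk
    rw [Finset.mem_filter, Finset.mem_Ioo] at hk
    obtain ⟨⟨h1, h2⟩, h3⟩ := hk
    refine ⟨?_, ⟨fun h => absurd h h3, fun h => absurd h (Nat.succ_ne_zero j)⟩⟩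
    unfold sz
    rw [Nat.size_le]
    have h4 : |k| < 2 ^ (j + 2) := abs_lt.2 ⟨h1, h2⟩
    have h5 : (k.natAbs : ℤ) < ((2 ^ (j + 1 + 1) : ℕ) : ℤ) := by
      rw [Int.natCast_natAbs]
      push_cast
      exact h4
    exact_mod_cast h5

theorem dd_tail (c N : ℕ) : ∑ a ∈ (Finset.range N).filter (fun a => c ≤ a), (1 / 2 : ℝ) ^ a ≤
    2 * (1 / 2) ^ c := by
  have h1 : (Finset.range N).filter (fun a => c ≤ a) = Finset.Ico c N := by
    ext a
    simp only [Finset.mem_filter, Finset.mem_range, Finset.mem_Ico]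
    exact and_comm
  rw [h1]
  rcases le_or_gt c N with h | h
  · have h2 : ∑ a ∈ Finset.Ico c N, (1 / 2 : ℝ) ^ a = 2 * (1 / 2) ^ c - 2 * (1 / 2) ^ N := by
      induction N, h using Nat.le_induction with
      | base => simp
      | succ n hn ih =>
        have h3 : (Finset.range n).filter (fun a => c ≤ a) = Finset.Ico c n := by
          ext a
          simp only [Finset.mem_filter, Finset.mem_range, Finset.mem_Ico]
          exact and_comm
        rw [Finset.sum_Ico_succ_top hn, ih h3, pow_succ]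
        ring
    rw [h2]
    have : (0 : ℝ) ≤ (1 / 2) ^ N := by positivity
    linarith
  · rw [Finset.Ico_eq_empty (by omega), Finset.sum_empty]
    positivity

theorem dd_one (K : ℕ) (k : ℤ) :
    ∑ a ∈ (Finset.range (K + 1)).filter (fun a => k ∈ kset a), (1 / 2 : ℝ) ^ a ≤
      4 * (1 / 2) ^ sz k := by
  have h1 : (Finset.range (K + 1)).filter (fun a => k ∈ kset a) ⊆
      (Finset.range (K + 1)).filter (fun a => sz k - 1 ≤ a) := by
    intro a ha
    rw [Finset.mem_filter] at ha ⊢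
    have := (mem_kset_sz a k ha.2).1
    exact ⟨ha.1, by omega⟩
  have h2 := Finset.sum_le_sum_of_subset_of_nonneg (f := fun a => (1 / 2 : ℝ) ^ a) h1
    (fun _ _ _ => by positivity)
  refine h2.trans ((dd_tail _ _).trans ?_)
  rcases Nat.eq_zero_or_pos (sz k) with h | h
  · rw [h]
    norm_num
  · obtain ⟨m, hm⟩ := Nat.exists_eq_succ_of_ne_zero h.ne'
    rw [hm]
    have e : m.succ - 1 = m := rfl
    rw [e, Nat.succ_eq_add_one, pow_succ]
    linarith

theorem dd_all (s K : ℕ) (h : Fin s → ℤ) :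
    ∑ a ∈ (boxes s K).filter (fun a => ∀ j, h j ∈ kset (a j)), (1 / 2 : ℝ) ^ (∑ j, a j) ≤
      4 ^ s * (1 / 2) ^ bb h := by
  have h1 : (boxes s K).filter (fun a => ∀ j, h j ∈ kset (a j)) ⊆
      Fintype.piFinset fun j => (Finset.range (K + 1)).filter (fun a => h j ∈ kset a) := by
    intro a ha
    rw [Finset.mem_filter] at ha
    rw [Fintype.mem_piFinset]
    intro j
    rw [Finset.mem_filter]
    refine ⟨?_, ha.2 j⟩
    have h2 := ha.1
    unfold boxes at h2
    rw [Finset.mem_filter, Fintype.mem_piFinset] at h2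
    exact h2.1 j
  refine (Finset.sum_le_sum_of_subset_of_nonneg h1 (fun _ _ _ => by positivity)).trans ?_
  have h2 : ∑ a ∈ Fintype.piFinset fun j => (Finset.range (K + 1)).filter (fun a => h j ∈ kset a),
      (1 / 2 : ℝ) ^ (∑ j, a j) =
      ∏ j, ∑ a ∈ (Finset.range (K + 1)).filter (fun a => h j ∈ kset a), (1 / 2 : ℝ) ^ a := by
    rw [Finset.prod_univ_sum]
    exact Finset.sum_congr rfl fun a _ => (Finset.prod_pow_eq_pow_sum _ _ _).symm
  rw [h2]
  refine (Finset.prod_le_prod (fun j _ => Finset.sum_nonneg fun _ _ => by positivity)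
    (fun j _ => dd_one K (h j))).trans (le_of_eq ?_)
  rw [Finset.prod_mul_distrib, Finset.prod_const, Finset.card_univ, Fintype.card_fin,
    Finset.prod_pow_eq_pow_sum]
  rfl

theorem sum_boxes_le (s K : ℕ) (α : Fin s → ℝ)
    (hα : ∀ h : Fin s → ℤ, h ≠ 0 → nn (dot h α) ≠ 0) :
    ∑ a ∈ (boxes s K).filter (fun a => a ≠ 0), (1 / 2 ^ (∑ j, a j) : ℝ) *
        ∑ h ∈ Fintype.piFinset fun j => kset (a j),
            min (1 / nn (dot h α)) (1 / (2 ^ (∑ j, a j) * nn (dot h α) ^ 2))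
      ≤ 8 ^ s * ∑ h ∈ hset s (K + s), gg (TT α h) := by
  have hnn : ∀ x, 0 ≤ nn x := fun x => abs_nonneg _
  -- the terms
  set mm : (Fin s → ℤ) → ℝ := fun h =>
    min (1 / nn (dot h α)) (1 / (2 ^ bb h * nn (dot h α) ^ 2)) with hmm
  have hmm0 : ∀ h, 0 ≤ mm h := fun h => le_min (by have := hnn (dot h α); positivity)
    (by positivity)
  have key : ∀ a ∈ (boxes s K).filter (fun a => a ≠ 0), (1 / 2 ^ (∑ j, a j) : ℝ) *
        ∑ h ∈ Fintype.piFinset fun j => kset (a j),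
            min (1 / nn (dot h α)) (1 / (2 ^ (∑ j, a j) * nn (dot h α) ^ 2)) ≤
      ∑ h ∈ hset s (K + s), (if ∀ j, h j ∈ kset (a j) then
        (1 / 2 : ℝ) ^ (∑ j, a j) * (2 ^ s * mm h) else 0) := by
    intro a ha
    rw [Finset.mem_filter, mem_boxes] at ha
    obtain ⟨haK, ha0⟩ := ha
    rw [← Finset.sum_filter, Finset.mul_sum]
    have hbb : ∀ h : Fin s → ℤ, (∀ j, h j ∈ kset (a j)) → bb h ≤ ∑ j, a j + s := by
      intro h hh
      unfold bb
      have h1 : ∑ j, sz (h j) ≤ ∑ j, (a j + 1) :=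
        Finset.sum_le_sum fun j _ => (mem_kset_sz _ _ (hh j)).1
      rw [Finset.sum_add_distrib] at h1
      simpa using h1
    have hsub : (Fintype.piFinset fun j => kset (a j)) ⊆
        (hset s (K + s)).filter (fun h => ∀ j, h j ∈ kset (a j)) := by
      intro h hh
      rw [Fintype.mem_piFinset] at hh
      rw [Finset.mem_filter, mem_hset]
      refine ⟨⟨?_, ?_⟩, hh⟩
      · intro h0
        apply ha0
        funext j
        have := (mem_kset_sz _ _ (hh j)).2
        exact this.1 (by rw [h0]; rfl)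
      · have := hbb h hh
        omega
    have hterm : ∀ h ∈ Fintype.piFinset fun j => kset (a j), (1 / 2 ^ (∑ j, a j) : ℝ) *
            min (1 / nn (dot h α)) (1 / (2 ^ (∑ j, a j) * nn (dot h α) ^ 2)) ≤
        (1 / 2 : ℝ) ^ (∑ j, a j) * (2 ^ s * mm h) := by
      intro h hh
      rw [Fintype.mem_piFinset] at hh
      have h0 : h ≠ 0 := by
        intro h0
        apply ha0
        funext j
        exact (mem_kset_sz _ _ (hh j)).2.1 (by rw [h0]; rfl)
      have hx : 0 < nn (dot h α) := lt_of_le_of_ne (hnn _) (Ne.symm (hα h h0))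
      have e1 : (1 / 2 ^ (∑ j, a j) : ℝ) = (1 / 2 : ℝ) ^ (∑ j, a j) := by
        rw [div_pow, one_pow]
      rw [e1]
      apply mul_le_mul_of_nonneg_left _ (by positivity)
      rw [hmm, mul_min_of_nonneg _ _ (by positivity)]
      have h2s : (1 : ℝ) ≤ 2 ^ s := one_le_pow₀ (by norm_num)
      apply min_le_min
      · have h3 : 0 ≤ 1 / nn (dot h α) := by positivity
        nlinarith
      · have h4 : (2 : ℝ) ^ bb h ≤ 2 ^ (∑ j, a j) * 2 ^ s := by
          rw [← pow_add]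
          exact pow_le_pow_right₀ (by norm_num) (hbb h hh)
        rw [mul_one_div, div_le_div_iff₀ (by positivity) (by positivity), one_mul]
        calc (2 : ℝ) ^ bb h * nn (dot h α) ^ 2 ≤ (2 ^ (∑ j, a j) * 2 ^ s) * nn (dot h α) ^ 2 :=
              mul_le_mul_of_nonneg_right h4 (by positivity)
          _ = _ := by ring
    refine (Finset.sum_le_sum hterm).trans ?_
    exact Finset.sum_le_sum_of_subset_of_nonneg hsub fun h _ _ => by
      have := hmm0 h
      positivity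
  refine (Finset.sum_le_sum key).trans ?_
  rw [Finset.sum_comm, Finset.mul_sum]
  refine Finset.sum_le_sum fun h hh => ?_
  rw [mem_hset] at hh
  rw [← Finset.sum_filter, ← Finset.sum_mul, Finset.filter_filter]
  have h1 : ∑ a ∈ (boxes s K).filter (fun a => a ≠ 0 ∧ ∀ j, h j ∈ kset (a j)),
      (1 / 2 : ℝ) ^ (∑ j, a j) ≤ 4 ^ s * (1 / 2) ^ bb h := by
    refine le_trans (Finset.sum_le_sum_of_subset_of_nonneg ?_ fun _ _ _ => by positivity)
      (dd_all s K h)
    intro a ha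
    rw [Finset.mem_filter] at ha ⊢
    exact ⟨ha.1, ha.2.2⟩
  have h2 := mul_le_mul_of_nonneg_right h1 (mul_nonneg (by positivity : (0 : ℝ) ≤ 2 ^ s) (hmm0 h))
  refine h2.trans (le_of_eq ?_)
  rw [gg_TT α h (hα h hh.1)]
  have e1 : (1 / 2 ^ bb h : ℝ) = (1 / 2 : ℝ) ^ bb h := by
    rw [div_pow, one_pow]
  have e2 : (8 : ℝ) ^ s = 4 ^ s * 2 ^ s := by
    rw [← mul_pow]
    norm_num
  rw [e1, e2, hmm]
  ring

end Pool.Agent.Lib.H50X
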