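import Pool.Agent.Lib.H50X.DB
import Pool.Agent.Lib.H50X.DC
import Pool.Agent.Lib.H50X.DD

/-! # H50X, chunk DE: the deterministic inequality.

`tele` at each `n` with `ψ_i(j) = psi (a' i) (b' i) j (n α_i)`, `E_i(j) = Env (a' i) (b' i) j (n α_i)`,
`χ_i = chi (a' i) (b' i) (n α_i)`, `c = 5` (`sum_psi`, `AA_sub_chi_le_env`, `abs_psi_le`). Sum over `n < N`,
`N < 2^(K+1)`: the right side is `≤ s 5^s ∑_{a ∈ top} ∑_{n < 2·2^K} ∏ Env ≤ s 5^s ∑_{a ∈ top} 2 · 8^s QQ 1 α a (2^K)`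
(`sum_env_le` on `[0,2^K)` and `[2^K, 2·2^K)`; enlarge the range: `Env ≥ 0`), and `top ⊂ boxes`, `∑ a = K`.
The term `a = 0` of `∑_a ∑_n ∏ psi` is `N ∏ (b'-a')` (`AA_one`); the others by `main_le` and `sum_boxes_le`.
Constants: `2 s 40^s + 2 · 40^s` for the `QQ` sum and `6^s 8^s = 48^s` for the frequency sum. -/

open scoped Classical

namespace Pool.Agent.Lib.H50X

theorem de_gg {s : ℕ} (α : Fin s → ℝ) (h : Fin s → ℤ) : 0 ≤ gg (TT α h) := by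
  have h1 : 0 ≤ TT α h := by
    unfold TT nn
    positivity
  unfold gg
  exact le_min h1 (sq_nonneg _)

theorem de_env {s : ℕ} (K N : ℕ) (hN : N < 2 ^ (K + 1)) (α a' b' : Fin s → ℝ) (a : Fin s → ℕ) :
    ∑ n ∈ Finset.range N, ∏ j, Env (a' j) (b' j) (a j) ((n : ℝ) * α j) ≤ 2 * 8 ^ s * QQ 1 α a (2 ^ K) := by
  have h0 : ∀ n : ℕ, 0 ≤ ∏ j, Env (a' j) (b' j) (a j) ((n : ℝ) * α j) :=
    fun n => Finset.prod_nonneg fun j _ => Env_nonneg _ _ _ _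
  have h1 : Finset.range N ⊆ Finset.Ico (0 : ℕ) (0 + 2 ^ K) ∪ Finset.Ico (2 ^ K) (2 ^ K + 2 ^ K) := by
    intro n hn
    rw [Finset.mem_range] at hn
    rw [pow_succ] at hN
    rw [Finset.mem_union, Finset.mem_Ico, Finset.mem_Ico]
    omega
  calc ∑ n ∈ Finset.range N, ∏ j, Env (a' j) (b' j) (a j) ((n : ℝ) * α j)
      ≤ ∑ n ∈ Finset.Ico (0 : ℕ) (0 + 2 ^ K) ∪ Finset.Ico (2 ^ K) (2 ^ K + 2 ^ K),
          ∏ j, Env (a' j) (b' j) (a j) ((n : ℝ) * α j) :=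
        Finset.sum_le_sum_of_subset_of_nonneg h1 fun n _ _ => h0 n
    _ ≤ ∑ n ∈ Finset.Ico (0 : ℕ) (0 + 2 ^ K), ∏ j, Env (a' j) (b' j) (a j) ((n : ℝ) * α j) +
        ∑ n ∈ Finset.Ico (2 ^ K : ℕ) (2 ^ K + 2 ^ K), ∏ j, Env (a' j) (b' j) (a j) ((n : ℝ) * α j) := by
        rw [← Finset.sum_union_inter]
        have h2 : 0 ≤ ∑ n ∈ Finset.Ico (0 : ℕ) (0 + 2 ^ K) ∩ Finset.Ico (2 ^ K) (2 ^ K + 2 ^ K),
            ∏ j, Env (a' j) (b' j) (a j) ((n : ℝ) * α j) := Finset.sum_nonneg fun n _ => h0 n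
        linarith
    _ ≤ 8 ^ s * QQ 1 α a (2 ^ K) + 8 ^ s * QQ 1 α a (2 ^ K) :=
        add_le_add (sum_env_le α a' b' a _ _) (sum_env_le α a' b' a _ _)
    _ = 2 * 8 ^ s * QQ 1 α a (2 ^ K) := by ring

theorem de_tele (s K : ℕ) (α a' b' : Fin s → ℝ)
    (ha : ∀ j, 0 ≤ a' j) (hab : ∀ j, a' j ≤ b' j) (hb : ∀ j, b' j ≤ 1) (n : ℕ) :
    |∏ j, chi (a' j) (b' j) ((n : ℝ) * α j) - ∑ a ∈ boxes s K, ∏ j, psi (a' j) (b' j) (a j) ((n : ℝ) * α j)|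
      ≤ s * 5 ^ s * ∑ a ∈ top s K, ∏ j, Env (a' j) (b' j) (a j) ((n : ℝ) * α j) := by
  refine tele s K (fun j k => psi (a' j) (b' j) k ((n : ℝ) * α j)) (fun j k => Env (a' j) (b' j) k ((n : ℝ) * α j))
    (fun j => chi (a' j) (b' j) ((n : ℝ) * α j)) 5 (by norm_num) ?_ ?_ ?_ ?_ ?_
  · exact fun j => one_le_Env_zero _ _ _
  · exact fun j k => Env_nonneg _ _ _ _
  · intro j
    unfold chi
    split_ifs <;> simp
  · exact fun j k => abs_psi_le _ _ (ha j) (hab j) (hb j) _ _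
  · intro j k
    change |chi (a' j) (b' j) ((n : ℝ) * α j) - ∑ i ∈ Finset.range (k + 1), psi (a' j) (b' j) i ((n : ℝ) * α j)| ≤
      5 * Env (a' j) (b' j) k ((n : ℝ) * α j)
    rw [sum_psi]
    have h1 := AA_sub_chi_le_env (a' j) (b' j) (ha j) (hab j) (hb j) k ((n : ℝ) * α j)
    have h2 := Env_nonneg (a' j) (b' j) k ((n : ℝ) * α j)
    linarith

theorem det (s K N : ℕ) (hN : N < 2 ^ (K + 1)) (α a' b' : Fin s → ℝ)
    (ha : ∀ j, 0 ≤ a' j) (hab : ∀ j, a' j ≤ b' j) (hb : ∀ j, b' j ≤ 1)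
    (hα : ∀ h : Fin s → ℤ, h ≠ 0 → nn (dot h α) ≠ 0) :
    |∑ n ∈ Finset.range N, ∏ j, chi (a' j) (b' j) ((n : ℝ) * α j) - N * ∏ j, (b' j - a' j)|
      ≤ (2 * s + 2) * 48 ^ s * (∑ a ∈ boxes s K, (QQ 1 α a (2 ^ ∑ j, a j) : ℝ)
          + ∑ h ∈ hset s (K + s), gg (TT α h)) := by
  have hQ0 : ∀ a : Fin s → ℕ, (0 : ℝ) ≤ (QQ 1 α a (2 ^ ∑ j, a j) : ℝ) := fun a => Nat.cast_nonneg _
  obtain ⟨SQ, hSQ⟩ : ∃ x : ℝ, x = ∑ a ∈ boxes s K, (QQ 1 α a (2 ^ ∑ j, a j) : ℝ) := ⟨_, rfl⟩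
  obtain ⟨SG, hSG⟩ : ∃ x : ℝ, x = ∑ h ∈ hset s (K + s), gg (TT α h) := ⟨_, rfl⟩
  have hSQ0 : 0 ≤ SQ := by rw [hSQ]; exact Finset.sum_nonneg fun a _ => hQ0 a
  have hSG0 : 0 ≤ SG := by rw [hSG]; exact Finset.sum_nonneg fun h _ => de_gg α h
  rw [← hSQ, ← hSG]
  -- first part
  have hA : |∑ n ∈ Finset.range N, ∏ j, chi (a' j) (b' j) ((n : ℝ) * α j) -
      ∑ a ∈ boxes s K, ∑ n ∈ Finset.range N, ∏ j, psi (a' j) (b' j) (a j) ((n : ℝ) * α j)| ≤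
      2 * s * 40 ^ s * SQ := by
    rw [Finset.sum_comm, ← Finset.sum_sub_distrib]
    refine (Finset.abs_sum_le_sum_abs _ _).trans ?_
    refine (Finset.sum_le_sum fun n _ => de_tele s K α a' b' ha hab hb n).trans ?_
    rw [← Finset.mul_sum, Finset.sum_comm]
    have h1 : ∑ a ∈ top s K, ∑ n ∈ Finset.range N, ∏ j, Env (a' j) (b' j) (a j) ((n : ℝ) * α j) ≤
        2 * 8 ^ s * SQ := by
      rw [hSQ, Finset.mul_sum]
      refine (Finset.sum_le_sum (g := fun a => 2 * 8 ^ s * (QQ 1 α a (2 ^ ∑ j, a j) : ℝ)) fun a haa => ?_).trans ?_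
      · rw [db_mem_top] at haa
        rw [haa]
        exact de_env K N hN α a' b' a
      · apply Finset.sum_le_sum_of_subset_of_nonneg
        · intro a haa
          rw [db_mem_top] at haa
          rw [db_mem_boxes]
          exact haa.le
        · intro a _ _
          exact mul_nonneg (by positivity) (hQ0 a)
    calc (s : ℝ) * 5 ^ s * ∑ a ∈ top s K, ∑ n ∈ Finset.range N, ∏ j, Env (a' j) (b' j) (a j) ((n : ℝ) * α j)
        ≤ s * 5 ^ s * (2 * 8 ^ s * SQ) := mul_le_mul_of_nonneg_left h1 (by positivity)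
      _ = 2 * s * 40 ^ s * SQ := by
          rw [show (40 : ℝ) = 5 * 8 by norm_num, mul_pow]
          ring
  -- second part
  have hz : (0 : Fin s → ℕ) ∈ boxes s K := by
    rw [db_mem_boxes]
    simp
  have hB0 : ∑ n ∈ Finset.range N, ∏ j, psi (a' j) (b' j) ((0 : Fin s → ℕ) j) ((n : ℝ) * α j) =
      N * ∏ j, (b' j - a' j) := by
    have h1 : ∀ n : ℕ, ∏ j, psi (a' j) (b' j) ((0 : Fin s → ℕ) j) ((n : ℝ) * α j) = ∏ j, (b' j - a' j) := by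
      intro n
      refine Finset.prod_congr rfl fun j _ => ?_
      change AA 1 (a' j) (b' j) _ = _
      rw [AA_one]
    rw [Finset.sum_congr rfl fun n _ => h1 n, Finset.sum_const, Finset.card_range, nsmul_eq_mul]
  have hsp : ∑ a ∈ boxes s K, ∑ n ∈ Finset.range N, ∏ j, psi (a' j) (b' j) (a j) ((n : ℝ) * α j) =
      N * ∏ j, (b' j - a' j) + ∑ a ∈ (boxes s K).filter (fun a => a ≠ 0),
        ∑ n ∈ Finset.range N, ∏ j, psi (a' j) (b' j) (a j) ((n : ℝ) * α j) := by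
    rw [← hB0, ← Finset.sum_filter_add_sum_filter_not (boxes s K) (fun a => a = 0)]
    congr 1
    rw [Finset.filter_eq' (boxes s K) (0 : Fin s → ℕ), if_pos hz, Finset.sum_singleton]
  have hB : |∑ a ∈ (boxes s K).filter (fun a => a ≠ 0),
        ∑ n ∈ Finset.range N, ∏ j, psi (a' j) (b' j) (a j) ((n : ℝ) * α j)| ≤ 2 * 40 ^ s * SQ + 48 ^ s * SG := by
    refine (Finset.abs_sum_le_sum_abs _ _).trans ?_
    refine (Finset.sum_le_sum fun a haa => main_le α a' b' ha hab hb a (Finset.mem_filter.1 haa).2 N hα).trans ?_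
    rw [Finset.sum_add_distrib]
    have h1 : ∑ a ∈ (boxes s K).filter (fun a => a ≠ 0), 2 * 40 ^ s * (QQ 1 α a (2 ^ ∑ j, a j) : ℝ) ≤
        2 * 40 ^ s * SQ := by
      rw [hSQ, Finset.mul_sum]
      apply Finset.sum_le_sum_of_subset_of_nonneg (Finset.filter_subset _ _)
      intro a _ _
      exact mul_nonneg (by positivity) (hQ0 a)
    have h2 : ∑ a ∈ (boxes s K).filter (fun a => a ≠ 0), (6 : ℝ) ^ s / 2 ^ (∑ j, a j) *
        ∑ h ∈ Fintype.piFinset fun j => kset (a j),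
            min (1 / nn (dot h α)) (1 / (2 ^ (∑ j, a j) * nn (dot h α) ^ 2)) ≤ 48 ^ s * SG := by
      have h3 := sum_boxes_le s K α hα
      rw [← hSG] at h3
      calc ∑ a ∈ (boxes s K).filter (fun a => a ≠ 0), (6 : ℝ) ^ s / 2 ^ (∑ j, a j) *
            ∑ h ∈ Fintype.piFinset fun j => kset (a j),
              min (1 / nn (dot h α)) (1 / (2 ^ (∑ j, a j) * nn (dot h α) ^ 2))
          = 6 ^ s * ∑ a ∈ (boxes s K).filter (fun a => a ≠ 0), (1 / 2 ^ (∑ j, a j) : ℝ) *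
            ∑ h ∈ Fintype.piFinset fun j => kset (a j),
              min (1 / nn (dot h α)) (1 / (2 ^ (∑ j, a j) * nn (dot h α) ^ 2)) := by
            rw [Finset.mul_sum]
            refine Finset.sum_congr rfl fun a _ => ?_
            rw [← mul_assoc, mul_one_div]
        _ ≤ 6 ^ s * (8 ^ s * SG) := mul_le_mul_of_nonneg_left h3 (by positivity)
        _ = 48 ^ s * SG := by
            rw [show (48 : ℝ) = 6 * 8 by norm_num, mul_pow]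
            ring
    linarith
  rw [hsp] at hA
  have h40 : (40 : ℝ) ^ s ≤ 48 ^ s := pow_le_pow_left₀ (by norm_num) (by norm_num) s
  have hfin : |∑ n ∈ Finset.range N, ∏ j, chi (a' j) (b' j) ((n : ℝ) * α j) - N * ∏ j, (b' j - a' j)| ≤
      2 * s * 40 ^ s * SQ + (2 * 40 ^ s * SQ + 48 ^ s * SG) := by
    rw [abs_le] at hA hB ⊢
    constructor <;> linarith [hA.1, hA.2, hB.1, hB.2]
  refine hfin.trans ?_
  have h5 : (40 : ℝ) ^ s * SQ ≤ 48 ^ s * SQ := mul_le_mul_of_nonneg_right h40 hSQ0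
  have h6 : 0 ≤ (48 : ℝ) ^ s * SG := mul_nonneg (by positivity) hSG0
  have hs0 : (0 : ℝ) ≤ s := Nat.cast_nonneg s
  have h7 : 2 * (s : ℝ) * 40 ^ s * SQ ≤ 2 * s * (48 ^ s * SQ) := by
    have := mul_le_mul_of_nonneg_left h5 (by positivity : (0 : ℝ) ≤ 2 * s)
    linarith
  have h8 : 48 ^ s * SG ≤ (2 * (s : ℝ) + 2) * (48 ^ s * SG) := by nlinarith
  calc 2 * (s : ℝ) * 40 ^ s * SQ + (2 * 40 ^ s * SQ + 48 ^ s * SG)
      ≤ 2 * s * (48 ^ s * SQ) + (2 * (48 ^ s * SQ) + (2 * s + 2) * (48 ^ s * SG)) := by linarith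
    _ = _ := by ring

end Pool.Agent.Lib.H50X
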