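import Mathlib

/-! # H50X: Kronecker sequences with N D_N <= C (log N)^s loglog N (MP_0f5419)

Definitions. See PROOF.md in this folder. -/

open scoped Classical

namespace Pool.Agent.Lib.H50X

open Finset

/-- distance of a real number to the nearest integer -/
noncomputable def nn (x : ℝ) : ℝ := |x - round x|

/-- `ee x = exp (2 π i x)` -/
noncomputable def ee (x : ℝ) : ℂ := Complex.exp (2 * Real.pi * Complex.I * x)

/-- dyadic size of an integer: `sz 0 = 0` and `sz h = k + 1` for `2^k ≤ |h| < 2^(k+1)` -/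
def sz (h : ℤ) : ℕ := Nat.size h.natAbs

/-- sum of the sizes of the coordinates -/
def bb {s : ℕ} (h : Fin s → ℤ) : ℕ := ∑ j, sz (h j)

/-- the linear form `h · α` -/
noncomputable def dot {s : ℕ} (h : Fin s → ℤ) (α : Fin s → ℝ) : ℝ := ∑ j, (h j : ℝ) * α j

/-- `gg T = min(T, T^2)` -/
noncomputable def gg (T : ℝ) : ℝ := min T (T ^ 2)

/-- `TT α h = 1 / (2^(bb h) ‖h·α‖)` -/
noncomputable def TT {s : ℕ} (α : Fin s → ℝ) (h : Fin s → ℤ) : ℝ :=
  1 / (2 ^ bb h * nn (dot h α))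

/-- `QQ w α a L`: number of integers `m`, `|m| < L`, with `‖m α_j‖ 2^(a_j) < w` for all `j` -/
noncomputable def QQ {s : ℕ} (w : ℝ) (α : Fin s → ℝ) (a : Fin s → ℕ) (L : ℕ) : ℕ :=
  ((Finset.Ioo (-(L : ℤ)) (L : ℤ)).filter fun m : ℤ => ∀ j, nn ((m : ℝ) * α j) * 2 ^ a j < w).card

/-- exponent vectors with sum at most `K` -/
noncomputable def boxes (s K : ℕ) : Finset (Fin s → ℕ) :=
  (Fintype.piFinset fun _ : Fin s => Finset.range (K + 1)).filter fun a => ∑ j, a j ≤ K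

/-- exponent vectors with sum `K` -/
noncomputable def top (s K : ℕ) : Finset (Fin s → ℕ) :=
  (Fintype.piFinset fun _ : Fin s => Finset.range (K + 1)).filter fun a => ∑ j, a j = K

/-- nonzero frequency vectors with total size at most `R` -/
noncomputable def hset (s R : ℕ) : Finset (Fin s → ℤ) :=
  (Fintype.piFinset fun _ : Fin s => Finset.Icc (-(2 ^ R : ℤ)) (2 ^ R)).filter
    fun h => h ≠ 0 ∧ bb h ≤ R

/-! ## The kernel -/

/-- triangle weights `1, 2, ..., M, ..., 2, 1` (for `n = 0, ..., 2M-2`) -/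
noncomputable def rr (M n : ℕ) : ℝ := min ((n : ℝ) + 1) (2 * M - 1 - n)

noncomputable def nu0 (M : ℕ) : ℝ := ∑ n ∈ Finset.range (2 * M - 1), rr M n ^ 2

/-- autocorrelation of the triangle weights -/
noncomputable def nuk (M : ℕ) (k : ℤ) : ℝ :=
  ∑ n ∈ Finset.range (2 * M - 1), ∑ m ∈ Finset.range (2 * M - 1),
    if (n : ℤ) - (m : ℤ) = k then rr M n * rr M m else 0

/-- the Jackson kernel -/
noncomputable def JJ (M : ℕ) (x : ℝ) : ℝ :=
  ‖∑ n ∈ Finset.range (2 * M - 1), (rr M n : ℂ) * ee (n * x)‖ ^ 2 / nu0 M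

/-- the smoothed indicator of `[a, b)` -/
noncomputable def AA (M : ℕ) (a b x : ℝ) : ℝ := ∫ y in a..b, JJ M (x - y)

/-- Fourier coefficient of the indicator of `[a, b)` -/
noncomputable def chat (a b : ℝ) (k : ℤ) : ℂ := ∫ y in a..b, ee (-(k * y))

noncomputable def cc (M : ℕ) (a b : ℝ) (k : ℤ) : ℂ := ((nuk M k / nu0 M : ℝ) : ℂ) * chat a b k

/-- dyadic pieces of the indicator of `[a, b)` -/
noncomputable def psi (a b : ℝ) : ℕ → ℝ → ℝ
  | 0, x => AA 1 a b x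
  | j + 1, x => AA (2 ^ (j + 1)) a b x - AA (2 ^ j) a b x

/-- their Fourier coefficients -/
noncomputable def cpsi (a b : ℝ) : ℕ → ℤ → ℂ
  | 0, k => cc 1 a b k
  | j + 1, k => cc (2 ^ (j + 1)) a b k - cc (2 ^ j) a b k

/-- the frequencies that occur in `psi a b j` -/
noncomputable def kset : ℕ → Finset ℤ
  | 0 => {0}
  | j + 1 => (Finset.Ioo (-(2 ^ (j + 2) : ℤ)) (2 ^ (j + 2))).filter fun k => k ≠ 0

/-- the envelope at the end point `e` -/
noncomputable def env (e : ℝ) (j : ℕ) (x : ℝ) : ℝ :=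
  ∑ u ∈ Finset.range (j + 1), (1 / 4 : ℝ) ^ u * (if nn (x - e) * 2 ^ j < 2 ^ u then 1 else 0)

noncomputable def Env (a b : ℝ) (j : ℕ) (x : ℝ) : ℝ := env a j x + env b j x

/-- periodic indicator of `[a, b)` -/
noncomputable def chi (a b x : ℝ) : ℝ := if a ≤ Int.fract x ∧ Int.fract x < b then 1 else 0

/-! ## Dyadic grids and blocks -/

/-- the grid points of the dyadic cube `u`, `d` levels deeper -/
noncomputable def fib {s : ℕ} (d : ℕ) (u : Fin s → ℕ) : Finset (Fin s → ℕ) :=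
  Fintype.piFinset fun j => Finset.Ico (u j * 2 ^ d) ((u j + 1) * 2 ^ d)

/-- the real point of the grid point `x` at level `ρ` -/
noncomputable def pt {s : ℕ} (ρ : ℕ) (x : Fin s → ℕ) : Fin s → ℝ := fun j => (x j : ℝ) / 2 ^ ρ

/-- frequency block `i`: maximal size in `[2^i, 2^(i+1))` -/
noncomputable def hblk (s i : ℕ) : Finset (Fin s → ℤ) :=
  (Fintype.piFinset fun _ : Fin s => Finset.Icc (-(2 ^ 2 ^ (i + 1) : ℤ)) (2 ^ 2 ^ (i + 1))).filter
    fun h => (∃ j, 2 ^ i ≤ sz (h j)) ∧ ∀ j, sz (h j) < 2 ^ (i + 1)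

/-- exponent block `i`: maximal exponent in `[2^i, 2^(i+1))` -/
noncomputable def ablk (s i : ℕ) : Finset (Fin s → ℕ) :=
  (Fintype.piFinset fun _ : Fin s => Finset.range (2 ^ (i + 1))).filter fun a => ∃ j, 2 ^ i ≤ a j

/-- excluded radius for the frequency `h` in block `i` -/
noncomputable def xz (κ : ℝ) (s i : ℕ) (h : Fin s → ℤ) : ℝ := κ / (2 ^ bb h * (2 ^ i) ^ s)

/-- the numerical condition linking the number `n0` of overlapping blocks and `κ` -/
def Hn (s n0 : ℕ) (κ : ℝ) : Prop :=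
  ∀ i : ℕ, (2 * (s + 1) * 2 ^ ((s + 1) * 2 ^ (i + 2)) * (2 ^ (i + 1)) ^ s : ℝ)
    ≤ κ * 2 ^ (2 ^ (i + n0))

/-- the grid point `x` of level `2^(i+n0)` is bad for block `i+1` -/
def Bad (s n0 : ℕ) (κ Λ Λ' : ℝ) (i : ℕ) (x : Fin s → ℕ) : Prop :=
  (∃ h ∈ hblk s (i + 1), nn (dot h (pt (2 ^ (i + n0)) x)) < xz κ s (i + 1) h) ∨
  (Λ * (2 ^ (i + 1)) ^ s <
    ∑ a ∈ ablk s (i + 1), (QQ 2 (pt (2 ^ (i + n0)) x) a (2 ^ ∑ j, a j) : ℝ)) ∨
  (Λ' * (2 ^ (i + 1)) ^ s * (i + 1) <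
    ∑ h ∈ hblk s (i + 1), if xz κ s (i + 1) h ≤ nn (dot h (pt (2 ^ (i + n0)) x))
      then gg (TT (pt (2 ^ (i + n0)) x) h) else 0)

end Pool.Agent.Lib.H50X
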