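import Mathlib

/-! # H50X, chunk FA: final numerical comparison (PURE).

`K = Nat.log 2 N ≥ 1` for `N ≥ 3`, `K ≤ log N/log 2 ≤ 2 log N`, `K + s ≤ (s+1) K`, `log (K+s) ≤ log(2(s+1)) + loglog N`
and `loglog N ≥ loglog 3 > 0` (`3 > e`), so all constants can be absorbed. WLOG `C ≥ 0` (replace `C` by `|C|`). -/

open scoped Classical

namespace Pool.Agent.Lib.H50X

theorem fa_log3 : 1 < Real.log 3 := by
  rw [Real.lt_log_iff_exp_lt (by norm_num)]
  have := Real.exp_one_lt_d9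
  linarith

theorem fa_logN (N : ℕ) (hN : 3 ≤ N) : Real.log 3 ≤ Real.log N := by
  apply Real.log_le_log (by norm_num)
  exact_mod_cast hN

theorem loglog_pos (N : ℕ) (hN : 3 ≤ N) : 0 < Real.log (Real.log N) := by
  apply Real.log_pos
  have h1 := fa_log3
  have h2 := fa_logN N hN
  linarith

theorem final_num (s : ℕ) (C : ℝ) : ∃ C' : ℝ, ∀ N : ℕ, 3 ≤ N →
    C * ((Nat.log 2 N : ℝ) ^ s + ((Nat.log 2 N + s : ℕ) : ℝ) ^ s
        * (1 + Real.log ((Nat.log 2 N + s : ℕ) : ℝ)))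
      ≤ C' * (Real.log N) ^ s * Real.log (Real.log N) := by
  have hL0 : 0 < Real.log (Real.log 3) := Real.log_pos fa_log3
  have hs1 : (1 : ℝ) ≤ 2 * (s + 1) := by
    have : (0 : ℝ) ≤ s := Nat.cast_nonneg s
    linarith
  have hD : 0 ≤ Real.log (2 * ((s : ℝ) + 1)) := Real.log_nonneg hs1
  refine ⟨|C| * (2 * ((s : ℝ) + 1)) ^ s * ((2 + Real.log (2 * ((s : ℝ) + 1))) / Real.log (Real.log 3) + 1), ?_⟩
  intro N hN
  have h3 := fa_log3
  have hNl := fa_logN N hN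
  have hLL : Real.log (Real.log 3) ≤ Real.log (Real.log N) := Real.log_le_log (by linarith) hNl
  have hLN : 1 < Real.log N := by linarith
  set LN := Real.log N with hLNdef
  set LL := Real.log LN with hLLdef
  have hK1 : 1 ≤ Nat.log 2 N := by
    apply Nat.log_pos (by norm_num)
    omega
  set K := Nat.log 2 N with hKdef
  have hK1' : (1 : ℝ) ≤ K := by exact_mod_cast hK1
  have hK2 : (K : ℝ) ≤ 2 * LN := by
    have h1 : (2 : ℝ) ^ K ≤ N := by exact_mod_cast Nat.pow_log_le_self 2 (by omega : N ≠ 0)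
    have h2 : (K : ℝ) * Real.log 2 ≤ LN := by
      rw [← Real.log_pow]
      exact Real.log_le_log (by positivity) h1
    have h4 := Real.log_two_gt_d9
    have h5 : (K : ℝ) * (1 / 2) ≤ K * Real.log 2 := mul_le_mul_of_nonneg_left (by linarith) (by linarith)
    linarith
  have hKs : ((K + s : ℕ) : ℝ) ≤ 2 * (s + 1) * LN := by
    push_cast
    have h1 : (K : ℝ) + s ≤ (s + 1) * K := by
      have : (0 : ℝ) ≤ s := Nat.cast_nonneg s
      nlinarith
    have h2 : ((s : ℝ) + 1) * K ≤ (s + 1) * (2 * LN) := mul_le_mul_of_nonneg_left hK2 (by positivity)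
    linarith
  have hKs1 : (1 : ℝ) ≤ ((K + s : ℕ) : ℝ) := by
    push_cast
    have : (0 : ℝ) ≤ s := Nat.cast_nonneg s
    linarith
  have hlog : Real.log ((K + s : ℕ) : ℝ) ≤ Real.log (2 * ((s : ℝ) + 1)) + LL := by
    rw [hLLdef, ← Real.log_mul (by linarith) (by linarith)]
    exact Real.log_le_log (by linarith) hKs
  have hlog0 : 0 ≤ Real.log ((K + s : ℕ) : ℝ) := Real.log_nonneg hKs1
  have hp1 : (K : ℝ) ^ s ≤ (2 * ((s : ℝ) + 1)) ^ s * LN ^ s := by
    rw [← mul_pow]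
    apply pow_le_pow_left₀ (by linarith)
    have : (0 : ℝ) ≤ s := Nat.cast_nonneg s
    nlinarith
  have hp2 : ((K + s : ℕ) : ℝ) ^ s ≤ (2 * ((s : ℝ) + 1)) ^ s * LN ^ s := by
    rw [← mul_pow]
    exact pow_le_pow_left₀ (by linarith) hKs s
  set P := (2 * ((s : ℝ) + 1)) ^ s with hP
  have hP0 : 0 ≤ P * LN ^ s := by positivity
  have hsum : (K : ℝ) ^ s + ((K + s : ℕ) : ℝ) ^ s * (1 + Real.log ((K + s : ℕ) : ℝ)) ≤
      P * LN ^ s * (2 + Real.log (2 * ((s : ℝ) + 1)) + LL) := by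
    have h1 : ((K + s : ℕ) : ℝ) ^ s * (1 + Real.log ((K + s : ℕ) : ℝ)) ≤
        P * LN ^ s * (1 + (Real.log (2 * ((s : ℝ) + 1)) + LL)) :=
      mul_le_mul hp2 (by linarith) (by linarith) hP0
    nlinarith
  have hfin : 2 + Real.log (2 * ((s : ℝ) + 1)) + LL ≤
      ((2 + Real.log (2 * ((s : ℝ) + 1))) / Real.log (Real.log 3) + 1) * LL := by
    have h1 : 2 + Real.log (2 * ((s : ℝ) + 1)) ≤ (2 + Real.log (2 * ((s : ℝ) + 1))) / Real.log (Real.log 3) * LL := by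
      rw [div_mul_eq_mul_div, le_div_iff₀ hL0]
      exact mul_le_mul_of_nonneg_left hLL (by linarith)
    linarith
  have hsum0 : 0 ≤ (K : ℝ) ^ s + ((K + s : ℕ) : ℝ) ^ s * (1 + Real.log ((K + s : ℕ) : ℝ)) := by
    positivity
  calc C * ((K : ℝ) ^ s + ((K + s : ℕ) : ℝ) ^ s * (1 + Real.log ((K + s : ℕ) : ℝ)))
      ≤ |C| * ((K : ℝ) ^ s + ((K + s : ℕ) : ℝ) ^ s * (1 + Real.log ((K + s : ℕ) : ℝ))) :=
        mul_le_mul_of_nonneg_right (le_abs_self C) hsum0
    _ ≤ |C| * (P * LN ^ s * (((2 + Real.log (2 * ((s : ℝ) + 1))) / Real.log (Real.log 3) + 1) * LL)) := by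
        apply mul_le_mul_of_nonneg_left _ (abs_nonneg C)
        exact hsum.trans (mul_le_mul_of_nonneg_left hfin hP0)
    _ = _ := by ring

end Pool.Agent.Lib.H50X
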