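import Pool.Agent.Lib.H50X.PA

/-! # H50X, chunk PB: linear forms on a dyadic cube.

`card_fib` is `Fintype.card_piFinset`. `count_dot`: fix all coordinates except `j0` and apply `count_one` with
`h = h j0`, `c = ∑_{j ≠ j0} h_j x_j/2^ρ`: the number of `x_(j0)` is
`≤ 3·2^d·1·(2y + |h_(j0)|/2^ρ) ≤ 3·2^d·3y` (`max = 1` because `2^ρ ≤ 2^d |h_(j0)|`). Sum over the other
coordinates (`(2^d)^(s-1)` choices). (For instance with `Fin.insertNthEquiv` / `Fin.succAbove`, or map
`x ↦ Function.update x j0 0`.) -/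

open scoped Classical

namespace Pool.Agent.Lib.H50X

theorem card_fib {s : ℕ} (d : ℕ) (u : Fin s → ℕ) : ((fib d u).card : ℝ) = ((2 : ℝ) ^ d) ^ s := by
  have h1 : (fib d u).card = (2 ^ d) ^ s := by
    unfold fib
    rw [Fintype.card_piFinset]
    have h2 : ∀ j : Fin s, (Finset.Ico (u j * 2 ^ d) ((u j + 1) * 2 ^ d)).card = 2 ^ d := by
      intro j
      rw [Nat.card_Ico, Nat.add_mul, one_mul, Nat.add_sub_cancel_left]
    rw [Finset.prod_congr rfl fun j _ => h2 j, Finset.prod_const, Finset.card_univ, Fintype.card_fin]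
  exact_mod_cast h1

theorem count_dot {s : ℕ} (h : Fin s → ℤ) (j0 : Fin s) (d ρ : ℕ) (u : Fin s → ℕ) (y : ℝ)
    (hy : 0 < y) (hτ : (2 : ℝ) ^ ρ ≤ 2 ^ d * |(h j0 : ℝ)|) (hyρ : |(h j0 : ℝ)| ≤ 2 ^ ρ * y) :
    (((fib d u).filter fun x => nn (dot h (pt ρ x)) < y).card : ℝ) ≤ 9 * y * ((2 : ℝ) ^ d) ^ s := by
  have hs : 1 ≤ s := by
    have := j0.2
    omega
  set F := (fib d u).filter fun x => nn (dot h (pt ρ x)) < y with hF
  have hh0 : h j0 ≠ 0 := by
    intro h0
    rw [h0, Int.cast_zero, abs_zero, mul_zero] at hτ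
    have : (0 : ℝ) < 2 ^ ρ := by positivity
    linarith
  have hh' : (0 : ℝ) < |(h j0 : ℝ)| := abs_pos.2 (by exact_mod_cast hh0)
  set I := F.image (fun x => Function.update x j0 0) with hI
  -- number of classes
  have hIc : (I.card : ℝ) * 2 ^ d ≤ ((2 : ℝ) ^ d) ^ s := by
    have h1 : I ⊆ Fintype.piFinset fun j => if j = j0 then {0} else
        Finset.Ico (u j * 2 ^ d) ((u j + 1) * 2 ^ d) := by
      intro z hz
      obtain ⟨x, hx, rfl⟩ := Finset.mem_image.1 hz
      have hx1 := (Finset.mem_filter.1 hx).1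
      unfold fib at hx1
      rw [Fintype.mem_piFinset] at hx1
      rw [Fintype.mem_piFinset]
      intro j
      by_cases hj : j = j0
      · rw [if_pos hj, hj, Function.update_self]
        exact Finset.mem_singleton.2 rfl
      · rw [if_neg hj, Function.update_of_ne hj]
        exact hx1 j
    have h2 := Finset.card_le_card h1
    rw [Fintype.card_piFinset] at h2
    have h3 : ∏ j : Fin s, (if j = j0 then ({0} : Finset ℕ) else
        Finset.Ico (u j * 2 ^ d) ((u j + 1) * 2 ^ d)).card = (2 ^ d) ^ (s - 1) := by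
      rw [← Finset.mul_prod_erase _ _ (Finset.mem_univ j0), if_pos rfl, Finset.card_singleton,
        one_mul]
      have h4 : ∀ j ∈ Finset.univ.erase j0, (if j = j0 then ({0} : Finset ℕ) else
          Finset.Ico (u j * 2 ^ d) ((u j + 1) * 2 ^ d)).card = 2 ^ d := by
        intro j hj
        rw [if_neg (Finset.ne_of_mem_erase hj), Nat.card_Ico, Nat.add_mul, one_mul,
          Nat.add_sub_cancel_left]
      rw [Finset.prod_congr rfl h4, Finset.prod_const, Finset.card_erase_of_mem (Finset.mem_univ _),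
        Finset.card_univ, Fintype.card_fin]
    rw [h3] at h2
    have h4 : I.card * 2 ^ d ≤ (2 ^ d) ^ s := by
      calc I.card * 2 ^ d ≤ (2 ^ d) ^ (s - 1) * 2 ^ d := Nat.mul_le_mul_right _ h2
        _ = (2 ^ d) ^ s := by rw [← pow_succ, Nat.sub_add_cancel hs]
    exact_mod_cast h4
  -- the classes
  have hfib : ∀ z ∈ I, ((F.filter fun x => Function.update x j0 0 = z).card : ℝ) ≤
      9 * y * 2 ^ d := by
    intro z _
    set c : ℝ := ∑ j ∈ Finset.univ.erase j0, (h j : ℝ) * ((z j : ℝ) / 2 ^ ρ) with hc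
    have h1 := count_one (h j0) hh0 c y hy d ρ (u j0)
    have h2 : (F.filter fun x => Function.update x j0 0 = z).card ≤
        ((Finset.Ico (u j0 * 2 ^ d) ((u j0 + 1) * 2 ^ d)).filter fun x : ℕ =>
        nn (c + h j0 * ((x : ℝ) / 2 ^ ρ)) < y).card := by
      refine Finset.card_le_card_of_injOn (fun x => x j0) ?_ ?_
      · intro x hx
        rw [Finset.mem_coe, Finset.mem_filter] at hx
        obtain ⟨hx1, hx2⟩ := hx
        obtain ⟨hx3, hx4⟩ := Finset.mem_filter.1 hx1
        unfold fib at hx3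
        rw [Fintype.mem_piFinset] at hx3
        rw [Finset.mem_coe, Finset.mem_filter]
        refine ⟨hx3 j0, ?_⟩
        have e : dot h (pt ρ x) = c + h j0 * ((x j0 : ℝ) / 2 ^ ρ) := by
          unfold dot pt
          rw [← Finset.add_sum_erase _ _ (Finset.mem_univ j0), add_comm, hc]
          congr 1
          refine Finset.sum_congr rfl fun j hj => ?_
          rw [← hx2, Function.update_of_ne (Finset.ne_of_mem_erase hj)]
        rw [← e]
        exact hx4
      · intro x hx x' hx' hxx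
        rw [Finset.mem_coe, Finset.mem_filter] at hx hx'
        funext j
        by_cases hj : j = j0
        · rw [hj]
          exact hxx
        · have e1 : Function.update x j0 0 j = Function.update x' j0 0 j := by
            rw [hx.2, hx'.2]
          rw [Function.update_of_ne hj, Function.update_of_ne hj] at e1
          exact e1
    have h3 : ((F.filter fun x => Function.update x j0 0 = z).card : ℝ) ≤
        3 * 2 ^ d * max 1 (2 ^ ρ / (2 ^ d * |(h j0 : ℝ)|)) * (2 * y + |(h j0 : ℝ)| / 2 ^ ρ) :=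
      le_trans (by exact_mod_cast h2) h1
    have h4 : max 1 ((2 : ℝ) ^ ρ / (2 ^ d * |(h j0 : ℝ)|)) = 1 := by
      apply max_eq_left
      rw [div_le_one (by positivity)]
      exact hτ
    have h5 : |(h j0 : ℝ)| / 2 ^ ρ ≤ y := by
      rw [div_le_iff₀ (by positivity)]
      linarith
    rw [h4, mul_one] at h3
    refine h3.trans ?_
    calc 3 * (2 : ℝ) ^ d * (2 * y + |(h j0 : ℝ)| / 2 ^ ρ) ≤ 3 * 2 ^ d * (2 * y + y) :=
          mul_le_mul_of_nonneg_left (by linarith) (by positivity)
      _ = _ := by ring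
  have h1 : F.card = ∑ z ∈ I, (F.filter fun x => Function.update x j0 0 = z).card :=
    Finset.card_eq_sum_card_image _ _
  have h2 : (F.card : ℝ) = ∑ z ∈ I, ((F.filter fun x => Function.update x j0 0 = z).card : ℝ) := by
    exact_mod_cast h1
  rw [h2]
  refine (Finset.sum_le_sum hfib).trans ?_
  rw [Finset.sum_const, nsmul_eq_mul]
  calc (I.card : ℝ) * (9 * y * 2 ^ d) = 9 * y * (I.card * 2 ^ d) := by ring
    _ ≤ _ := mul_le_mul_of_nonneg_left hIc (by positivity)

end Pool.Agent.Lib.H50X
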