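import Pool.Agent.Lib.H50X.PA
import Pool.Agent.Lib.H50X.PB
import Pool.Agent.Lib.H50X.PC

/-! # H50X, chunk PG: expected value of `QQ`.

`∑_{x ∈ fib} QQ 2 (pt ρ x) a L = ∑_{|m| < L} #{x ∈ fib : ∀ j, nn(m x_j/2^ρ) 2^(a_j) < 2}` and the set on the right
is a product over `j` (`Fintype.piFinset`, `Fintype.card_piFinset`); `L = 2^(∑ a)`, `ρ = 2^(i+n0)`, `τ = 2^i`.
* `m = 0`: `(2^d)^s`.
* `2^τ ≤ |m|`: each factor is `≤ 3·2^d (4/2^(a_j) + |m|/2^ρ) ≤ 15·2^d/2^(a_j)` by `count_one` with `y = 2/2^(a_j)`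
  (`max = 1`; `|m| 2^(a_j) ≤ 2^(∑ a) 2^(a_j) ≤ 2^((s+1) 2^(i+2)) ≤ 2^ρ` by `Hn`, `κ ≤ 1`). Product
  `15^s (2^d)^s 2^(-∑ a)`; at most `2·2^(∑ a)` values of `m`: total `≤ 2·15^s (2^d)^s`.
* `0 < |m| < 2^τ`: for `j0` with `a_(j0) ≥ 2^(i+1) = 2τ` the factor is
  `≤ 3·2^d (2^τ/|m|)·5/2^(a_(j0)) ≤ 15·2^d 2^(-τ)/|m|`, the other factors are `≤ 2^d`; at most `2·2^τ` values of `m`
  (use `1/|m| ≤ 1`): total `≤ 30 (2^d)^s`.
Sum `≤ (1 + 2·15^s + 30)(2^d)^s ≤ 100·15^s (2^d)^s`. -/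

open scoped Classical

namespace Pool.Agent.Lib.H50X

/-- the one dimensional counts -/
noncomputable def pg_c {s : ℕ} (d ρ : ℕ) (u a : Fin s → ℕ) (m : ℤ) (j : Fin s) : ℕ :=
  ((Finset.Ico (u j * 2 ^ d) ((u j + 1) * 2 ^ d)).filter fun x : ℕ =>
    nn ((m : ℝ) * ((x : ℝ) / 2 ^ ρ)) * 2 ^ a j < 2).card

theorem pg_swap {s : ℕ} (d ρ : ℕ) (u a : Fin s → ℕ) (L : ℕ) :
    ∑ x ∈ fib d u, (QQ 2 (pt ρ x) a L : ℝ)
      = ∑ m ∈ Finset.Ioo (-(L : ℤ)) (L : ℤ), ∏ j, (pg_c d ρ u a m j : ℝ) := by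
  have h1 : ∀ m : ℤ, ((fib d u).filter fun x => ∀ j, nn ((m : ℝ) * pt ρ x j) * 2 ^ a j < 2)
      = Fintype.piFinset fun j => (Finset.Ico (u j * 2 ^ d) ((u j + 1) * 2 ^ d)).filter fun x : ℕ =>
        nn ((m : ℝ) * ((x : ℝ) / 2 ^ ρ)) * 2 ^ a j < 2 := by
    intro m
    ext x
    rw [Finset.mem_filter, fib, Fintype.mem_piFinset, Fintype.mem_piFinset]
    constructor
    · rintro ⟨h1, h2⟩ j
      exact Finset.mem_filter.2 ⟨h1 j, h2 j⟩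
    · intro h
      exact ⟨fun j => (Finset.mem_filter.1 (h j)).1, fun j => (Finset.mem_filter.1 (h j)).2⟩
  have h2 : ∀ m : ℤ, ∏ j, (pg_c d ρ u a m j : ℝ)
      = ∑ x ∈ fib d u, (if ∀ j, nn ((m : ℝ) * pt ρ x j) * 2 ^ a j < 2 then (1 : ℝ) else 0) := by
    intro m
    rw [← Finset.natCast_card_filter, h1, Fintype.card_piFinset]
    push_cast
    rfl
  simp_rw [h2]
  rw [Finset.sum_comm]
  refine Finset.sum_congr rfl fun x _ => ?_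
  rw [← Finset.natCast_card_filter]
  rfl

theorem pg_triv {s : ℕ} (d ρ : ℕ) (u a : Fin s → ℕ) (m : ℤ) (j : Fin s) :
    (pg_c d ρ u a m j : ℝ) ≤ 2 ^ d := by
  have h : pg_c d ρ u a m j ≤ 2 ^ d := by
    refine le_trans (Finset.card_filter_le _ _) ?_
    rw [Nat.card_Ico, Nat.add_mul, Nat.add_sub_cancel_left, one_mul]
  exact_mod_cast h

theorem pg_one {s : ℕ} (d ρ : ℕ) (u a : Fin s → ℕ) (m : ℤ) (hm : m ≠ 0) (j : Fin s) :
    (pg_c d ρ u a m j : ℝ) ≤ 3 * 2 ^ d * max 1 (2 ^ ρ / (2 ^ d * |(m : ℝ)|))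
      * (2 * (2 / 2 ^ a j) + |(m : ℝ)| / 2 ^ ρ) := by
  have hy : (0 : ℝ) < 2 / 2 ^ a j := by positivity
  have h := count_one m hm 0 (2 / 2 ^ a j) hy d ρ (u j)
  refine le_trans (le_of_eq ?_) h
  unfold pg_c
  congr 2
  ext x
  simp only [Finset.mem_filter, zero_add]
  rw [lt_div_iff₀ (by positivity)]

/-- the bound for one `m` -/
theorem pg_m (s n0 : ℕ) (κ : ℝ) (hκ1 : κ ≤ 1) (H : Hn s n0 κ) (i : ℕ) (u : Fin s → ℕ)
    (a : Fin s → ℕ) (ha : a ∈ ablk s (i + 1)) (m : ℤ)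
    (hm : m ∈ Finset.Ioo (-((2 ^ ∑ j, a j : ℕ) : ℤ)) ((2 ^ ∑ j, a j : ℕ) : ℤ)) :
    ∏ j, (pg_c (2 ^ (i + n0) - 2 ^ i) (2 ^ (i + n0)) u a m j : ℝ)
      ≤ ((2 : ℝ) ^ (2 ^ (i + n0) - 2 ^ i)) ^ s *
        ((if m = 0 then 1 else 0) + (if |(m : ℝ)| < 2 ^ (2 ^ i) then 15 / 2 ^ (2 ^ i) else 0)
          + 15 ^ s / 2 ^ (∑ j, a j)) := by
  obtain ⟨⟨j0, hj0⟩, hA⟩ := (mem_ablk s (i + 1) a).1 ha
  set d : ℕ := 2 ^ (i + n0) - 2 ^ i with hd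
  set ρ : ℕ := 2 ^ (i + n0) with hρ
  have hle : 2 ^ i ≤ ρ := by
    rw [hρ]; exact Nat.pow_le_pow_right (by norm_num) (by omega)
  have hρd : (2 : ℝ) ^ ρ = 2 ^ d * 2 ^ (2 ^ i) := by
    rw [← pow_add]; congr 1; omega
  have hd0 : (0 : ℝ) < 2 ^ d := by positivity
  have hρ0 : (0 : ℝ) < 2 ^ ρ := by positivity
  have hbig : (2 : ℝ) ^ ((s + 1) * 2 ^ (i + 2)) ≤ 2 ^ ρ := by
    have h1 := H i
    have h2 : (2 : ℝ) ^ ((s + 1) * 2 ^ (i + 2))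
        ≤ 2 * (s + 1) * 2 ^ ((s + 1) * 2 ^ (i + 2)) * (2 ^ (i + 1)) ^ s := by
      have h3 : (1 : ℝ) ≤ (2 ^ (i + 1)) ^ s := by
        exact one_le_pow₀ (one_le_pow₀ (by norm_num))
      have h4 : (1 : ℝ) ≤ 2 * (s + 1) := by
        have : (0 : ℝ) ≤ s := Nat.cast_nonneg s
        linarith
      have h5 : (0 : ℝ) < 2 ^ ((s + 1) * 2 ^ (i + 2)) := by positivity
      calc (2 : ℝ) ^ ((s + 1) * 2 ^ (i + 2)) = 1 * 2 ^ ((s + 1) * 2 ^ (i + 2)) * 1 := by ring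
        _ ≤ 2 * (s + 1) * 2 ^ ((s + 1) * 2 ^ (i + 2)) * (2 ^ (i + 1)) ^ s := by gcongr
    have h6 : κ * 2 ^ ρ ≤ 1 * 2 ^ ρ := by gcongr
    rw [one_mul] at h6
    exact le_trans h2 (le_trans h1 h6)
  have hsum : ∑ j, a j ≤ s * 2 ^ (i + 2) := by
    calc ∑ j, a j ≤ ∑ _j : Fin s, 2 ^ (i + 2) := Finset.sum_le_sum fun j _ => (hA j).le
      _ = s * 2 ^ (i + 2) := by simp
  have hmL : |(m : ℝ)| < 2 ^ (∑ j, a j) := by
    rw [Finset.mem_Ioo] at hm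
    have h1 : |m| < ((2 ^ ∑ j, a j : ℕ) : ℤ) := abs_lt.2 hm
    have h2 : ((|m| : ℤ) : ℝ) < (((2 ^ ∑ j, a j : ℕ) : ℤ) : ℝ) := by exact_mod_cast h1
    rw [Int.cast_abs] at h2
    push_cast at h2
    exact h2
  -- `|m| 2^(a_j) ≤ 2^ρ`
  have hma : ∀ j, |(m : ℝ)| / 2 ^ ρ ≤ 1 / 2 ^ a j := by
    intro j
    rw [div_le_div_iff₀ hρ0 (by positivity), one_mul]
    calc |(m : ℝ)| * 2 ^ a j ≤ 2 ^ (∑ j, a j) * 2 ^ a j := by gcongr
      _ = 2 ^ (∑ j, a j + a j) := by rw [pow_add]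
      _ ≤ 2 ^ ((s + 1) * 2 ^ (i + 2)) := by
          apply pow_le_pow_right₀ (by norm_num)
          have := (hA j).le
          have e : i + 1 + 1 = i + 2 := by ring
          rw [e] at this
          calc ∑ j, a j + a j ≤ s * 2 ^ (i + 2) + 2 ^ (i + 2) := by omega
            _ = (s + 1) * 2 ^ (i + 2) := by ring
      _ ≤ 2 ^ ρ := hbig
  have hV0 : (0 : ℝ) < (2 ^ d) ^ s := by positivity
  have hprodtriv : ∏ j, (pg_c d ρ u a m j : ℝ) ≤ (2 ^ d) ^ s := by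
    calc ∏ j, (pg_c d ρ u a m j : ℝ) ≤ ∏ _j : Fin s, (2 : ℝ) ^ d :=
          Finset.prod_le_prod (fun j _ => by positivity) (fun j _ => pg_triv d ρ u a m j)
      _ = (2 ^ d) ^ s := by simp
  have hn3 : (0 : ℝ) ≤ 15 ^ s / 2 ^ (∑ j, a j) := by positivity
  by_cases hm0 : m = 0
  · -- `m = 0`
    have hn2 : (0 : ℝ) ≤ (if |(m : ℝ)| < 2 ^ (2 ^ i) then 15 / 2 ^ (2 ^ i) else 0) := by
      split_ifs <;> positivity
    refine le_trans hprodtriv ?_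
    rw [if_pos hm0]
    have : (2 ^ d : ℝ) ^ s * 1 ≤ (2 ^ d) ^ s *
        (1 + (if |(m : ℝ)| < 2 ^ (2 ^ i) then 15 / 2 ^ (2 ^ i) else 0)
          + 15 ^ s / 2 ^ (∑ j, a j)) := by
      apply mul_le_mul_of_nonneg_left _ hV0.le
      linarith
    linarith
  · have hm1 : (1 : ℝ) ≤ |(m : ℝ)| := by
      have : (1 : ℤ) ≤ |m| := Int.one_le_abs hm0
      have h2 : ((1 : ℤ) : ℝ) ≤ ((|m| : ℤ) : ℝ) := by exact_mod_cast this
      rw [Int.cast_abs] at h2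
      simpa using h2
    have hmpos : (0 : ℝ) < |(m : ℝ)| := by linarith
    have hratio : (2 : ℝ) ^ ρ / (2 ^ d * |(m : ℝ)|) = 2 ^ (2 ^ i) / |(m : ℝ)| := by
      rw [hρd]
      field_simp
    rw [if_neg hm0, zero_add]
    by_cases hsm : |(m : ℝ)| < 2 ^ (2 ^ i)
    · -- small `m`
      rw [if_pos hsm]
      have hfac : (pg_c d ρ u a m j0 : ℝ) ≤ 2 ^ d * (15 / 2 ^ (2 ^ i)) := by
        have h1 := pg_one d ρ u a m hm0 j0
        rw [hratio] at h1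
        have hmax : max (1 : ℝ) (2 ^ (2 ^ i) / |(m : ℝ)|) ≤ 2 ^ (2 ^ i) := by
          apply max_le
          · exact one_le_pow₀ (by norm_num)
          · exact div_le_self (by positivity) hm1
        have h2 : (2 * (2 / 2 ^ a j0) + |(m : ℝ)| / 2 ^ ρ) ≤ 5 / 2 ^ a j0 := by
          have := hma j0
          have e : (5 : ℝ) / 2 ^ a j0 = 2 * (2 / 2 ^ a j0) + 1 / 2 ^ a j0 := by ring
          rw [e]
          linarith
        have h3 : (5 : ℝ) / 2 ^ a j0 ≤ 5 / (2 ^ (2 ^ i) * 2 ^ (2 ^ i)) := by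
          rw [← pow_add]
          have h4 : (2 : ℝ) ^ (2 ^ i + 2 ^ i) ≤ 2 ^ a j0 := by
            apply pow_le_pow_right₀ (by norm_num)
            calc 2 ^ i + 2 ^ i = 2 ^ (i + 1) := by ring
              _ ≤ a j0 := hj0
          gcongr
        have h5 : (0 : ℝ) ≤ 2 * (2 / 2 ^ a j0) + |(m : ℝ)| / 2 ^ ρ := by positivity
        calc (pg_c d ρ u a m j0 : ℝ) ≤ 3 * 2 ^ d * max 1 (2 ^ (2 ^ i) / |(m : ℝ)|)
              * (2 * (2 / 2 ^ a j0) + |(m : ℝ)| / 2 ^ ρ) := h1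
          _ ≤ 3 * 2 ^ d * 2 ^ (2 ^ i) * (5 / (2 ^ (2 ^ i) * 2 ^ (2 ^ i))) := by
              apply mul_le_mul _ (h2.trans h3) h5 (by positivity)
              gcongr
          _ = 2 ^ d * (15 / 2 ^ (2 ^ i)) := by
              field_simp
              ring
      have hprod : ∏ j, (pg_c d ρ u a m j : ℝ) ≤ (2 ^ d) ^ s * (15 / 2 ^ (2 ^ i)) := by
        rw [← Finset.mul_prod_erase Finset.univ _ (Finset.mem_univ j0)]
        have h1 : ∏ j ∈ Finset.univ.erase j0, (pg_c d ρ u a m j : ℝ) ≤ (2 ^ d) ^ (s - 1) := by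
          calc ∏ j ∈ Finset.univ.erase j0, (pg_c d ρ u a m j : ℝ)
              ≤ ∏ _j ∈ Finset.univ.erase j0, (2 : ℝ) ^ d :=
                Finset.prod_le_prod (fun j _ => by positivity) (fun j _ => pg_triv d ρ u a m j)
            _ = (2 ^ d) ^ (s - 1) := by
                rw [Finset.prod_const, Finset.card_erase_of_mem (Finset.mem_univ j0)]
                simp
        have hs1 : 1 ≤ s := by
          have := j0.2
          omega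
        have h2 : ((2 : ℝ) ^ d) ^ s = 2 ^ d * (2 ^ d) ^ (s - 1) := by
          rw [← pow_succ']
          congr 1
          omega
        rw [h2]
        calc (pg_c d ρ u a m j0 : ℝ) * ∏ j ∈ Finset.univ.erase j0, (pg_c d ρ u a m j : ℝ)
            ≤ (2 ^ d * (15 / 2 ^ (2 ^ i))) * (2 ^ d) ^ (s - 1) := by
              apply mul_le_mul hfac h1
              · exact Finset.prod_nonneg fun j _ => by positivity
              · positivity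
          _ = 2 ^ d * (2 ^ d) ^ (s - 1) * (15 / 2 ^ (2 ^ i)) := by ring
      calc ∏ j, (pg_c d ρ u a m j : ℝ) ≤ (2 ^ d) ^ s * (15 / 2 ^ (2 ^ i)) := hprod
        _ ≤ (2 ^ d) ^ s * (15 / 2 ^ (2 ^ i) + 15 ^ s / 2 ^ (∑ j, a j)) := by
            apply mul_le_mul_of_nonneg_left _ hV0.le
            linarith
    · -- large `m`
      rw [if_neg hsm, zero_add]
      push Not at hsm
      have hfac : ∀ j, (pg_c d ρ u a m j : ℝ) ≤ 2 ^ d * (15 / 2 ^ a j) := by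
        intro j
        have h1 := pg_one d ρ u a m hm0 j
        rw [hratio] at h1
        have hmax : max (1 : ℝ) (2 ^ (2 ^ i) / |(m : ℝ)|) ≤ 1 := by
          apply max_le le_rfl
          rw [div_le_one hmpos]
          exact hsm
        have h2 : (2 * (2 / 2 ^ a j) + |(m : ℝ)| / 2 ^ ρ) ≤ 5 / 2 ^ a j := by
          have := hma j
          have e : (5 : ℝ) / 2 ^ a j = 2 * (2 / 2 ^ a j) + 1 / 2 ^ a j := by ring
          rw [e]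
          linarith
        have h5 : (0 : ℝ) ≤ 2 * (2 / 2 ^ a j) + |(m : ℝ)| / 2 ^ ρ := by positivity
        calc (pg_c d ρ u a m j : ℝ) ≤ 3 * 2 ^ d * max 1 (2 ^ (2 ^ i) / |(m : ℝ)|)
              * (2 * (2 / 2 ^ a j) + |(m : ℝ)| / 2 ^ ρ) := h1
          _ ≤ 3 * 2 ^ d * 1 * (5 / 2 ^ a j) := by
              apply mul_le_mul _ h2 h5 (by positivity)
              gcongr
          _ = 2 ^ d * (15 / 2 ^ a j) := by ring
      calc ∏ j, (pg_c d ρ u a m j : ℝ) ≤ ∏ j, ((2 : ℝ) ^ d * (15 / 2 ^ a j)) :=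
            Finset.prod_le_prod (fun j _ => by positivity) (fun j _ => hfac j)
        _ = (2 ^ d) ^ s * (15 ^ s / 2 ^ (∑ j, a j)) := by
            rw [Finset.prod_mul_distrib, Finset.prod_div_distrib]
            simp only [Finset.prod_const, Finset.card_univ, Fintype.card_fin]
            rw [Finset.prod_pow_eq_pow_sum]

theorem expQ (s n0 : ℕ) (κ : ℝ) (hκ1 : κ ≤ 1) (H : Hn s n0 κ) (i : ℕ) (u : Fin s → ℕ)
    (a : Fin s → ℕ) (ha : a ∈ ablk s (i + 1)) :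
    ∑ x ∈ fib (2 ^ (i + n0) - 2 ^ i) u, (QQ 2 (pt (2 ^ (i + n0)) x) a (2 ^ ∑ j, a j) : ℝ)
      ≤ 100 * 15 ^ s * ((2 : ℝ) ^ (2 ^ (i + n0) - 2 ^ i)) ^ s := by
  rw [pg_swap]
  set L : ℕ := 2 ^ ∑ j, a j with hL
  set V : ℝ := ((2 : ℝ) ^ (2 ^ (i + n0) - 2 ^ i)) ^ s with hV
  have hV0 : 0 < V := by positivity
  have hL0 : (0 : ℝ) < (L : ℝ) := by rw [hL]; positivity
  have hLc : (2 : ℝ) ^ (∑ j, a j) = (L : ℝ) := by rw [hL]; push_cast; rfl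
  have h1 : ∑ m ∈ Finset.Ioo (-(L : ℤ)) (L : ℤ),
      ∏ j, (pg_c (2 ^ (i + n0) - 2 ^ i) (2 ^ (i + n0)) u a m j : ℝ)
      ≤ ∑ m ∈ Finset.Ioo (-(L : ℤ)) (L : ℤ), V *
        ((if m = 0 then 1 else 0) + (if |(m : ℝ)| < 2 ^ (2 ^ i) then 15 / 2 ^ (2 ^ i) else 0)
          + 15 ^ s / L) := by
    refine Finset.sum_le_sum fun m hm => ?_
    have := pg_m s n0 κ hκ1 H i u a ha m hm
    rw [hLc] at this
    exact this
  refine le_trans h1 ?_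
  rw [← Finset.mul_sum, Finset.sum_add_distrib, Finset.sum_add_distrib]
  have hA : ∑ m ∈ Finset.Ioo (-(L : ℤ)) (L : ℤ), (if m = 0 then (1 : ℝ) else 0) ≤ 1 := by
    rw [Finset.sum_ite_eq']
    split_ifs <;> norm_num
  have hB : ∑ m ∈ Finset.Ioo (-(L : ℤ)) (L : ℤ),
      (if |(m : ℝ)| < 2 ^ (2 ^ i) then (15 : ℝ) / 2 ^ (2 ^ i) else 0) ≤ 30 := by
    rw [← Finset.sum_filter, Finset.sum_const, nsmul_eq_mul]
    have hcard : (((Finset.Ioo (-(L : ℤ)) (L : ℤ)).filter fun m : ℤ =>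
        |(m : ℝ)| < 2 ^ (2 ^ i)).card : ℝ) ≤ 2 * 2 ^ (2 ^ i) := by
      have hsub : ((Finset.Ioo (-(L : ℤ)) (L : ℤ)).filter fun m : ℤ => |(m : ℝ)| < 2 ^ (2 ^ i))
          ⊆ Finset.Ioo (-(2 ^ (2 ^ i) : ℤ)) (2 ^ (2 ^ i)) := by
        intro m hm
        rw [Finset.mem_filter] at hm
        rw [Finset.mem_Ioo]
        have h3 : ((|m| : ℤ) : ℝ) < ((2 ^ (2 ^ i) : ℤ) : ℝ) := by
          rw [Int.cast_abs]
          push_cast
          exact hm.2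
        have h4 : |m| < 2 ^ (2 ^ i) := by exact_mod_cast h3
        exact abs_lt.1 h4
      have hc := Finset.card_le_card hsub
      rw [Int.card_Ioo] at hc
      have h5 : (((2 ^ (2 ^ i) : ℤ) - -(2 ^ (2 ^ i) : ℤ) - 1).toNat : ℤ)
          ≤ 2 * 2 ^ (2 ^ i) := by
        have hp : (1 : ℤ) ≤ 2 ^ (2 ^ i) := one_le_pow₀ (by norm_num)
        rw [Int.toNat_of_nonneg (by linarith)]
        linarith
      have h6 : ((((Finset.Ioo (-(L : ℤ)) (L : ℤ)).filter fun m : ℤ =>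
        |(m : ℝ)| < 2 ^ (2 ^ i)).card : ℤ)) ≤ 2 * 2 ^ (2 ^ i) :=
        le_trans (by exact_mod_cast hc) h5
      exact_mod_cast h6
    calc (((Finset.Ioo (-(L : ℤ)) (L : ℤ)).filter fun m : ℤ =>
        |(m : ℝ)| < 2 ^ (2 ^ i)).card : ℝ) * (15 / 2 ^ (2 ^ i))
        ≤ (2 * 2 ^ (2 ^ i)) * (15 / 2 ^ (2 ^ i)) := by gcongr
      _ = 30 := by
          field_simp
          norm_num
  have hC : ∑ _m ∈ Finset.Ioo (-(L : ℤ)) (L : ℤ), (15 ^ s / L : ℝ) ≤ 2 * 15 ^ s := by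
    rw [Finset.sum_const, nsmul_eq_mul, Int.card_Ioo]
    have h5 : ((((L : ℤ) - -(L : ℤ) - 1).toNat : ℕ) : ℝ) ≤ 2 * L := by
      have h6 : ((L : ℤ) - -(L : ℤ) - 1).toNat ≤ 2 * L := by omega
      exact_mod_cast h6
    calc ((((L : ℤ) - -(L : ℤ) - 1).toNat : ℕ) : ℝ) * (15 ^ s / L)
        ≤ (2 * L) * (15 ^ s / L) := by gcongr
      _ = 2 * 15 ^ s := by field_simp
  have h15 : (1 : ℝ) ≤ 15 ^ s := one_le_pow₀ (by norm_num)
  have hfin : V * (∑ m ∈ Finset.Ioo (-(L : ℤ)) (L : ℤ), (if m = 0 then (1 : ℝ) else 0)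
      + ∑ m ∈ Finset.Ioo (-(L : ℤ)) (L : ℤ),
        (if |(m : ℝ)| < 2 ^ (2 ^ i) then (15 : ℝ) / 2 ^ (2 ^ i) else 0)
      + ∑ _m ∈ Finset.Ioo (-(L : ℤ)) (L : ℤ), (15 ^ s / L : ℝ)) ≤ V * (100 * 15 ^ s) := by
    apply mul_le_mul_of_nonneg_left _ hV0.le
    linarith
  linarith

end Pool.Agent.Lib.H50X
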