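import Pool.Agent.Lib.H50X.PF
import Pool.Agent.Lib.H50X.PG

/-! # H50X, chunk PH: few bad grid points.

Let `V = (2^d)^s = |fib|` (`card_fib`), `ε > 0`. With `κ ≤ ε/(27·2^s)` the first alternative of `Bad` holds for at
most `expV ≤ 9·2^s κ V ≤ (ε/3) V` points. With `Λ = 300·30^s/ε`: the second alternative holds for at most
`(∑_x ∑_a QQ)/(Λ (2^(i+1))^s) ≤ (2^(i+2))^s 100·15^s V/(Λ (2^(i+1))^s) = 100·30^s V/Λ = (ε/3) V` points
(Markov; `card_ablk_le`, `expQ`). With `Λ' = 54·2^s (s + k0 + 2)/ε`: the third one for at most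
`18·2^s (2^(i+1))^s (s(i+1)+k0+2) V/(Λ' (2^(i+1))^s (i+1)) ≤ (ε/3) V` points (`expS`).
If `s = 0` all blocks are empty, the sums are `0` and nothing is bad (`Λ, Λ' > 0`). -/

open scoped Classical

namespace Pool.Agent.Lib.H50X

theorem ph_markov {ι : Type*} (F : Finset ι) (f : ι → ℝ) (t c : ℝ) (ht : 0 < t)
    (hf : ∀ x ∈ F, 0 ≤ f x) (hs : ∑ x ∈ F, f x ≤ c * t) :
    ((F.filter fun x => t < f x).card : ℝ) ≤ c := by
  have h1 : ((F.filter fun x => t < f x).card : ℝ) * t ≤ ∑ x ∈ F, f x := by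
    rw [← nsmul_eq_mul, ← Finset.sum_const]
    calc ∑ _x ∈ F.filter (fun x => t < f x), t ≤ ∑ x ∈ F.filter (fun x => t < f x), f x :=
          Finset.sum_le_sum fun x hx => (Finset.mem_filter.1 hx).2.le
      _ ≤ ∑ x ∈ F, f x := Finset.sum_le_sum_of_subset_of_nonneg (Finset.filter_subset _ _)
          fun x hx _ => hf x hx
  exact le_of_mul_le_mul_right (h1.trans hs) ht

theorem ph_gg_nonneg {s : ℕ} (α : Fin s → ℝ) (h : Fin s → ℤ) : 0 ≤ gg (TT α h) := by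
  have h1 : 0 ≤ TT α h := by
    unfold TT nn
    positivity
  unfold gg
  exact le_min h1 (sq_nonneg _)

theorem bad_le (s n0 k0 : ℕ) (κ ε Λ Λ' : ℝ) (hκ : 0 < κ) (hκ1 : κ ≤ 1) (H : Hn s n0 κ)
    (hk0 : 1 / 2 ^ k0 ≤ κ) (hε : 0 < ε) (hκε : 27 * 2 ^ s * κ ≤ ε)
    (hΛ : 300 * 30 ^ s / ε ≤ Λ) (hΛ' : 54 * 2 ^ s * (s + k0 + 2) / ε ≤ Λ')
    (i : ℕ) (u : Fin s → ℕ) :
    (((fib (2 ^ (i + n0) - 2 ^ i) u).filter fun x => Bad s n0 κ Λ Λ' i x).card : ℝ)
      ≤ ε * ((2 : ℝ) ^ (2 ^ (i + n0) - 2 ^ i)) ^ s := by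
  set F := fib (2 ^ (i + n0) - 2 ^ i) u with hF
  set V : ℝ := ((2 : ℝ) ^ (2 ^ (i + n0) - 2 ^ i)) ^ s with hV
  have hV0 : 0 < V := by positivity
  have hΛ0 : 0 < Λ := lt_of_lt_of_le (by positivity) hΛ
  have hΛ'0 : 0 < Λ' := lt_of_lt_of_le (by positivity) hΛ'
  have h2i : (0 : ℝ) < (2 ^ (i + 1)) ^ s := by positivity
  -- first alternative
  have hA : ((F.filter fun x => ∃ h ∈ hblk s (i + 1), nn (dot h (pt (2 ^ (i + n0)) x))
      < xz κ s (i + 1) h).card : ℝ) ≤ ε / 3 * V := by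
    have h1 : (F.filter fun x => ∃ h ∈ hblk s (i + 1), nn (dot h (pt (2 ^ (i + n0)) x))
        < xz κ s (i + 1) h) ⊆ (hblk s (i + 1)).biUnion fun h =>
          F.filter fun x => nn (dot h (pt (2 ^ (i + n0)) x)) < xz κ s (i + 1) h := by
      intro x hx
      simp only [Finset.mem_filter] at hx
      obtain ⟨hx1, h, hh, hx2⟩ := hx
      rw [Finset.mem_biUnion]
      exact ⟨h, hh, Finset.mem_filter.2 ⟨hx1, hx2⟩⟩
    have h2 := (Finset.card_le_card h1).trans Finset.card_biUnion_le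
    have h3 : ((F.filter fun x => ∃ h ∈ hblk s (i + 1), nn (dot h (pt (2 ^ (i + n0)) x))
        < xz κ s (i + 1) h).card : ℝ) ≤ ∑ h ∈ hblk s (i + 1),
          ((F.filter fun x => nn (dot h (pt (2 ^ (i + n0)) x)) < xz κ s (i + 1) h).card : ℝ) := by
      exact_mod_cast h2
    refine le_trans h3 (le_trans (expV s n0 κ hκ H i u) ?_)
    rw [← hV]
    apply mul_le_mul_of_nonneg_right _ hV0.le
    linarith
  -- second alternative
  have hB : ((F.filter fun x => Λ * (2 ^ (i + 1)) ^ s <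
      ∑ a ∈ ablk s (i + 1), (QQ 2 (pt (2 ^ (i + n0)) x) a (2 ^ ∑ j, a j) : ℝ)).card : ℝ)
      ≤ ε / 3 * V := by
    apply ph_markov
    · positivity
    · intro x _
      exact Finset.sum_nonneg fun a _ => Nat.cast_nonneg _
    · rw [Finset.sum_comm]
      have h1 : ∑ a ∈ ablk s (i + 1), ∑ x ∈ F,
          (QQ 2 (pt (2 ^ (i + n0)) x) a (2 ^ ∑ j, a j) : ℝ)
          ≤ ∑ _a ∈ ablk s (i + 1), 100 * 15 ^ s * V :=
        Finset.sum_le_sum fun a ha => expQ s n0 κ hκ1 H i u a ha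
      rw [Finset.sum_const, nsmul_eq_mul] at h1
      have h2 := card_ablk_le s (i + 1)
      have h3 : ((ablk s (i + 1)).card : ℝ) * (100 * 15 ^ s * V)
          ≤ ((2 : ℝ) ^ (i + 1 + 1)) ^ s * (100 * 15 ^ s * V) := by
        gcongr
      have h4 : ((2 : ℝ) ^ (i + 1 + 1)) ^ s * (100 * 15 ^ s * V)
          = (100 * 30 ^ s) * (V * (2 ^ (i + 1)) ^ s) := by
        have e : (30 : ℝ) ^ s = 2 ^ s * 15 ^ s := by
          rw [← mul_pow]; norm_num
        rw [e, pow_succ (2 : ℝ) (i + 1), mul_pow]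
        ring
      have h5 : (100 * 30 ^ s : ℝ) ≤ ε / 3 * Λ := by
        rw [div_le_iff₀ hε] at hΛ
        linarith
      calc ∑ a ∈ ablk s (i + 1), ∑ x ∈ F,
          (QQ 2 (pt (2 ^ (i + n0)) x) a (2 ^ ∑ j, a j) : ℝ)
          ≤ (100 * 30 ^ s) * (V * (2 ^ (i + 1)) ^ s) := by
            rw [← h4]; exact h1.trans h3
        _ ≤ (ε / 3 * Λ) * (V * (2 ^ (i + 1)) ^ s) := by
            apply mul_le_mul_of_nonneg_right h5
            positivity
        _ = ε / 3 * V * (Λ * (2 ^ (i + 1)) ^ s) := by ring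
  -- third alternative
  have hC : ((F.filter fun x => Λ' * (2 ^ (i + 1)) ^ s * (i + 1) <
      ∑ h ∈ hblk s (i + 1), if xz κ s (i + 1) h ≤ nn (dot h (pt (2 ^ (i + n0)) x))
        then gg (TT (pt (2 ^ (i + n0)) x) h) else 0).card : ℝ) ≤ ε / 3 * V := by
    apply ph_markov
    · positivity
    · intro x _
      refine Finset.sum_nonneg fun h _ => ?_
      split_ifs
      · exact ph_gg_nonneg _ _
      · exact le_rfl
    · rw [Finset.sum_comm]
      have h1 := expS s n0 κ hκ H k0 hk0 i u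
      refine le_trans h1 ?_
      rw [← hV]
      have h2 : (s * (i + 1) + k0 + 2 : ℝ) ≤ (s + k0 + 2) * (i + 1) := by
        have hi : (0 : ℝ) ≤ i := Nat.cast_nonneg i
        have hk : (0 : ℝ) ≤ k0 := Nat.cast_nonneg k0
        nlinarith [mul_nonneg hi hk]
      have h3 : (18 * 2 ^ s * (s + k0 + 2) : ℝ) ≤ ε / 3 * Λ' := by
        rw [div_le_iff₀ hε] at hΛ'
        linarith
      calc (18 * 2 ^ s * (2 ^ (i + 1)) ^ s * (s * (i + 1) + k0 + 2) * V : ℝ)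
          ≤ 18 * 2 ^ s * (2 ^ (i + 1)) ^ s * ((s + k0 + 2) * (i + 1)) * V := by
            gcongr
        _ = (18 * 2 ^ s * (s + k0 + 2)) * ((2 ^ (i + 1)) ^ s * (i + 1) * V) := by ring
        _ ≤ (ε / 3 * Λ') * ((2 ^ (i + 1)) ^ s * (i + 1) * V) := by
            apply mul_le_mul_of_nonneg_right h3
            positivity
        _ = ε / 3 * V * (Λ' * (2 ^ (i + 1)) ^ s * (i + 1)) := by ring
  -- union
  have hU : (F.filter fun x => Bad s n0 κ Λ Λ' i x) ⊆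
      (F.filter fun x => ∃ h ∈ hblk s (i + 1), nn (dot h (pt (2 ^ (i + n0)) x))
        < xz κ s (i + 1) h) ∪
      ((F.filter fun x => Λ * (2 ^ (i + 1)) ^ s <
        ∑ a ∈ ablk s (i + 1), (QQ 2 (pt (2 ^ (i + n0)) x) a (2 ^ ∑ j, a j) : ℝ)) ∪
      (F.filter fun x => Λ' * (2 ^ (i + 1)) ^ s * (i + 1) <
        ∑ h ∈ hblk s (i + 1), if xz κ s (i + 1) h ≤ nn (dot h (pt (2 ^ (i + n0)) x))
          then gg (TT (pt (2 ^ (i + n0)) x) h) else 0)) := by
    intro x hx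
    rw [Finset.mem_filter] at hx
    simp only [Finset.mem_union, Finset.mem_filter]
    rcases hx.2 with h | h | h
    · exact Or.inl ⟨hx.1, h⟩
    · exact Or.inr (Or.inl ⟨hx.1, h⟩)
    · exact Or.inr (Or.inr ⟨hx.1, h⟩)
  have hU1 := (Finset.card_le_card hU).trans (Finset.card_union_le _ _)
  have hU2 := Finset.card_union_le (F.filter fun x => Λ * (2 ^ (i + 1)) ^ s <
        ∑ a ∈ ablk s (i + 1), (QQ 2 (pt (2 ^ (i + n0)) x) a (2 ^ ∑ j, a j) : ℝ))
      (F.filter fun x => Λ' * (2 ^ (i + 1)) ^ s * (i + 1) <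
        ∑ h ∈ hblk s (i + 1), if xz κ s (i + 1) h ≤ nn (dot h (pt (2 ^ (i + n0)) x))
          then gg (TT (pt (2 ^ (i + n0)) x) h) else 0)
  have hU3 := hU1.trans (Nat.add_le_add_left hU2 _)
  have hU4 : ((F.filter fun x => Bad s n0 κ Λ Λ' i x).card : ℝ) ≤
      ((F.filter fun x => ∃ h ∈ hblk s (i + 1), nn (dot h (pt (2 ^ (i + n0)) x))
        < xz κ s (i + 1) h).card : ℝ) +
      (((F.filter fun x => Λ * (2 ^ (i + 1)) ^ s <
        ∑ a ∈ ablk s (i + 1), (QQ 2 (pt (2 ^ (i + n0)) x) a (2 ^ ∑ j, a j) : ℝ)).card : ℝ) +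
      ((F.filter fun x => Λ' * (2 ^ (i + 1)) ^ s * (i + 1) <
        ∑ h ∈ hblk s (i + 1), if xz κ s (i + 1) h ≤ nn (dot h (pt (2 ^ (i + n0)) x))
          then gg (TT (pt (2 ^ (i + n0)) x) h) else 0).card : ℝ)) := by
    exact_mod_cast hU3
  linarith

end Pool.Agent.Lib.H50X
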