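import Pool.Agent.Lib.H50X.PB

/-! # H50X, chunk PI: choosing the digits greedily (PURE finite combinatorics).

Levels `τ(i) = 2^i`. For `u` at level `τ(i)`, `j ≤ i ≤ j + n0`, let
`P(j,i,u) = #{x ∈ fib (τ(j+n0) - τ(i)) u : B j x} / (2^(τ(j+n0)-τ(i)))^s` (fraction of the points `x` of level
`τ(j+n0)` below `u` that are bad for `j`). Facts:
* `P(j,i,u)` is the average of `P(j,i+1,u')` over `u' ∈ fib (τ(i+1)-τ(i)) u` (for `i+1 ≤ j+n0`): the cube `u` is the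
  disjoint union of its subcubes.
* `P(i,i,u) ≤ ε` by hypothesis; `P(j,j+n0,x)` is `1` if `B j x` and `0` otherwise.
Construct `x_0 = 0`, `x_(i+1) ∈ fib (τ(i+1)-τ(i)) x_i` with `P(j,i,x_i) ≤ (2 n0)^(i-j) ε` for all `j ≤ i ≤ j+n0`:
given `x_i`, there are at most `n0` indices `j ≤ i < j+n0`; by Markov, for each of them at most a fraction
`1/(2 n0)` of the children has `P(j,i+1,u') > 2 n0 P(j,i,x_i)` (if `P(j,i,x_i) = 0` then all children have `0`), so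
some child is fine for all of them (total fraction `≤ 1/2 < 1`).
At age `n0`: `P(j,j+n0,x_(j+n0)) ≤ (2 n0)^n0 ε < 1`, so `B j (x_(j+n0))` is false. -/

open scoped Classical

namespace Pool.Agent.Lib.H50X

/-- number of grid points of level `2^(j+n0)` below `u` (level `2^i`) with property `B` -/
noncomputable def pi_N {s : ℕ} (B : (Fin s → ℕ) → Prop) (d : ℕ) (u : Fin s → ℕ) : ℝ :=
  (((fib d u).filter fun x => B x).card : ℝ)

theorem pi_N_nonneg {s : ℕ} (B : (Fin s → ℕ) → Prop) (d : ℕ) (u : Fin s → ℕ) : 0 ≤ pi_N B d u := by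
  unfold pi_N
  positivity

theorem pi_mem {s : ℕ} (d : ℕ) (u x : Fin s → ℕ) :
    x ∈ fib d u ↔ ∀ j, x j / 2 ^ d = u j := by
  rw [fib, Fintype.mem_piFinset]
  refine forall_congr' fun j => ?_
  rw [Finset.mem_Ico]
  have h2 : 0 < 2 ^ d := by positivity
  constructor
  · rintro ⟨h3, h4⟩
    apply Nat.div_eq_of_lt_le
    · linarith [h3]
    · exact h4
  · intro h
    rw [← h]
    refine ⟨Nat.div_mul_le_self _ _, ?_⟩
    rw [Nat.add_mul, one_mul]
    exact Nat.lt_div_mul_add h2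

theorem pi_sub {s : ℕ} (B : (Fin s → ℕ) → Prop) (d e : ℕ) (u : Fin s → ℕ) :
    ∑ v ∈ fib d u, pi_N B e v ≤ pi_N B (d + e) u := by
  unfold pi_N
  have hd : ∀ v ∈ fib d u, ∀ w ∈ fib d u, v ≠ w →
      Disjoint ((fib e v).filter fun x => B x) ((fib e w).filter fun x => B x) := by
    intro v _ w _ hvw
    rw [Finset.disjoint_left]
    intro x hx hx'
    rw [Finset.mem_filter] at hx hx'
    apply hvw
    funext j
    rw [← (pi_mem e v x).1 hx.1 j, ← (pi_mem e w x).1 hx'.1 j]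
  have h1 : (((fib d u).biUnion fun v => (fib e v).filter fun x => B x).card : ℝ)
      = ∑ v ∈ fib d u, (((fib e v).filter fun x => B x).card : ℝ) := by
    rw [Finset.card_biUnion hd]
    push_cast
    rfl
  rw [← h1]
  have h2 : ((fib d u).biUnion fun v => (fib e v).filter fun x => B x)
      ⊆ (fib (d + e) u).filter fun x => B x := by
    intro x hx
    rw [Finset.mem_biUnion] at hx
    obtain ⟨v, hv, hx⟩ := hx
    rw [Finset.mem_filter] at hx ⊢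
    refine ⟨?_, hx.2⟩
    rw [pi_mem]
    intro j
    have h3 := (pi_mem e v x).1 hx.1 j
    have h4 := (pi_mem d u v).1 hv j
    rw [← h4, ← h3, Nat.div_div_eq_div_mul, ← pow_add, Nat.add_comm]
  exact_mod_cast Finset.card_le_card h2

theorem pi_fib_zero {s : ℕ} (u : Fin s → ℕ) : u ∈ fib 0 u := by
  rw [pi_mem]
  intro j
  simp

/-- the invariant -/
def pi_Inv {s : ℕ} (n0 : ℕ) (ε : ℝ) (B : ℕ → (Fin s → ℕ) → Prop) (i : ℕ) (u : Fin s → ℕ) : Prop :=
  ∀ j, j ≤ i → i ≤ j + n0 →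
    pi_N (B j) (2 ^ (j + n0) - 2 ^ i) u ≤ (2 * n0 : ℝ) ^ (i - j) * ε * ((2 : ℝ) ^ (2 ^ (j + n0) - 2 ^ i)) ^ s

theorem pi_step (s n0 : ℕ) (hn0 : 1 ≤ n0) (ε : ℝ) (hε : 0 < ε)
    (B : ℕ → (Fin s → ℕ) → Prop)
    (hB : ∀ i u, pi_N (B i) (2 ^ (i + n0) - 2 ^ i) u ≤ ε * ((2 : ℝ) ^ (2 ^ (i + n0) - 2 ^ i)) ^ s)
    (i : ℕ) (u : Fin s → ℕ) (hu : pi_Inv n0 ε B i u) :
    ∃ v ∈ fib (2 ^ (i + 1) - 2 ^ i) u, pi_Inv n0 ε B (i + 1) v := by
  by_contra hcon
  push Not at hcon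
  have hn : (0 : ℝ) < 2 * n0 := by
    have : (1 : ℝ) ≤ n0 := by exact_mod_cast hn0
    linarith
  set J : Finset ℕ := (Finset.range (i + 1)).filter fun j => i + 1 ≤ j + n0 with hJ
  have hJcard : (J.card : ℝ) ≤ n0 := by
    have hsub : J ⊆ Finset.Icc (i + 1 - n0) i := by
      intro j hj
      rw [hJ, Finset.mem_filter, Finset.mem_range] at hj
      rw [Finset.mem_Icc]
      omega
    have h1 := Finset.card_le_card hsub
    rw [Nat.card_Icc] at h1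
    have h2 : J.card ≤ n0 := by omega
    exact_mod_cast h2
  set T : ℕ → ℝ := fun j => (2 * n0 : ℝ) ^ (i + 1 - j) * ε
    * ((2 : ℝ) ^ (2 ^ (j + n0) - 2 ^ (i + 1))) ^ s with hT
  have hT0 : ∀ j, 0 < T j := by
    intro j
    rw [hT]
    positivity
  set W : ℝ := ((2 : ℝ) ^ (2 ^ (i + 1) - 2 ^ i)) ^ s with hW
  have hW0 : 0 < W := by positivity
  -- every child violates some `j ∈ J`
  have hviol : ∀ v ∈ fib (2 ^ (i + 1) - 2 ^ i) u, ∃ j ∈ J,
      T j < pi_N (B j) (2 ^ (j + n0) - 2 ^ (i + 1)) v := by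
    intro v hv
    have h1 := hcon v hv
    unfold pi_Inv at h1
    push Not at h1
    obtain ⟨j, hj1, hj2, hj3⟩ := h1
    rcases Nat.lt_or_ge j (i + 1) with hlt | hge
    · refine ⟨j, ?_, hj3⟩
      rw [hJ, Finset.mem_filter, Finset.mem_range]
      exact ⟨hlt, hj2⟩
    · exfalso
      have hji : j = i + 1 := le_antisymm hj1 hge
      subst hji
      have h2 := hB (i + 1) v
      rw [Nat.sub_self, pow_zero, one_mul] at hj3
      linarith
  -- number of violating children for `j`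
  have hcount : ∀ j ∈ J, (((fib (2 ^ (i + 1) - 2 ^ i) u).filter fun v =>
      T j < pi_N (B j) (2 ^ (j + n0) - 2 ^ (i + 1)) v).card : ℝ) ≤ W / (2 * n0) := by
    intro j hj
    rw [hJ, Finset.mem_filter, Finset.mem_range] at hj
    have hle1 : 2 ^ i ≤ 2 ^ (i + 1) := Nat.pow_le_pow_right (by norm_num) (by omega)
    have hle2 : 2 ^ (i + 1) ≤ 2 ^ (j + n0) := Nat.pow_le_pow_right (by norm_num) hj.2
    have hsplit : 2 ^ (j + n0) - 2 ^ i = (2 ^ (i + 1) - 2 ^ i) + (2 ^ (j + n0) - 2 ^ (i + 1)) := by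
      omega
    have h1 := pi_sub (B j) (2 ^ (i + 1) - 2 ^ i) (2 ^ (j + n0) - 2 ^ (i + 1)) u
    rw [← hsplit] at h1
    have h2 := hu j (by omega) (by omega)
    have h3 : (((fib (2 ^ (i + 1) - 2 ^ i) u).filter fun v =>
      T j < pi_N (B j) (2 ^ (j + n0) - 2 ^ (i + 1)) v).card : ℝ) * T j
        ≤ ∑ v ∈ fib (2 ^ (i + 1) - 2 ^ i) u, pi_N (B j) (2 ^ (j + n0) - 2 ^ (i + 1)) v := by
      rw [← nsmul_eq_mul, ← Finset.sum_const]
      calc ∑ _v ∈ (fib (2 ^ (i + 1) - 2 ^ i) u).filter (fun v =>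
            T j < pi_N (B j) (2 ^ (j + n0) - 2 ^ (i + 1)) v), T j
          ≤ ∑ v ∈ (fib (2 ^ (i + 1) - 2 ^ i) u).filter (fun v =>
            T j < pi_N (B j) (2 ^ (j + n0) - 2 ^ (i + 1)) v),
              pi_N (B j) (2 ^ (j + n0) - 2 ^ (i + 1)) v := by
            refine Finset.sum_le_sum fun v hv => ?_
            exact (Finset.mem_filter.1 hv).2.le
        _ ≤ ∑ v ∈ fib (2 ^ (i + 1) - 2 ^ i) u, pi_N (B j) (2 ^ (j + n0) - 2 ^ (i + 1)) v :=
            Finset.sum_le_sum_of_subset_of_nonneg (Finset.filter_subset _ _)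
              fun v _ _ => pi_N_nonneg _ _ _
    have h4 : (2 * n0 : ℝ) ^ (i - j) * ε * ((2 : ℝ) ^ (2 ^ (j + n0) - 2 ^ i)) ^ s
        = W / (2 * n0) * T j := by
      rw [hW, hT, hsplit]
      have e1 : i + 1 - j = (i - j) + 1 := by omega
      simp only [e1]
      rw [pow_add (2 : ℝ), mul_pow, pow_succ (2 * n0 : ℝ), div_mul_eq_mul_div, eq_div_iff hn.ne']
      ring
    have h5 : (((fib (2 ^ (i + 1) - 2 ^ i) u).filter fun v =>
      T j < pi_N (B j) (2 ^ (j + n0) - 2 ^ (i + 1)) v).card : ℝ) * T j ≤ W / (2 * n0) * T j := by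
      rw [← h4]
      exact h3.trans (h1.trans h2)
    exact le_of_mul_le_mul_right h5 (hT0 j)
  -- union bound
  have hcover : fib (2 ^ (i + 1) - 2 ^ i) u ⊆ J.biUnion fun j =>
      (fib (2 ^ (i + 1) - 2 ^ i) u).filter fun v =>
      T j < pi_N (B j) (2 ^ (j + n0) - 2 ^ (i + 1)) v := by
    intro v hv
    obtain ⟨j, hj, hj'⟩ := hviol v hv
    rw [Finset.mem_biUnion]
    exact ⟨j, hj, Finset.mem_filter.2 ⟨hv, hj'⟩⟩
  have h6 : ((fib (2 ^ (i + 1) - 2 ^ i) u).card : ℝ) ≤ ∑ j ∈ J,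
      (((fib (2 ^ (i + 1) - 2 ^ i) u).filter fun v =>
      T j < pi_N (B j) (2 ^ (j + n0) - 2 ^ (i + 1)) v).card : ℝ) := by
    have h7 := (Finset.card_le_card hcover).trans Finset.card_biUnion_le
    exact_mod_cast h7
  rw [card_fib] at h6
  have h8 : ∑ j ∈ J, (((fib (2 ^ (i + 1) - 2 ^ i) u).filter fun v =>
      T j < pi_N (B j) (2 ^ (j + n0) - 2 ^ (i + 1)) v).card : ℝ) ≤ J.card * (W / (2 * n0)) := by
    rw [← nsmul_eq_mul, ← Finset.sum_const]
    exact Finset.sum_le_sum hcount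
  have h9 : (J.card : ℝ) * (W / (2 * n0)) ≤ n0 * (W / (2 * n0)) := by
    gcongr
  have h10 : (n0 : ℝ) * (W / (2 * n0)) = W / 2 := by
    field_simp
  linarith

theorem greedy (s n0 : ℕ) (hn0 : 1 ≤ n0) (ε : ℝ) (hε : 0 ≤ ε) (hε1 : (2 * n0 : ℝ) ^ n0 * ε < 1)
    (B : ℕ → (Fin s → ℕ) → Prop)
    (hB : ∀ i u, (((fib (2 ^ (i + n0) - 2 ^ i) u).filter fun x => B i x).card : ℝ)
      ≤ ε * ((2 : ℝ) ^ (2 ^ (i + n0) - 2 ^ i)) ^ s) :
    ∃ x : ℕ → (Fin s → ℕ), (∀ i, x (i + 1) ∈ fib (2 ^ (i + 1) - 2 ^ i) (x i)) ∧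
      ∀ i, ¬ B i (x (i + n0)) := by
  have hn : (0 : ℝ) < (2 * n0 : ℝ) ^ n0 := by
    have : (1 : ℝ) ≤ n0 := by exact_mod_cast hn0
    positivity
  set ε' : ℝ := (ε + 1 / (2 * n0 : ℝ) ^ n0) / 2 with hε'
  have hε0 : 0 < ε' := by positivity
  have hle : ε ≤ ε' := by
    rw [hε']
    have : ε < 1 / (2 * n0 : ℝ) ^ n0 := by
      rw [lt_div_iff₀ hn]
      linarith
    linarith
  have hlt : (2 * n0 : ℝ) ^ n0 * ε' < 1 := by
    rw [hε']
    have : (2 * n0 : ℝ) ^ n0 * (1 / (2 * n0 : ℝ) ^ n0) = 1 := by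
      field_simp
    nlinarith
  have hB' : ∀ i u, pi_N (B i) (2 ^ (i + n0) - 2 ^ i) u
      ≤ ε' * ((2 : ℝ) ^ (2 ^ (i + n0) - 2 ^ i)) ^ s := by
    intro i u
    refine le_trans (hB i u) ?_
    gcongr
  have h0 : pi_Inv n0 ε' B 0 (fun _ => 0) := by
    intro j hj1 _
    have hj : j = 0 := by omega
    subst hj
    simpa using hB' 0 (fun _ => 0)
  have hstep := pi_step s n0 hn0 ε' hε0 B hB'
  let X : (i : ℕ) → {u : Fin s → ℕ // pi_Inv n0 ε' B i u} := fun i =>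
    Nat.rec ⟨fun _ => 0, h0⟩ (fun k p => ⟨(hstep k p.1 p.2).choose, (hstep k p.1 p.2).choose_spec.2⟩) i
  refine ⟨fun i => (X i).1, ?_, ?_⟩
  · intro i
    exact (hstep i (X i).1 (X i).2).choose_spec.1
  · intro i hBi
    have h1 := (X (i + n0)).2 i (by omega) le_rfl
    have h2 : (1 : ℝ) ≤ pi_N (B i) (2 ^ (i + n0) - 2 ^ (i + n0)) (X (i + n0)).1 := by
      unfold pi_N
      have h3 : (X (i + n0)).1 ∈ (fib (2 ^ (i + n0) - 2 ^ (i + n0)) (X (i + n0)).1).filter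
          fun x => B i x := by
        rw [Finset.mem_filter, Nat.sub_self]
        exact ⟨pi_fib_zero _, hBi⟩
      have h4 : 0 < ((fib (2 ^ (i + n0) - 2 ^ (i + n0)) (X (i + n0)).1).filter
          fun x => B i x).card := Finset.card_pos.2 ⟨_, h3⟩
      exact_mod_cast h4
    rw [Nat.sub_self (2 ^ (i + n0)), pow_zero, one_pow, mul_one, Nat.add_sub_cancel_left] at h1
    rw [Nat.sub_self] at h2
    linarith

end Pool.Agent.Lib.H50X
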