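import Pool.Agent.Lib.H50X.Defs

/-! # H50X, chunk PJ: the limit point.

`x_(i+1) ∈ fib (2^(i+1)-2^i) (x_i)` means `x_i/2^(2^i) ≤ x_(i+1)/2^(2^(i+1))` and
`(x_(i+1)+1)/2^(2^(i+1)) ≤ (x_i+1)/2^(2^i)` coordinatewise: nested closed intervals. Take `α_j` the supremum of the
left end points. -/

open scoped Classical

namespace Pool.Agent.Lib.H50X

theorem limit (s : ℕ) (x : ℕ → (Fin s → ℕ))
    (hx : ∀ i, x (i + 1) ∈ fib (2 ^ (i + 1) - 2 ^ i) (x i)) :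
    ∃ α : Fin s → ℝ, ∀ i j, |α j - pt (2 ^ i) (x i) j| ≤ 1 / 2 ^ (2 ^ i) := by
  have hstep : ∀ i j, (x i j : ℝ) / 2 ^ 2 ^ i ≤ (x (i + 1) j : ℝ) / 2 ^ 2 ^ (i + 1) ∧
      ((x (i + 1) j : ℝ) + 1) / 2 ^ 2 ^ (i + 1) ≤ ((x i j : ℝ) + 1) / 2 ^ 2 ^ i := by
    intro i j
    have h1 := hx i
    unfold fib at h1
    rw [Fintype.mem_piFinset] at h1
    have h2 := Finset.mem_Ico.1 (h1 j)
    have hle : 2 ^ i ≤ 2 ^ (i + 1) := Nat.pow_le_pow_right (by norm_num) (Nat.le_succ i)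
    have e : (2 : ℝ) ^ 2 ^ (i + 1) = 2 ^ (2 ^ (i + 1) - 2 ^ i) * 2 ^ 2 ^ i := by
      rw [← pow_add, Nat.sub_add_cancel hle]
    have h3 : (x i j : ℝ) * 2 ^ (2 ^ (i + 1) - 2 ^ i) ≤ x (i + 1) j := by exact_mod_cast h2.1
    have h4 : (x (i + 1) j : ℝ) + 1 ≤ ((x i j : ℝ) + 1) * 2 ^ (2 ^ (i + 1) - 2 ^ i) := by
      exact_mod_cast h2.2
    rw [e]
    constructor
    · rw [div_le_div_iff₀ (by positivity) (by positivity), ← mul_assoc]
      exact mul_le_mul_of_nonneg_right h3 (by positivity)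
    · rw [div_le_div_iff₀ (by positivity) (by positivity), ← mul_assoc]
      exact mul_le_mul_of_nonneg_right h4 (by positivity)
  refine ⟨fun j => ⨆ i, (x i j : ℝ) / 2 ^ 2 ^ i, fun i j => ?_⟩
  have hmono : Monotone fun i => (x i j : ℝ) / 2 ^ 2 ^ i :=
    monotone_nat_of_le_succ fun i => (hstep i j).1
  have hanti : Antitone fun i => ((x i j : ℝ) + 1) / 2 ^ 2 ^ i :=
    antitone_nat_of_succ_le fun i => (hstep i j).2
  have hle : (fun i => (x i j : ℝ) / 2 ^ 2 ^ i) ≤ fun i => ((x i j : ℝ) + 1) / 2 ^ 2 ^ i := by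
    intro i
    exact div_le_div_of_nonneg_right (by linarith) (by positivity)
  have h1 := hmono.ciSup_mem_iInter_Icc_of_antitone hanti hle
  rw [Set.mem_iInter] at h1
  have h2 := Set.mem_Icc.1 (h1 i)
  have h3 : ((x i j : ℝ) + 1) / 2 ^ 2 ^ i = (x i j : ℝ) / 2 ^ 2 ^ i + 1 / 2 ^ 2 ^ i := add_div _ _ _
  unfold pt
  rw [abs_le]
  have h4 : (0 : ℝ) ≤ 1 / 2 ^ 2 ^ i := by positivity
  constructor
  · linarith [h2.1]
  · linarith [h2.2]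

end Pool.Agent.Lib.H50X
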