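import Pool.Agent.Lib.H50X.PC
import Pool.Agent.Lib.H50X.BA

/-! # H50X, chunk PK: from the grid point to the limit point.

Let `p = pt ρ x`, `ρ = 2^(i+n0)`, `|α_j - p_j| ≤ 2^(-ρ)`, `x` not bad for block `i+1`.
* `h ∈ hblk s (i+1)`: `|dot h α - dot h p| ≤ ∑_j |h_j| 2^(-ρ) ≤ s 2^(2^(i+2)) 2^(-ρ) ≤ xz/2` by `Hn`
  (`bb h ≤ s 2^(i+2)`), and `nn(dot h p) ≥ xz`, so `nn(dot h α) ≥ nn(dot h p)/2 ≥ xz/2 > 0` (`abs_nn_sub_le`), hence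
  `TT α h ≤ 2 TT p h` and `gg (TT α h) ≤ 4 gg (TT p h)`. Sum: third alternative of `Bad` fails.
* `a ∈ ablk s (i+1)`, `|m| < 2^(∑ a)`, `nn(m α_j) 2^(a_j) < 1`: `nn(m p_j) 2^(a_j) < 1 + |m| 2^(-ρ) 2^(a_j) ≤ 2`
  by `Hn` (`∑ a + a_j ≤ (s+1) 2^(i+2)`, `κ ≤ 1`), so `QQ 1 α a L ≤ QQ 2 p a L`. -/

open scoped Classical

namespace Pool.Agent.Lib.H50X

/-- the third power of two in `Hn` -/
theorem pk_bb (s i : ℕ) (h : Fin s → ℤ) (hh : h ∈ hblk s (i + 1)) :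
    bb h ≤ s * 2 ^ (i + 2) ∧ ∀ j, |(h j : ℝ)| ≤ 2 ^ 2 ^ (i + 2) := by
  have h1 := ((mem_hblk s (i + 1) h).1 hh).2
  constructor
  · unfold bb
    refine (Finset.sum_le_sum fun j _ => (h1 j).le).trans (le_of_eq ?_)
    rw [Finset.sum_const, Finset.card_univ, Fintype.card_fin, smul_eq_mul]
  · intro j
    refine (abs_lt_two_pow_sz (h j)).le.trans ?_
    exact pow_le_pow_right₀ (by norm_num) (h1 j).le

theorem pk_close (s n0 : ℕ) (κ : ℝ) (H : Hn s n0 κ) (i : ℕ)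
    (p : Fin s → ℝ) (α : Fin s → ℝ) (hα : ∀ j, |α j - p j| ≤ 1 / 2 ^ (2 ^ (i + n0)))
    (h : Fin s → ℤ) (hh : h ∈ hblk s (i + 1)) :
    |dot h α - dot h p| ≤ xz κ s (i + 1) h / 2 := by
  obtain ⟨hb1, hb2⟩ := pk_bb s i h hh
  obtain ⟨ρ, hρ⟩ : ∃ ρ : ℕ, ρ = 2 ^ (i + n0) := ⟨_, rfl⟩
  have hH := H i
  rw [← hρ] at hα hH
  have h1 : |dot h α - dot h p| ≤ s * 2 ^ 2 ^ (i + 2) * (1 / 2 ^ ρ) := by
    unfold dot
    rw [← Finset.sum_sub_distrib]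
    refine (Finset.abs_sum_le_sum_abs _ _).trans ?_
    have h2 : ∀ j ∈ Finset.univ, |(h j : ℝ) * α j - h j * p j| ≤ 2 ^ 2 ^ (i + 2) * (1 / 2 ^ ρ) := by
      intro j _
      rw [← mul_sub, abs_mul]
      exact mul_le_mul (hb2 j) (hα j) (abs_nonneg _) (by positivity)
    refine (Finset.sum_le_sum h2).trans (le_of_eq ?_)
    rw [Finset.sum_const, Finset.card_univ, Fintype.card_fin, nsmul_eq_mul]
    ring
  refine h1.trans ?_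
  unfold xz
  rw [div_div, mul_one_div, div_le_div_iff₀ (by positivity) (by positivity)]
  refine le_trans ?_ hH
  have h3 : (2 : ℝ) ^ bb h ≤ 2 ^ (s * 2 ^ (i + 2)) := pow_le_pow_right₀ (by norm_num) hb1
  have e1 : (2 : ℝ) ^ ((s + 1) * 2 ^ (i + 2)) = 2 ^ (s * 2 ^ (i + 2)) * 2 ^ 2 ^ (i + 2) := by
    rw [← pow_add]
    congr 1
    ring
  rw [e1]
  calc (s : ℝ) * 2 ^ 2 ^ (i + 2) * (2 ^ bb h * (2 ^ (i + 1)) ^ s * 2)
      = 2 * (s : ℝ) * (2 ^ bb h * 2 ^ 2 ^ (i + 2)) * (2 ^ (i + 1)) ^ s := by ring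
    _ ≤ 2 * ((s : ℝ) + 1) * (2 ^ (s * 2 ^ (i + 2)) * 2 ^ 2 ^ (i + 2)) * (2 ^ (i + 1)) ^ s := by
        apply mul_le_mul_of_nonneg_right _ (by positivity)
        apply mul_le_mul (by linarith) _ (by positivity) (by positivity)
        exact mul_le_mul_of_nonneg_right h3 (by positivity)

theorem pk_half (s n0 : ℕ) (κ Λ Λ' : ℝ) (hκ : 0 < κ) (H : Hn s n0 κ) (i : ℕ)
    (x : Fin s → ℕ) (hx : ¬ Bad s n0 κ Λ Λ' i x) (α : Fin s → ℝ)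
    (hα : ∀ j, |α j - pt (2 ^ (i + n0)) x j| ≤ 1 / 2 ^ (2 ^ (i + n0)))
    (h : Fin s → ℤ) (hh : h ∈ hblk s (i + 1)) :
    0 < xz κ s (i + 1) h ∧ xz κ s (i + 1) h ≤ nn (dot h (pt (2 ^ (i + n0)) x)) ∧
      nn (dot h (pt (2 ^ (i + n0)) x)) / 2 ≤ nn (dot h α) := by
  have hxz : 0 < xz κ s (i + 1) h := by
    unfold xz
    positivity
  unfold Bad at hx
  push Not at hx
  have h1 := hx.1 h hh
  have h2 := (abs_nn_sub_le (dot h α) (dot h (pt (2 ^ (i + n0)) x))).trans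
    (pk_close s n0 κ H i _ α hα h hh)
  have h3 := (abs_le.1 h2).1
  exact ⟨hxz, h1, by linarith⟩

theorem transfer_pos (s n0 : ℕ) (κ Λ Λ' : ℝ) (hκ : 0 < κ) (hκ1 : κ ≤ 1) (H : Hn s n0 κ) (i : ℕ)
    (x : Fin s → ℕ) (hx : ¬ Bad s n0 κ Λ Λ' i x) (α : Fin s → ℝ)
    (hα : ∀ j, |α j - pt (2 ^ (i + n0)) x j| ≤ 1 / 2 ^ (2 ^ (i + n0)))
    (h : Fin s → ℤ) (hh : h ∈ hblk s (i + 1)) : 0 < nn (dot h α) := by
  obtain ⟨h1, h2, h3⟩ := pk_half s n0 κ Λ Λ' hκ H i x hx α hα h hh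
  linarith

theorem pk_gg (T T' : ℝ) (h0 : 0 ≤ T) (h0' : 0 ≤ T') (h : T ≤ 2 * T') : gg T ≤ 4 * gg T' := by
  unfold gg
  rw [mul_min_of_nonneg _ _ (by norm_num)]
  apply min_le_min
  · linarith
  · nlinarith

theorem transfer_S (s n0 : ℕ) (κ Λ Λ' : ℝ) (hκ : 0 < κ) (hκ1 : κ ≤ 1) (H : Hn s n0 κ) (i : ℕ)
    (x : Fin s → ℕ) (hx : ¬ Bad s n0 κ Λ Λ' i x) (α : Fin s → ℝ)
    (hα : ∀ j, |α j - pt (2 ^ (i + n0)) x j| ≤ 1 / 2 ^ (2 ^ (i + n0))) :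
    ∑ h ∈ hblk s (i + 1), gg (TT α h) ≤ 4 * Λ' * (2 ^ (i + 1)) ^ s * (i + 1) := by
  have h4 : ∑ h ∈ hblk s (i + 1), (if xz κ s (i + 1) h ≤ nn (dot h (pt (2 ^ (i + n0)) x))
      then gg (TT (pt (2 ^ (i + n0)) x) h) else 0) ≤ Λ' * (2 ^ (i + 1)) ^ s * (i + 1) := by
    by_contra hcon
    exact hx (Or.inr (Or.inr (not_le.1 hcon)))
  have h5 : ∀ h ∈ hblk s (i + 1), gg (TT α h) ≤
      4 * (if xz κ s (i + 1) h ≤ nn (dot h (pt (2 ^ (i + n0)) x))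
        then gg (TT (pt (2 ^ (i + n0)) x) h) else 0) := by
    intro h hh
    obtain ⟨h1, h2, h3⟩ := pk_half s n0 κ Λ Λ' hκ H i x hx α hα h hh
    rw [if_pos h2]
    obtain ⟨y, hy⟩ : ∃ y : ℝ, y = nn (dot h (pt (2 ^ (i + n0)) x)) := ⟨_, rfl⟩
    obtain ⟨z, hz⟩ : ∃ z : ℝ, z = nn (dot h α) := ⟨_, rfl⟩
    rw [← hy] at h2 h3
    rw [← hz] at h3
    have hy0 : 0 < y := by linarith
    have hz0 : 0 < z := by linarith
    unfold TT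
    rw [← hy, ← hz]
    apply pk_gg _ _ (by positivity) (by positivity)
    rw [mul_one_div, div_le_div_iff₀ (by positivity) (by positivity)]
    have h6 : (0 : ℝ) < 2 ^ bb h := by positivity
    nlinarith
  refine (Finset.sum_le_sum h5).trans ?_
  rw [← Finset.mul_sum]
  linarith

theorem transfer_Q (s n0 : ℕ) (κ Λ Λ' : ℝ) (hκ : 0 < κ) (hκ1 : κ ≤ 1) (H : Hn s n0 κ) (i : ℕ)
    (x : Fin s → ℕ) (hx : ¬ Bad s n0 κ Λ Λ' i x) (α : Fin s → ℝ)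
    (hα : ∀ j, |α j - pt (2 ^ (i + n0)) x j| ≤ 1 / 2 ^ (2 ^ (i + n0))) :
    ∑ a ∈ ablk s (i + 1), (QQ 1 α a (2 ^ ∑ j, a j) : ℝ) ≤ Λ * (2 ^ (i + 1)) ^ s := by
  have h4 : ∑ a ∈ ablk s (i + 1), (QQ 2 (pt (2 ^ (i + n0)) x) a (2 ^ ∑ j, a j) : ℝ) ≤
      Λ * (2 ^ (i + 1)) ^ s := by
    by_contra hcon
    exact hx (Or.inr (Or.inl (not_le.1 hcon)))
  refine le_trans (Finset.sum_le_sum fun a ha => ?_) h4
  have hcard : QQ 1 α a (2 ^ ∑ j, a j) ≤ QQ 2 (pt (2 ^ (i + n0)) x) a (2 ^ ∑ j, a j) := by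
    unfold QQ
    apply Finset.card_le_card
    intro m hm
    rw [Finset.mem_filter, Finset.mem_Ioo] at hm ⊢
    refine ⟨hm.1, fun j => ?_⟩
    obtain ⟨ρ, hρ⟩ : ∃ ρ : ℕ, ρ = 2 ^ (i + n0) := ⟨_, rfl⟩
    have hH := H i
    have hαj := hα j
    rw [← hρ] at hαj hH
    rw [← hρ]
    have hm1 : |(m : ℝ)| ≤ 2 ^ ∑ j, a j := by
      have h5 : |m| < ((2 ^ ∑ j, a j : ℕ) : ℤ) := abs_lt.2 hm.1
      have h6 : ((|m| : ℤ) : ℝ) < (((2 ^ ∑ j, a j : ℕ) : ℤ) : ℝ) := by exact_mod_cast h5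
      push_cast at h6
      exact h6.le
    have h7 := abs_nn_sub_le ((m : ℝ) * pt ρ x j) ((m : ℝ) * α j)
    have h8 : |(m : ℝ) * pt ρ x j - (m : ℝ) * α j| ≤ 2 ^ (∑ j, a j) * (1 / 2 ^ ρ) := by
      rw [← mul_sub, abs_mul, abs_sub_comm]
      exact mul_le_mul hm1 hαj (abs_nonneg _) (by positivity)
    have h9 := (abs_le.1 (h7.trans h8)).2
    have h10 := hm.2 j
    have haj := ((mem_ablk s (i + 1) a).1 ha).2
    have h11 : ∑ j, a j + a j ≤ (s + 1) * 2 ^ (i + 2) := by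
      have h12 : ∑ j, a j ≤ s * 2 ^ (i + 2) := by
        refine (Finset.sum_le_sum fun j _ => (haj j).le).trans (le_of_eq ?_)
        rw [Finset.sum_const, Finset.card_univ, Fintype.card_fin, smul_eq_mul]
      have h13 := haj j
      have e : (s + 1) * 2 ^ (i + 2) = s * 2 ^ (i + 2) + 2 ^ (i + 2) := by ring
      have e2 : (2 : ℕ) ^ (i + 1 + 1) = 2 ^ (i + 2) := rfl
      rw [e]
      omega
    have h12 : (2 : ℝ) ^ (∑ j, a j + a j) ≤ 2 ^ ρ := by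
      have h13 : (2 : ℝ) ^ (∑ j, a j + a j) ≤ 2 ^ ((s + 1) * 2 ^ (i + 2)) :=
        pow_le_pow_right₀ (by norm_num) h11
      obtain ⟨Y, hY⟩ : ∃ Y : ℝ, Y = 2 ^ ((s + 1) * 2 ^ (i + 2)) := ⟨_, rfl⟩
      rw [← hY] at h13 hH
      have hY0 : 0 < Y := by rw [hY]; positivity
      have h14 : (1 : ℝ) ≤ (2 ^ (i + 1)) ^ s := one_le_pow₀ (one_le_pow₀ (by norm_num))
      have h15 : Y ≤ 2 * ((s : ℝ) + 1) * Y * (2 ^ (i + 1)) ^ s := by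
        have hs0 : (0 : ℝ) ≤ s := Nat.cast_nonneg s
        have h16 : Y ≤ 2 * ((s : ℝ) + 1) * Y := by nlinarith
        exact h16.trans (le_mul_of_one_le_right (by positivity) h14)
      have h16 : κ * (2 : ℝ) ^ ρ ≤ 2 ^ ρ := by
        have : (0 : ℝ) < 2 ^ ρ := by positivity
        nlinarith
      linarith
    have h13 : 2 ^ (∑ j, a j) * (1 / 2 ^ ρ) * (2 : ℝ) ^ a j ≤ 1 := by
      rw [mul_one_div, div_mul_eq_mul_div, div_le_one (by positivity), ← pow_add]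
      exact h12
    have h14 : (0 : ℝ) < 2 ^ a j := by positivity
    have h15 : nn ((m : ℝ) * pt ρ x j) * 2 ^ a j ≤
        (nn ((m : ℝ) * α j) + 2 ^ (∑ j, a j) * (1 / 2 ^ ρ)) * 2 ^ a j :=
      mul_le_mul_of_nonneg_right (by linarith) h14.le
    rw [add_mul] at h15
    linarith
  exact_mod_cast hcard

end Pool.Agent.Lib.H50X
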