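import Pool.Agent.Lib.H50X.PC
import Pool.Agent.Lib.H50X.BA

/-! # H50X, chunk PL: no frequency vanishes.

Let `h ≠ 0`, `M = max_j sz (h j) ≥ 1`. Choose `i` with `M ≤ 2^(i+1)` and `m = 2^(i+1) - M`; `h' = 2^m h` has
`sz (h'_j) = sz (h_j) + m` for `h_j ≠ 0` and `0` otherwise (`sz_two_pow_mul`), so its maximal size is `2^(i+1)` and
`h' ∈ hblk s (i+1)` (`mem_hblk`). `0 < nn (dot h' α) ≤ 2^m nn (dot h α)` (`nn_int_mul_le`). -/

open scoped Classical

namespace Pool.Agent.Lib.H50X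

theorem nonvanishing (s : ℕ) (α : Fin s → ℝ)
    (H : ∀ i, ∀ h ∈ hblk s (i + 1), 0 < nn (dot h α)) (h : Fin s → ℤ) (hh : h ≠ 0) :
    nn (dot h α) ≠ 0 := by
  obtain ⟨j0, hj0⟩ : ∃ j, h j ≠ 0 := by
    by_contra hcon
    push Not at hcon
    exact hh (funext hcon)
  obtain ⟨j1, _, hj1⟩ := Finset.exists_max_image Finset.univ (fun j => sz (h j))
    ⟨j0, Finset.mem_univ _⟩
  set M := sz (h j1) with hM
  have hle : ∀ j, sz (h j) ≤ M := fun j => hj1 j (Finset.mem_univ j)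
  have hM1 : 1 ≤ M := by
    have h1 := hle j0
    have h2 : sz (h j0) ≠ 0 := fun h => hj0 ((sz_zero_iff _).1 h)
    omega
  have hj1' : h j1 ≠ 0 := by
    intro h0
    have : sz (h j1) = 0 := (sz_zero_iff _).2 h0
    omega
  have hMi : M ≤ 2 ^ (M + 1) := by
    have : M + 1 < 2 ^ (M + 1) := Nat.lt_two_pow_self
    omega
  set m := 2 ^ (M + 1) - M with hm
  have hmem : (fun j => 2 ^ m * h j) ∈ hblk s (M + 1) := by
    rw [mem_hblk]
    refine ⟨⟨j1, ?_⟩, fun j => ?_⟩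
    · rw [sz_two_pow_mul (h j1) hj1' m, ← hM]
      omega
    · have e2 : 2 ^ (M + 1 + 1) = 2 * 2 ^ (M + 1) := by ring
      by_cases h0 : h j = 0
      · rw [h0, mul_zero, (sz_zero_iff 0).2 rfl]
        positivity
      · rw [sz_two_pow_mul (h j) h0 m, e2]
        have := hle j
        omega
  have h1 := H M _ hmem
  have e : dot (fun j => 2 ^ m * h j) α = ((2 ^ m : ℤ) : ℝ) * dot h α := by
    unfold dot
    rw [Finset.mul_sum]
    refine Finset.sum_congr rfl fun j _ => ?_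
    push_cast
    ring
  rw [e] at h1
  intro h0
  have h2 := nn_int_mul_le (2 ^ m) (dot h α)
  rw [h0, mul_zero] at h2
  linarith

end Pool.Agent.Lib.H50X
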