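import Pool.Agent.Lib.H50X.PC

/-! # H50X, chunk PM1 (sum_blocks_Q): summing over the blocks.

`F ⊂` {all `v` with `wt v ≤ K`}; each `v` with a coordinate `≥ 2` lies in exactly one block `i+1` with
`2^(i+1) ≤ K` (the maximal coordinate size is in `[2^(i+1), 2^(i+2))` and at most `K`).
`sum_blocks_Q`: `boxes s K ⊂ {a : ∀ j, a j ≤ 1} ∪ ⋃_{i : 2^(i+1) ≤ K} ablk s (i+1)` (`mem_boxes`, `mem_ablk`), so the sum is
`≤ ∑_{a ∈ {0,1}^s} + ∑_{i : 2^(i+1) ≤ K} Λ (2^(i+1))^s ≤ C0 + 2 Λ K^s` for `s ≥ 1` (geometric series: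
`∑_{i} (2^(i+1))^s ≤ 2 (2^(i_max+1))^s ≤ 2 K^s`).
`sum_blocks_S`: the same with `hset s R ⊂ {h ≠ 0 : ∀ j, sz (h j) ≤ 1} ∪ ⋃ hblk s (i+1)`; `i + 1 ≤ log_2 R`. -/

open scoped Classical

namespace Pool.Agent.Lib.H50X

theorem pm1_union {α : Type*} [DecidableEq α] (A B : Finset α) (f : α → ℝ) (hf : ∀ a, 0 ≤ f a) :
    ∑ a ∈ A ∪ B, f a ≤ ∑ a ∈ A, f a + ∑ a ∈ B, f a := by
  rw [← Finset.sum_union_inter]
  have := Finset.sum_nonneg (s := A ∩ B) fun a _ => hf a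
  linarith

theorem pm1_biU {ι α : Type*} [DecidableEq α] (I : Finset ι) (t : ι → Finset α) (f : α → ℝ) (hf : ∀ a, 0 ≤ f a) :
    ∑ a ∈ I.biUnion t, f a ≤ ∑ i ∈ I, ∑ a ∈ t i, f a := by
  induction I using Finset.induction_on with
  | empty => simp
  | insert i I hi ih =>
    rw [Finset.biUnion_insert, Finset.sum_insert hi]
    exact (pm1_union _ _ f hf).trans (by linarith)

theorem pm1_geom (L : ℕ) : ∑ i ∈ Finset.range L, (2 : ℝ) ^ (i + 1) ≤ 2 * 2 ^ L := by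
  have h1 : ∑ i ∈ Finset.range L, (2 : ℝ) ^ (i + 1) = 2 * 2 ^ L - 2 := by
    induction L with
    | zero => norm_num
    | succ n ih =>
      rw [Finset.sum_range_succ, ih]
      ring
  linarith

theorem pm1_pow (s : ℕ) (hs : 1 ≤ s) (K : ℕ) (hK : 1 ≤ K) :
    ∑ i ∈ Finset.range (Nat.log 2 K), ((2 : ℝ) ^ (i + 1)) ^ s ≤ 2 * (K : ℝ) ^ s := by
  obtain ⟨t, rfl⟩ : ∃ t, s = t + 1 := ⟨s - 1, by omega⟩
  have h1 : ∀ i ∈ Finset.range (Nat.log 2 K), ((2 : ℝ) ^ (i + 1)) ^ (t + 1) ≤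
      (K : ℝ) ^ t * 2 ^ (i + 1) := by
    intro i hi
    have h2 : 2 ^ (i + 1) ≤ K := by
      have := Finset.mem_range.1 hi
      exact (Nat.pow_le_pow_right (by norm_num) this).trans (Nat.pow_log_le_self 2 (by omega))
    have h3 : ((2 : ℝ) ^ (i + 1)) ≤ K := by exact_mod_cast h2
    rw [pow_succ]
    exact mul_le_mul_of_nonneg_right (pow_le_pow_left₀ (by positivity) h3 t) (by positivity)
  refine (Finset.sum_le_sum h1).trans ?_
  rw [← Finset.mul_sum]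
  have h2 : (2 : ℝ) ^ Nat.log 2 K ≤ K := by
    exact_mod_cast Nat.pow_log_le_self 2 (by omega)
  calc (K : ℝ) ^ t * ∑ i ∈ Finset.range (Nat.log 2 K), (2 : ℝ) ^ (i + 1) ≤
      (K : ℝ) ^ t * (2 * K) := mul_le_mul_of_nonneg_left ((pm1_geom _).trans (by linarith))
        (by positivity)
    _ = _ := by ring

/-- the block of the maximal coordinate -/
theorem pm1_block {s : ℕ} (w : Fin s → ℕ) (K : ℕ) (hK : ∀ j, w j ≤ K) (h : ¬ ∀ j, w j ≤ 1) :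
    ∃ i ∈ Finset.range (Nat.log 2 K), (∃ j, 2 ^ (i + 1) ≤ w j) ∧ ∀ j, w j < 2 ^ (i + 1 + 1) := by
  push Not at h
  obtain ⟨j0, hj0⟩ := h
  obtain ⟨j, _, hj⟩ := Finset.exists_max_image Finset.univ w ⟨j0, Finset.mem_univ _⟩
  have h2 : 2 ≤ w j := by
    have := hj j0 (Finset.mem_univ _)
    omega
  have h3 : 1 ≤ Nat.log 2 (w j) := by
    exact Nat.le_log_of_pow_le (by norm_num) (by omega)
  have h4 : Nat.log 2 (w j) ≤ Nat.log 2 K := Nat.log_mono_right (hK j)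
  refine ⟨Nat.log 2 (w j) - 1, Finset.mem_range.2 (by omega), ⟨j, ?_⟩, fun j' => ?_⟩
  · rw [Nat.sub_add_cancel h3]
    exact Nat.pow_log_le_self 2 (by omega)
  · rw [Nat.sub_add_cancel h3]
    exact lt_of_le_of_lt (hj j' (Finset.mem_univ _)) (Nat.lt_pow_succ_log_self (by norm_num) _)

theorem sum_blocks_Q (s : ℕ) (hs : 1 ≤ s) (q : (Fin s → ℕ) → ℝ) (hq : ∀ a, 0 ≤ q a) (Λ : ℝ)
    (hΛ : 0 ≤ Λ) (H : ∀ i : ℕ, ∑ a ∈ ablk s (i + 1), q a ≤ Λ * (2 ^ (i + 1)) ^ s) :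
    ∃ C : ℝ, ∀ K : ℕ, 1 ≤ K → ∑ a ∈ boxes s K, q a ≤ C * (K : ℝ) ^ s := by
  set S0 : Finset (Fin s → ℕ) := Fintype.piFinset fun _ : Fin s => Finset.range 2 with hS0
  have hC0 : 0 ≤ ∑ a ∈ S0, q a := Finset.sum_nonneg fun a _ => hq a
  refine ⟨∑ a ∈ S0, q a + 2 * Λ, fun K hK => ?_⟩
  have hsub : boxes s K ⊆ S0 ∪ (Finset.range (Nat.log 2 K)).biUnion fun i => ablk s (i + 1) := by
    intro a ha
    rw [mem_boxes] at ha
    rw [Finset.mem_union]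
    by_cases h : ∀ j, a j ≤ 1
    · left
      rw [hS0, Fintype.mem_piFinset]
      intro j
      rw [Finset.mem_range]
      have := h j
      omega
    · right
      obtain ⟨i, hi, h1, h2⟩ := pm1_block a K (fun j => by
        have h4 : a j ≤ ∑ j, a j := Finset.single_le_sum (f := fun j => a j)
          (fun _ _ => Nat.zero_le _) (Finset.mem_univ j)
        omega) h
      rw [Finset.mem_biUnion]
      exact ⟨i, hi, (mem_ablk s (i + 1) a).2 ⟨h1, h2⟩⟩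
  have h1 : ∑ a ∈ boxes s K, q a ≤ ∑ a ∈ S0, q a +
      ∑ i ∈ Finset.range (Nat.log 2 K), ∑ a ∈ ablk s (i + 1), q a := by
    refine (Finset.sum_le_sum_of_subset_of_nonneg hsub fun a _ _ => hq a).trans ?_
    exact (pm1_union _ _ q hq).trans (by
      have h3 := pm1_biU (Finset.range (Nat.log 2 K)) (fun i => ablk s (i + 1)) q hq
      linarith only [h3])
  have h2 : ∑ i ∈ Finset.range (Nat.log 2 K), ∑ a ∈ ablk s (i + 1), q a ≤ Λ * (2 * (K : ℝ) ^ s) := by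
    refine (Finset.sum_le_sum fun i _ => H i).trans ?_
    rw [← Finset.mul_sum]
    exact mul_le_mul_of_nonneg_left (pm1_pow s hs K hK) hΛ
  have h3 : (1 : ℝ) ≤ (K : ℝ) ^ s := one_le_pow₀ (by exact_mod_cast hK)
  have h4 : ∑ a ∈ S0, q a ≤ (∑ a ∈ S0, q a) * (K : ℝ) ^ s := le_mul_of_one_le_right hC0 h3
  linarith

end Pool.Agent.Lib.H50X
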