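import Pool.Agent.Lib.H50X.PM1

/-! # H50X, chunk PM2 (sum_blocks_S): summing over the blocks.

`F ⊂` {all `v` with `wt v ≤ K`}; each `v` with a coordinate `≥ 2` lies in exactly one block `i+1` with
`2^(i+1) ≤ K` (the maximal coordinate size is in `[2^(i+1), 2^(i+2))` and at most `K`).
`sum_blocks_Q`: `boxes s K ⊂ {a : ∀ j, a j ≤ 1} ∪ ⋃_{i : 2^(i+1) ≤ K} ablk s (i+1)` (`mem_boxes`, `mem_ablk`), so the sum is
`≤ ∑_{a ∈ {0,1}^s} + ∑_{i : 2^(i+1) ≤ K} Λ (2^(i+1))^s ≤ C0 + 2 Λ K^s` for `s ≥ 1` (geometric series: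
`∑_{i} (2^(i+1))^s ≤ 2 (2^(i_max+1))^s ≤ 2 K^s`).
`sum_blocks_S`: the same with `hset s R ⊂ {h ≠ 0 : ∀ j, sz (h j) ≤ 1} ∪ ⋃ hblk s (i+1)`; `i + 1 ≤ log_2 R`. -/

open scoped Classical

namespace Pool.Agent.Lib.H50X

theorem sum_blocks_S (s : ℕ) (hs : 1 ≤ s) (g : (Fin s → ℤ) → ℝ) (hg : ∀ h, 0 ≤ g h) (Λ : ℝ)
    (hΛ : 0 ≤ Λ) (H : ∀ i : ℕ, ∑ h ∈ hblk s (i + 1), g h ≤ Λ * (2 ^ (i + 1)) ^ s * (i + 1)) :
    ∃ C : ℝ, ∀ R : ℕ, 1 ≤ R → ∑ h ∈ hset s R, g h ≤ C * (R : ℝ) ^ s * (1 + Real.log R) := by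
  set S0 : Finset (Fin s → ℤ) := Fintype.piFinset fun _ : Fin s => Finset.Icc (-1) 1 with hS0
  have hC0 : 0 ≤ ∑ a ∈ S0, g a := Finset.sum_nonneg fun a _ => hg a
  refine ⟨∑ a ∈ S0, g a + 4 * Λ, fun R hR => ?_⟩
  have hsub : hset s R ⊆ S0 ∪ (Finset.range (Nat.log 2 R)).biUnion fun i => hblk s (i + 1) := by
    intro a ha
    rw [mem_hset] at ha
    rw [Finset.mem_union]
    by_cases h : ∀ j, sz (a j) ≤ 1
    · left
      rw [hS0, Fintype.mem_piFinset]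
      intro j
      rw [Finset.mem_Icc]
      have h1 := pc_abs_int (a j)
      have h2 : (2 : ℤ) ^ sz (a j) ≤ 2 ^ 1 := pow_le_pow_right₀ (by norm_num) (h j)
      have h3 := abs_lt.1 (lt_of_lt_of_le h1 h2)
      constructor <;> omega
    · right
      obtain ⟨i, hi, h1, h2⟩ := pm1_block (fun j => sz (a j)) R (fun j => by
        have h4 : sz (a j) ≤ bb a := Finset.single_le_sum (f := fun j => sz (a j))
          (fun _ _ => Nat.zero_le _) (Finset.mem_univ j)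
        exact h4.trans ha.2) h
      rw [Finset.mem_biUnion]
      exact ⟨i, hi, (mem_hblk s (i + 1) a).2 ⟨h1, h2⟩⟩
  have h1 : ∑ a ∈ hset s R, g a ≤ ∑ a ∈ S0, g a +
      ∑ i ∈ Finset.range (Nat.log 2 R), ∑ a ∈ hblk s (i + 1), g a := by
    refine (Finset.sum_le_sum_of_subset_of_nonneg hsub fun a _ _ => hg a).trans ?_
    exact (pm1_union _ _ g hg).trans (by
      have h3 := pm1_biU (Finset.range (Nat.log 2 R)) (fun i => hblk s (i + 1)) g hg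
      linarith only [h3])
  have hR1 : (1 : ℝ) ≤ R := by exact_mod_cast hR
  have hlog0 : 0 ≤ Real.log R := Real.log_nonneg hR1
  have hL : ((Nat.log 2 R : ℕ) : ℝ) ≤ 2 * Real.log R := by
    have h2 : ((2 : ℝ)) ^ Nat.log 2 R ≤ R := by
      exact_mod_cast Nat.pow_log_le_self 2 (by omega)
    have h3 := Real.log_le_log (by positivity) h2
    rw [Real.log_pow] at h3
    have h4 : (1 / 2 : ℝ) ≤ Real.log 2 := by
      have := Real.log_two_gt_d9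
      linarith
    have h5 : (0 : ℝ) ≤ (Nat.log 2 R : ℕ) := Nat.cast_nonneg _
    nlinarith
  have h2 : ∑ i ∈ Finset.range (Nat.log 2 R), ∑ a ∈ hblk s (i + 1), g a ≤
      Λ * (2 * (R : ℝ) ^ s) * (2 * Real.log R) := by
    have h3 : ∀ i ∈ Finset.range (Nat.log 2 R), ∑ a ∈ hblk s (i + 1), g a ≤
        Λ * (2 * Real.log R) * (2 ^ (i + 1)) ^ s := by
      intro i hi
      refine (H i).trans ?_
      have h4 : ((i : ℝ) + 1) ≤ 2 * Real.log R := by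
        have h5 := Finset.mem_range.1 hi
        have h6 : ((i + 1 : ℕ) : ℝ) ≤ ((Nat.log 2 R : ℕ) : ℝ) := by exact_mod_cast h5
        push_cast at h6
        linarith
      calc Λ * (2 ^ (i + 1)) ^ s * ((i : ℝ) + 1) ≤ Λ * (2 ^ (i + 1)) ^ s * (2 * Real.log R) :=
            mul_le_mul_of_nonneg_left h4 (by positivity)
        _ = _ := by ring
    refine (Finset.sum_le_sum h3).trans ?_
    rw [← Finset.mul_sum]
    calc _ ≤ Λ * (2 * Real.log R) * (2 * (R : ℝ) ^ s) :=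
          mul_le_mul_of_nonneg_left (pm1_pow s hs R hR) (by positivity)
      _ = _ := by ring
  have h3 : (1 : ℝ) ≤ (R : ℝ) ^ s := one_le_pow₀ hR1
  have h4 : ∑ a ∈ S0, g a ≤ (∑ a ∈ S0, g a) * ((R : ℝ) ^ s * (1 + Real.log R)) := by
    refine le_mul_of_one_le_right hC0 ?_
    nlinarith
  have h5 : 0 ≤ Λ * (R : ℝ) ^ s := by positivity
  calc ∑ a ∈ hset s R, g a ≤ (∑ a ∈ S0, g a) * ((R : ℝ) ^ s * (1 + Real.log R)) +
        Λ * (2 * (R : ℝ) ^ s) * (2 * Real.log R) := by linarith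
    _ = (∑ a ∈ S0, g a + 4 * Λ) * (R : ℝ) ^ s * (1 + Real.log R) - 4 * (Λ * (R : ℝ) ^ s) := by ring
    _ ≤ _ := by linarith

end Pool.Agent.Lib.H50X
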