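import Pool.Agent.Lib.H50X.Defs

/-! # H50X, chunk PN: the constants (PURE numbers).

For `n0 ≥ 1` put `κ = 1/(54·2^s·(2 n0)^n0)` (so `κ ≤ 1` and with `ε = 27·2^s κ = 1/(2 (2 n0)^n0)` one has
`(2 n0)^n0 ε = 1/2 < 1`). `Hn s n0 κ` asks, for all `i`:
`2 (s+1) 2^((s+1) 2^(i+2)) 2^(s(i+1)) · 54·2^s (2 n0)^n0 ≤ 2^(2^(i+n0))`. Since `i + 1 ≤ 2^(i+1)`,
`2(s+1) ≤ 2^(s+1)`, `54 ≤ 2^6`, `(2 n0)^n0 ≤ 2^(n0 (n0+1))` (`2 n0 ≤ 2^(n0+1)`), the exponent of the left side is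
`≤ 2^i (4(s+1) + 2s) + (s+1) + 6 + s + n0(n0+1) ≤ 2^i (8 s + 11 + n0(n0+1))`, and it is enough that
`8 s + 11 + n0 (n0+1) ≤ 2^n0` (true for `n0` large; choose `n0` by
`n0^2/2^n0 → 0`). -/

open scoped Classical

namespace Pool.Agent.Lib.H50X

theorem pn_pow (n : ℕ) (hn : 6 ≤ n) : n ^ 2 + 2 * n ≤ 2 ^ n := by
  induction n, hn using Nat.le_induction with
  | base => norm_num
  | succ k hk ih =>
    rw [pow_succ 2 k]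
    nlinarith

theorem pn_exp (s n0 i : ℕ) (h : 8 * s + 11 + n0 * (n0 + 1) ≤ 2 ^ n0) :
    (s + 1) + (s + 1) * 2 ^ (i + 2) + (i + 1) * s + 6 + s + (n0 + 1) * n0 ≤ 2 ^ (i + n0) := by
  have hp : 1 ≤ 2 ^ i := Nat.one_le_two_pow
  have hi : i + 1 ≤ 2 * 2 ^ i := by
    have : i < 2 ^ i := Nat.lt_two_pow_self
    omega
  have e1 : 2 ^ (i + 2) = 4 * 2 ^ i := by rw [pow_add]; ring
  rw [e1, pow_add]
  set p := 2 ^ i
  have h1 : p * (8 * s + 11 + n0 * (n0 + 1)) ≤ p * 2 ^ n0 := Nat.mul_le_mul_left p h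
  have h2 : (i + 1) * s ≤ 2 * p * s := Nat.mul_le_mul_right s hi
  have h3 : 1 * (s + 1 + 6 + s + (n0 + 1) * n0) ≤ p * (s + 1 + 6 + s + (n0 + 1) * n0) :=
    Nat.mul_le_mul_right _ hp
  nlinarith

theorem pn_calc (a b c d e f X Y Z : ℝ) (ha : 0 ≤ a) (hb : 0 ≤ b) (hc : 0 ≤ c) (he : 0 ≤ e)
    (hX : a ≤ X) (hY : d ≤ Y) (hd : 0 ≤ d) (hf : 0 ≤ f) (hZ : f ≤ Z) :
    a * b * c * (d * e * f) ≤ X * b * c * (Y * e * Z) := by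
  have hX0 : 0 ≤ X := ha.trans hX
  have hY0 : 0 ≤ Y := hd.trans hY
  apply mul_le_mul _ _ (by positivity) (by positivity)
  · apply mul_le_mul_of_nonneg_right _ hc
    exact mul_le_mul_of_nonneg_right hX hb
  · apply mul_le_mul _ hZ hf (by positivity)
    exact mul_le_mul_of_nonneg_right hY he

theorem pn_main (s n0 i : ℕ)
    (hb : (s + 1) + (s + 1) * 2 ^ (i + 2) + (i + 1) * s + 6 + s + (n0 + 1) * n0 ≤ 2 ^ (i + n0)) :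
    2 * ((s : ℝ) + 1) * 2 ^ ((s + 1) * 2 ^ (i + 2)) * (2 ^ (i + 1)) ^ s *
          (54 * 2 ^ s * (2 * n0 : ℝ) ^ n0) ≤ 2 ^ (2 ^ (i + n0)) := by
  have e1 : (2 * ((s : ℝ) + 1)) ≤ 2 ^ (s + 1) := by
    have h1 : s + 1 ≤ 2 ^ s := Nat.lt_two_pow_self
    have h2 : ((s : ℝ) + 1) ≤ 2 ^ s := by exact_mod_cast h1
    rw [pow_succ]
    linarith
  have e2 : (54 : ℝ) ≤ 2 ^ 6 := by norm_num
  have e3 : (2 * n0 : ℝ) ^ n0 ≤ 2 ^ ((n0 + 1) * n0) := by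
    rw [pow_mul]
    apply pow_le_pow_left₀ (by positivity)
    have h1 : n0 ≤ 2 ^ n0 := Nat.lt_two_pow_self.le
    have h2 : (n0 : ℝ) ≤ 2 ^ n0 := by exact_mod_cast h1
    rw [pow_succ]
    linarith
  refine (pn_calc (2 * ((s : ℝ) + 1)) (2 ^ ((s + 1) * 2 ^ (i + 2))) ((2 ^ (i + 1)) ^ s) 54 (2 ^ s)
    ((2 * n0 : ℝ) ^ n0) _ _ _ (by positivity) (by positivity) (by positivity) (by positivity)
    e1 e2 (by norm_num) (by positivity) e3).trans ?_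
  have e4 : (2 : ℝ) ^ (s + 1) * 2 ^ ((s + 1) * 2 ^ (i + 2)) * (2 ^ (i + 1)) ^ s *
      (2 ^ 6 * 2 ^ s * 2 ^ ((n0 + 1) * n0)) =
      2 ^ ((s + 1) + (s + 1) * 2 ^ (i + 2) + (i + 1) * s + (6 + s + (n0 + 1) * n0)) := by
    rw [← pow_mul, ← pow_add, ← pow_add, ← pow_add, ← pow_add, ← pow_add]
  rw [e4]
  apply pow_le_pow_right₀ (by norm_num)
  refine le_trans (le_of_eq ?_) hb
  ring

theorem constants (s : ℕ) : ∃ n0 k0 : ℕ, ∃ κ ε : ℝ, 1 ≤ n0 ∧ 0 < κ ∧ κ ≤ 1 ∧ Hn s n0 κ ∧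
    1 / 2 ^ k0 ≤ κ ∧ 0 < ε ∧ 27 * 2 ^ s * κ ≤ ε ∧ (2 * n0 : ℝ) ^ n0 * ε < 1 := by
  obtain ⟨n0, hn0⟩ : ∃ n0 : ℕ, n0 = 8 * s + 11 := ⟨_, rfl⟩
  have hn0' : 8 * s + 11 + n0 * (n0 + 1) ≤ 2 ^ n0 := by
    have := pn_pow n0 (by omega)
    nlinarith
  have hnp : (0 : ℝ) < n0 := by
    have : 0 < n0 := by omega
    exact_mod_cast this
  have hA : (0 : ℝ) < (2 * n0 : ℝ) ^ n0 := by positivity
  set κ : ℝ := 1 / (54 * 2 ^ s * (2 * n0 : ℝ) ^ n0) with hκ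
  have hκ0 : 0 < κ := by positivity
  obtain ⟨k0, hk0⟩ := exists_pow_lt_of_lt_one hκ0 (by norm_num : (1 / 2 : ℝ) < 1)
  refine ⟨n0, k0, κ, 27 * 2 ^ s * κ, by omega, hκ0, ?_, ?_, ?_, by positivity, le_rfl, ?_⟩
  · rw [hκ, div_le_one (by positivity)]
    have h1 : (1 : ℝ) ≤ 2 ^ s := one_le_pow₀ (by norm_num)
    have h2 : (1 : ℝ) ≤ (2 * n0 : ℝ) ^ n0 := one_le_pow₀ (by
      have : (1 : ℝ) ≤ n0 := by
        have : 1 ≤ n0 := by omega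
        exact_mod_cast this
      linarith)
    nlinarith
  · intro i
    have hb := pn_exp s n0 i hn0'
    rw [hκ, div_mul_eq_mul_div, one_mul, le_div_iff₀ (by positivity)]
    exact pn_main s n0 i hb
  · rw [← one_div_pow]
    exact hk0.le
  · have e : (2 * n0 : ℝ) ^ n0 * (27 * 2 ^ s * κ) = 1 / 2 := by
      rw [hκ]
      field_simp
      norm_num
    rw [e]
    norm_num

end Pool.Agent.Lib.H50X
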