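import Pool.Agent.Lib.H50X.DE
import Pool.Agent.Lib.H50X.PH
import Pool.Agent.Lib.H50X.PI
import Pool.Agent.Lib.H50X.PJ
import Pool.Agent.Lib.H50X.PK
import Pool.Agent.Lib.H50X.PL
import Pool.Agent.Lib.H50X.PM1
import Pool.Agent.Lib.H50X.PM2
import Pool.Agent.Lib.H50X.PN
import Pool.Agent.Lib.H50X.FA

/-! # H50X: final assembly -/

open scoped Classical

namespace Pool.Agent.Lib.H50X

theorem gg_TT_nonneg {s : ℕ} (α : Fin s → ℝ) (h : Fin s → ℤ) : 0 ≤ gg (TT α h) := by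
  unfold gg TT
  have h1 : 0 ≤ 1 / (2 ^ bb h * nn (dot h α)) := by
    have := nn_nonneg (dot h α)
    positivity
  exact le_min h1 (by positivity)

theorem exists_point (s : ℕ) (hs : 1 ≤ s) :
    ∃ α : Fin s → ℝ, (∀ h : Fin s → ℤ, h ≠ 0 → nn (dot h α) ≠ 0) ∧ ∃ C : ℝ, 0 ≤ C ∧
      (∀ K : ℕ, 1 ≤ K → ∑ a ∈ boxes s K, (QQ 1 α a (2 ^ ∑ j, a j) : ℝ) ≤ C * (K : ℝ) ^ s) ∧
      (∀ R : ℕ, 1 ≤ R → ∑ h ∈ hset s R, gg (TT α h) ≤ C * (R : ℝ) ^ s * (1 + Real.log R)) := by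
  obtain ⟨n0, k0, κ, ε, hn0, hκ, hκ1, H, hk0, hε, hκε, hε1⟩ := constants s
  set Λ : ℝ := 300 * 30 ^ s / ε with hΛ
  set Λ' : ℝ := 54 * 2 ^ s * (s + k0 + 2) / ε with hΛ'
  have hΛ0 : 0 ≤ Λ := by positivity
  have hΛ0' : 0 ≤ Λ' := by positivity
  obtain ⟨x, hx, hbad⟩ := greedy s n0 hn0 ε hε.le hε1 (fun i x => Bad s n0 κ Λ Λ' i x)
    (fun i u => bad_le s n0 k0 κ ε Λ Λ' hκ hκ1 H hk0 hε hκε le_rfl le_rfl i u)
  obtain ⟨α, hα⟩ := limit s x hx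
  have hα' : ∀ i, ∀ j, |α j - pt (2 ^ (i + n0)) (x (i + n0)) j| ≤ 1 / 2 ^ (2 ^ (i + n0)) :=
    fun i j => hα (i + n0) j
  refine ⟨α, ?_, ?_⟩
  · exact nonvanishing s α fun i h hh =>
      transfer_pos s n0 κ Λ Λ' hκ hκ1 H i _ (hbad i) α (hα' i) h hh
  · obtain ⟨C1, hC1⟩ := sum_blocks_Q s hs (fun a => (QQ 1 α a (2 ^ ∑ j, a j) : ℝ))
      (fun a => Nat.cast_nonneg _) Λ hΛ0
      (fun i => transfer_Q s n0 κ Λ Λ' hκ hκ1 H i _ (hbad i) α (hα' i))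
    obtain ⟨C2, hC2⟩ := sum_blocks_S s hs (fun h => gg (TT α h))
      (fun h => gg_TT_nonneg α h) (4 * Λ') (by positivity)
      (fun i => transfer_S s n0 κ Λ Λ' hκ hκ1 H i _ (hbad i) α (hα' i))
    refine ⟨max 0 (max C1 C2), le_max_left _ _, fun K hK => (hC1 K hK).trans ?_,
      fun R hR => (hC2 R hR).trans ?_⟩
    · have : C1 ≤ max 0 (max C1 C2) := (le_max_left _ _).trans (le_max_right _ _)
      gcongr
    · have : C2 ≤ max 0 (max C1 C2) := (le_max_right _ _).trans (le_max_right _ _)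
      have h1 : 0 ≤ Real.log (R : ℝ) := Real.log_natCast_nonneg R
      gcongr

theorem chi_prod {s : ℕ} (α a' b' : Fin s → ℝ) (N : ℕ) :
    ∑ n ∈ Finset.range N, ∏ j, chi (a' j) (b' j) ((n : ℝ) * α j)
      = (((Finset.range N).filter fun n : ℕ => ∀ j, a' j ≤ Int.fract ((n : ℝ) * α j) ∧
          Int.fract ((n : ℝ) * α j) < b' j).card : ℝ) := by
  rw [Finset.card_filter]
  push_cast
  refine Finset.sum_congr rfl fun n _ => ?_
  unfold chi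
  by_cases hc : ∀ j, a' j ≤ Int.fract ((n : ℝ) * α j) ∧ Int.fract ((n : ℝ) * α j) < b' j
  · rw [if_pos hc]
    exact Finset.prod_eq_one fun j _ => if_pos (hc j)
  · rw [if_neg hc]
    obtain ⟨j, hj⟩ := not_forall.mp hc
    exact Finset.prod_eq_zero (Finset.mem_univ j) (if_neg hj)

/-- main theorem -/
theorem main (s : ℕ) (hs : 1 ≤ s) :
    ∃ α : Fin s → ℝ, ∃ C : ℝ, ∀ N : ℕ, 3 ≤ N → ∀ a b : Fin s → ℝ,
      (∀ j, 0 ≤ a j) → (∀ j, a j ≤ b j) → (∀ j, b j ≤ 1) →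
      |(((Finset.range N).filter fun n : ℕ => ∀ j, a j ≤ Int.fract ((n : ℝ) * α j) ∧
          Int.fract ((n : ℝ) * α j) < b j).card : ℝ) - N * ∏ j, (b j - a j)|
        ≤ C * (Real.log N) ^ s * Real.log (Real.log N) := by
  obtain ⟨α, hα, C, hC, hQ, hS⟩ := exists_point s hs
  obtain ⟨C', hC'⟩ := final_num s ((2 * s + 2) * 48 ^ s * C)
  refine ⟨α, C', fun N hN a b ha hab hb => ?_⟩
  have hK : 1 ≤ Nat.log 2 N := by
    exact (Nat.le_log_iff_pow_le (by norm_num) (by omega)).mpr (by omega)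
  have h1 := det s (Nat.log 2 N) N (Nat.lt_pow_succ_log_self (by norm_num) N) α a b ha hab hb hα
  rw [chi_prod] at h1
  refine h1.trans (le_trans ?_ (hC' N hN))
  have h2 := hQ _ hK
  have h3 := hS (Nat.log 2 N + s) (by omega)
  calc (2 * (s : ℝ) + 2) * 48 ^ s * (∑ a ∈ boxes s (Nat.log 2 N), (QQ 1 α a (2 ^ ∑ j, a j) : ℝ)
          + ∑ h ∈ hset s (Nat.log 2 N + s), gg (TT α h))
      ≤ (2 * s + 2) * 48 ^ s * (C * (Nat.log 2 N : ℝ) ^ s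
          + C * ((Nat.log 2 N + s : ℕ) : ℝ) ^ s * (1 + Real.log ((Nat.log 2 N + s : ℕ) : ℝ))) := by
        gcongr
    _ = _ := by ring

end Pool.Agent.Lib.H50X
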