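import Pool.Agent.Lib.H50X.Defs

/-! # H50X, chunk KA: the triangle weights.

`rr M n = min(n+1, 2M-1-n)` for `0 ≤ n ≤ 2M-2`: values `1, 2, ..., M, ..., 2, 1` (for `n` outside
this range `rr` is not used). Write `r(n)` for the extension by zero to all integers `n`.

* `nu0_ge`: `∑ r(n) = M^2`, Cauchy-Schwarz with at most `2M` terms: `nu0 ≥ M^4/(2M) = M^3/2`
  (or use the closed form `nu0 = (2M^3+M)/3`).
* `abs_sub_nuk_le`: `nu0 - nuk k = ∑_n r(n) (r(n) - r(n-k))` over all integers `n`, `|r(n)-r(n-k)| ≤ |k|`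
  and `∑ r(n) = M^2`.
* `nu0_sub_nuk_one_le`: `2 (nu0 - nuk 1) = ∑_{n ∈ ℤ} (r(n) - r(n-1))^2 ≤ 2M` (the difference is `±1`
  for `0 ≤ n ≤ 2M-1` and `0` otherwise).
* `nuk_neg`: symmetry (exchange the two sums). -/

open scoped Classical

namespace Pool.Agent.Lib.H50X

/-- the triangle function on all integers -/
noncomputable def kaR (M : ℕ) (n : ℤ) : ℝ := max ((M : ℝ) - |(n : ℝ) - (M - 1)|) 0

theorem kaR_eq (M n : ℕ) (hn : n < 2 * M - 1) : kaR M n = rr M n := by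
  have h1 : (n : ℝ) + 1 ≤ 2 * M - 1 := by
    have : n + 1 + 1 ≤ 2 * M := by omega
    have h2 : ((n + 1 + 1 : ℕ) : ℝ) ≤ ((2 * M : ℕ) : ℝ) := by exact_mod_cast this
    push_cast at h2
    linarith
  have h0 : (0 : ℝ) ≤ n := Nat.cast_nonneg n
  unfold kaR rr
  rw [Int.cast_natCast]
  rcases le_total ((n : ℝ)) (M - 1) with h | h
  · rw [abs_of_nonpos (by linarith), max_eq_left (by linarith), min_eq_left (by linarith)]
    ring
  · rw [abs_of_nonneg (by linarith), max_eq_left (by linarith), min_eq_right (by linarith)]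
    ring

theorem kaR_neg (M : ℕ) (n : ℤ) (hn : n < 0) : kaR M n = 0 := by
  have h1 : (n : ℝ) ≤ -1 := by
    have : n ≤ -1 := by omega
    exact_mod_cast this
  have h0 : (0 : ℝ) ≤ M := Nat.cast_nonneg M
  unfold kaR
  apply max_eq_right
  have := neg_abs_le ((n : ℝ) - (M - 1))
  linarith

theorem kaR_large (M : ℕ) (n : ℤ) (hn : 2 * (M : ℤ) - 1 ≤ n) : kaR M n = 0 := by
  have h1 : 2 * (M : ℝ) - 1 ≤ n := by exact_mod_cast hn
  unfold kaR
  apply max_eq_right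
  have := le_abs_self ((n : ℝ) - (M - 1))
  linarith

theorem kaR_nonneg (M : ℕ) (n : ℤ) : 0 ≤ kaR M n := le_max_right _ _

theorem kaR_lip (M : ℕ) (a b : ℤ) : |kaR M a - kaR M b| ≤ |(a : ℝ) - b| := by
  unfold kaR
  refine (abs_max_sub_max_le_abs _ _ _).trans ?_
  have e : (M : ℝ) - |(a : ℝ) - (M - 1)| - (M - |(b : ℝ) - (M - 1)|) =
      |(b : ℝ) - (M - 1)| - |(a : ℝ) - (M - 1)| := by ring
  rw [e]
  refine (abs_abs_sub_abs_le_abs_sub _ _).trans (le_of_eq ?_)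
  rw [abs_sub_comm]
  congr 1
  ring

theorem ka_nuk (M : ℕ) (k : ℤ) :
    nuk M k = ∑ n ∈ Finset.range (2 * M - 1), rr M n * kaR M ((n : ℤ) - k) := by
  unfold nuk
  refine Finset.sum_congr rfl fun n _ => ?_
  by_cases h : ∃ m ∈ Finset.range (2 * M - 1), (n : ℤ) - (m : ℤ) = k
  · obtain ⟨m, hm, hk⟩ := h
    rw [Finset.sum_eq_single m]
    · rw [if_pos hk]
      have e : (n : ℤ) - k = m := by omega
      rw [e, kaR_eq M m (Finset.mem_range.1 hm)]
    · intro m' _ hne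
      exact if_neg (fun h' => hne (by omega))
    · intro h'
      exact absurd hm h'
  · push Not at h
    rw [Finset.sum_eq_zero fun m hm => if_neg (h m hm)]
    have h0 : kaR M ((n : ℤ) - k) = 0 := by
      by_cases h1 : (n : ℤ) - k < 0
      · exact kaR_neg M _ h1
      · by_cases h2 : 2 * (M : ℤ) - 1 ≤ (n : ℤ) - k
        · exact kaR_large M _ h2
        · exfalso
          have h3 := h ((n : ℤ) - k).toNat (Finset.mem_range.2 (by omega))
          apply h3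
          omega
    rw [h0, mul_zero]

theorem ka_split (m : ℕ) (f : ℝ → ℝ) :
    ∑ n ∈ Finset.range (2 * (m + 1) - 1), f (rr (m + 1) n) =
      ∑ n ∈ Finset.range (m + 1), f ((n : ℝ) + 1) + ∑ n ∈ Finset.range m, f ((n : ℝ) + 1) := by
  have e : 2 * (m + 1) - 1 = (m + 1) + m := by omega
  rw [e, Finset.sum_range_add]
  congr 1
  · refine Finset.sum_congr rfl fun n hn => ?_
    have h1 : (n : ℝ) ≤ m := by
      have := Finset.mem_range.1 hn
      exact_mod_cast (by omega : n ≤ m)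
    unfold rr
    rw [min_eq_left]
    push_cast
    linarith
  · rw [← Finset.sum_range_reflect (fun n => f ((n : ℝ) + 1))]
    refine Finset.sum_congr rfl fun n hn => ?_
    have h1 := Finset.mem_range.1 hn
    have h2 : ((m - 1 - n : ℕ) : ℝ) = m - 1 - n := by
      rw [Nat.sub_sub, Nat.cast_sub (by omega)]
      push_cast
      ring
    have h3 : (0 : ℝ) ≤ n := Nat.cast_nonneg n
    have h4 : rr (m + 1) (m + 1 + n) = m - n := by
      unfold rr
      push_cast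
      rw [min_eq_right (by linarith)]
      ring
    rw [h4, h2]
    congr 1
    ring

theorem ka_sum (M : ℕ) (hM : 1 ≤ M) : ∑ n ∈ Finset.range (2 * M - 1), rr M n = (M : ℝ) ^ 2 := by
  obtain ⟨m, rfl⟩ : ∃ m, M = m + 1 := ⟨M - 1, by omega⟩
  rw [ka_split m (fun x => x)]
  have h1 : ∀ m : ℕ, ∑ n ∈ Finset.range m, ((n : ℝ) + 1) = m * (m + 1) / 2 := by
    intro m
    induction m with
    | zero => simp
    | succ n ih =>
      rw [Finset.sum_range_succ, ih]
      push_cast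
      ring
  rw [h1, h1]
  push_cast
  ring

theorem ka_nu0 (M : ℕ) (hM : 1 ≤ M) : nu0 M = (M : ℝ) * (2 * (M : ℝ) ^ 2 + 1) / 3 := by
  obtain ⟨m, rfl⟩ : ∃ m, M = m + 1 := ⟨M - 1, by omega⟩
  unfold nu0
  rw [ka_split m (fun x => x ^ 2)]
  have h1 : ∀ m : ℕ, ∑ n ∈ Finset.range m, ((n : ℝ) + 1) ^ 2 =
      (m : ℝ) * ((m : ℝ) + 1) * (2 * (m : ℝ) + 1) / 6 := by
    intro m
    induction m with
    | zero => simp
    | succ n ih =>
      rw [Finset.sum_range_succ, ih]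
      push_cast
      ring
  rw [h1, h1]
  push_cast
  ring

theorem nu0_ge (M : ℕ) (hM : 1 ≤ M) : (M : ℝ) ^ 3 / 2 ≤ nu0 M := by
  rw [ka_nu0 M hM]
  have h0 : (0 : ℝ) ≤ M := Nat.cast_nonneg M
  have h1 : (0 : ℝ) ≤ (M : ℝ) ^ 3 := by positivity
  have h2 : (M : ℝ) * (2 * (M : ℝ) ^ 2 + 1) / 3 = (M : ℝ) ^ 3 * (2 / 3) + M / 3 := by ring
  rw [h2]
  linarith

theorem nu0_pos (M : ℕ) (hM : 1 ≤ M) : 0 < nu0 M := by
  have h1 : (0 : ℝ) < M := by exact_mod_cast hM
  exact lt_of_lt_of_le (by positivity) (nu0_ge M hM)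

theorem nuk_zero (M : ℕ) : nuk M 0 = nu0 M := by
  rw [ka_nuk]
  unfold nu0
  refine Finset.sum_congr rfl fun n hn => ?_
  rw [sub_zero, kaR_eq M n (Finset.mem_range.1 hn), sq]

theorem nuk_neg (M : ℕ) (k : ℤ) : nuk M (-k) = nuk M k := by
  unfold nuk
  rw [Finset.sum_comm]
  refine Finset.sum_congr rfl fun n _ => Finset.sum_congr rfl fun m _ => ?_
  have e : ((m : ℤ) - n = -k) ↔ ((n : ℤ) - m = k) := by
    constructor <;> intro h <;> omega
  rw [mul_comm (rr M m)]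
  exact if_congr e rfl rfl

theorem nuk_eq_zero (M : ℕ) (k : ℤ) (hk : (2 * M : ℤ) - 1 ≤ |k|) : nuk M k = 0 := by
  unfold nuk
  refine Finset.sum_eq_zero fun n hn => Finset.sum_eq_zero fun m hm => if_neg ?_
  rw [Finset.mem_range] at hn hm
  intro h
  rw [← h] at hk
  rcases abs_cases ((n : ℤ) - m) with ⟨h1, _⟩ | ⟨h1, _⟩ <;> rw [h1] at hk <;> omega

theorem ka_rr_nonneg (M n : ℕ) (hn : n ∈ Finset.range (2 * M - 1)) : 0 ≤ rr M n := by
  rw [← kaR_eq M n (Finset.mem_range.1 hn)]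
  exact kaR_nonneg M n

theorem abs_sub_nuk_le (M : ℕ) (hM : 1 ≤ M) (k : ℤ) :
    |nu0 M - nuk M k| ≤ |(k : ℝ)| * (M : ℝ) ^ 2 := by
  rw [← nuk_zero, ka_nuk, ka_nuk, ← Finset.sum_sub_distrib]
  refine (Finset.abs_sum_le_sum_abs _ _).trans ?_
  rw [← ka_sum M hM, Finset.mul_sum]
  refine Finset.sum_le_sum fun n hn => ?_
  rw [← mul_sub, abs_mul, abs_of_nonneg (ka_rr_nonneg M n hn), mul_comm]
  refine mul_le_mul_of_nonneg_right ?_ (ka_rr_nonneg M n hn)
  refine (kaR_lip M _ _).trans (le_of_eq ?_)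
  push_cast
  congr 1
  ring

theorem nu0_sub_nuk_one_le (M : ℕ) (hM : 1 ≤ M) : nu0 M - nuk M 1 ≤ M := by
  have e2 : 2 * M = (2 * M - 1) + 1 := by omega
  have s1 : ∑ n ∈ Finset.range (2 * M), kaR M n ^ 2 = nu0 M := by
    rw [e2, Finset.sum_range_succ, kaR_large M _ (by omega)]
    unfold nu0
    rw [zero_pow two_ne_zero, add_zero]
    refine Finset.sum_congr rfl fun n hn => ?_
    rw [kaR_eq M n (Finset.mem_range.1 hn)]
  have s2 : ∑ n ∈ Finset.range (2 * M), kaR M ((n : ℤ) - 1) ^ 2 = nu0 M := by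
    rw [e2, Finset.sum_range_succ']
    have h1 : kaR M (((0 : ℕ) : ℤ) - 1) = 0 := kaR_neg M _ (by norm_num)
    rw [h1, zero_pow two_ne_zero, add_zero]
    unfold nu0
    refine Finset.sum_congr rfl fun n hn => ?_
    have h2 : ((n + 1 : ℕ) : ℤ) - 1 = n := by push_cast; ring
    rw [h2, kaR_eq M n (Finset.mem_range.1 hn)]
  have s3 : ∑ n ∈ Finset.range (2 * M), kaR M n * kaR M ((n : ℤ) - 1) = nuk M 1 := by
    rw [e2, Finset.sum_range_succ, kaR_large M ((2 * M - 1 : ℕ) : ℤ) (by omega), zero_mul,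
      add_zero, ka_nuk]
    refine Finset.sum_congr rfl fun n hn => ?_
    rw [kaR_eq M n (Finset.mem_range.1 hn)]
  have s4 : ∑ n ∈ Finset.range (2 * M), (kaR M n - kaR M ((n : ℤ) - 1)) ^ 2 ≤
      ∑ _n ∈ Finset.range (2 * M), (1 : ℝ) := by
    refine Finset.sum_le_sum fun n _ => ?_
    have h1 := kaR_lip M (n : ℤ) ((n : ℤ) - 1)
    have h2 : |((n : ℤ) : ℝ) - (((n : ℤ) - 1 : ℤ) : ℝ)| = 1 := by
      push_cast
      rw [sub_sub_cancel, abs_one]
    rw [h2] at h1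
    exact (sq_le_one_iff_abs_le_one _).2 h1
  have s5 : ∑ n ∈ Finset.range (2 * M), (kaR M n - kaR M ((n : ℤ) - 1)) ^ 2 =
      nu0 M + nu0 M - 2 * nuk M 1 := by
    rw [← s3, Finset.mul_sum]
    nth_rewrite 1 [← s1]
    rw [← s2, ← Finset.sum_add_distrib, ← Finset.sum_sub_distrib]
    refine Finset.sum_congr rfl fun n _ => ?_
    ring
  rw [s5, Finset.sum_const, Finset.card_range, nsmul_eq_mul] at s4
  push_cast at s4
  linarith

end Pool.Agent.Lib.H50X
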