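import Pool.Agent.Lib.H50X.BB
import Pool.Agent.Lib.H50X.KA

/-! # H50X, chunk KB: the Jackson kernel.

`JJ M x = |∑_n r(n) ee(n x)|^2 / nu0`, `|z|^2 = z * conj z`, expand the product
(`ee_neg`, `ee_add`): coefficient of `ee(k x)` is `nuk M k / nu0 M`; `nuk M k = 0` for `|k| ≥ 2M-1`.

`integral_JJ`, `integral_JJ_sq`: by `integral_ee_period`; `‖1 - ee u‖^2 = 2 - ee u - ee(-u)`, so the
second integral is `(2 nu0 - nuk 1 - nuk (-1)) / nu0 = 2 (nu0 - nuk 1)/nu0 ≤ 2 M / (M^3/2)`. -/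

open scoped Classical

namespace Pool.Agent.Lib.H50X

theorem JJ_nonneg (M : ℕ) (x : ℝ) : 0 ≤ JJ M x := by
  unfold JJ nu0
  exact div_nonneg (sq_nonneg _) (Finset.sum_nonneg fun n _ => sq_nonneg _)

theorem continuous_JJ (M : ℕ) : Continuous (JJ M) := by
  unfold JJ
  apply Continuous.div_const
  apply Continuous.pow
  apply Continuous.norm
  refine continuous_finsetSum _ fun n _ => ?_
  exact continuous_const.mul (continuous_ee.comp (continuous_const.mul continuous_id))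

theorem JJ_one (x : ℝ) : JJ 1 x = 1 := by
  have h1 : nu0 1 = 1 := by
    unfold nu0 rr
    norm_num
  unfold JJ
  rw [h1]
  have h2 : ∑ n ∈ Finset.range (2 * 1 - 1), (rr 1 n : ℂ) * ee (n * x) = 1 := by
    unfold rr
    norm_num [ee_zero]
  rw [h2]
  norm_num

/-- square of the norm of a trigonometric sum -/
theorem kb_sq (N : ℕ) (r : ℕ → ℝ) (x : ℝ) :
    (((‖∑ n ∈ Finset.range N, (r n : ℂ) * ee (n * x)‖ ^ 2 : ℝ)) : ℂ)
      = ∑ n ∈ Finset.range N, ∑ m ∈ Finset.range N,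
        ((r n * r m : ℝ) : ℂ) * ee ((((n : ℤ) - (m : ℤ) : ℤ) : ℝ) * x) := by
  rw [← Complex.normSq_eq_norm_sq, ← Complex.mul_conj, map_sum, Finset.sum_mul_sum]
  refine Finset.sum_congr rfl fun n _ => Finset.sum_congr rfl fun m _ => ?_
  rw [map_mul, Complex.conj_ofReal, ← ee_neg]
  have h : ee ((((n : ℤ) - (m : ℤ) : ℤ) : ℝ) * x) = ee (n * x) * ee (-(m * x)) := by
    rw [← ee_add]
    congr 1
    push_cast
    ring
  rw [h]
  push_cast
  ring

theorem JJ_expand (M : ℕ) (hM : 1 ≤ M) (x : ℝ) :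
    ((JJ M x : ℝ) : ℂ) = ∑ k ∈ Finset.Ioo (-(2 * M - 1 : ℤ)) (2 * M - 1),
      ((nuk M k / nu0 M : ℝ) : ℂ) * ee (k * x) := by
  unfold JJ
  rw [Complex.ofReal_div, kb_sq, div_eq_mul_inv, Finset.sum_mul]
  have h1 : ∀ k : ℤ, ((nuk M k / nu0 M : ℝ) : ℂ) * ee (k * x)
      = ∑ n ∈ Finset.range (2 * M - 1), ∑ m ∈ Finset.range (2 * M - 1),
        (if (n : ℤ) - (m : ℤ) = k then
          ((rr M n * rr M m : ℝ) : ℂ) * ee ((((n : ℤ) - (m : ℤ) : ℤ) : ℝ) * x) * ((nu0 M : ℝ) : ℂ)⁻¹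
          else 0) := by
    intro k
    rw [Complex.ofReal_div]
    unfold nuk
    rw [Complex.ofReal_sum, Finset.sum_div, Finset.sum_mul]
    refine Finset.sum_congr rfl fun n _ => ?_
    rw [Complex.ofReal_sum, Finset.sum_div, Finset.sum_mul]
    refine Finset.sum_congr rfl fun m _ => ?_
    split_ifs with h
    · rw [h]
      ring
    · simp
  simp_rw [h1]
  rw [Finset.sum_comm]
  refine Finset.sum_congr rfl fun n hn => ?_
  rw [Finset.sum_comm, Finset.sum_mul]
  refine Finset.sum_congr rfl fun m hm => ?_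
  rw [Finset.sum_ite_eq, if_pos]
  rw [Finset.mem_range] at hn hm
  rw [Finset.mem_Ioo]
  omega

/-- integral over a period of a trigonometric polynomial times `ee (l u)` -/
theorem kb_int (S : Finset ℤ) (c : ℤ → ℂ) (l : ℤ) (x t : ℝ) :
    (∫ y in t..(t + 1), (∑ k ∈ S, c k * ee (k * (x - y))) * ee (l * (x - y)))
      = ∑ k ∈ S, c k * (if k + l = 0 then 1 else 0) := by
  have h1 : ∀ y : ℝ, (∑ k ∈ S, c k * ee (k * (x - y))) * ee (l * (x - y))
      = ∑ k ∈ S, c k * ee (((k + l : ℤ) : ℝ) * (x - y)) := by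
    intro y
    rw [Finset.sum_mul]
    refine Finset.sum_congr rfl fun k _ => ?_
    rw [mul_assoc, ← ee_add]
    congr 2
    push_cast
    ring
  simp_rw [h1]
  rw [intervalIntegral.integral_finsetSum]
  · refine Finset.sum_congr rfl fun k _ => ?_
    rw [intervalIntegral.integral_const_mul, integral_ee_period]
  · intro k _
    apply Continuous.intervalIntegrable
    exact continuous_const.mul (continuous_ee.comp
      (continuous_const.mul (continuous_const.sub continuous_id)))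

theorem kb_integrable (S : Finset ℤ) (c : ℤ → ℂ) (l : ℤ) (x t : ℝ) :
    IntervalIntegrable (fun y => (∑ k ∈ S, c k * ee (k * (x - y))) * ee (l * (x - y)))
      MeasureTheory.volume t (t + 1) := by
  apply Continuous.intervalIntegrable
  apply Continuous.mul
  · refine continuous_finsetSum _ fun k _ => ?_
    exact continuous_const.mul (continuous_ee.comp
      (continuous_const.mul (continuous_const.sub continuous_id)))
  · exact continuous_ee.comp (continuous_const.mul (continuous_const.sub continuous_id))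

/-- the integral picks one coefficient -/
theorem kb_pick (M : ℕ) (hM : 1 ≤ M) (l : ℤ) (x t : ℝ) :
    (∫ y in t..(t + 1), ((JJ M (x - y) : ℝ) : ℂ) * ee (l * (x - y)))
      = ((nuk M (-l) / nu0 M : ℝ) : ℂ) := by
  have h1 : ∀ y : ℝ, ((JJ M (x - y) : ℝ) : ℂ) = ∑ k ∈ Finset.Ioo (-(2 * M - 1 : ℤ)) (2 * M - 1),
      ((nuk M k / nu0 M : ℝ) : ℂ) * ee (k * (x - y)) := fun y => JJ_expand M hM (x - y)
  simp_rw [h1]
  rw [kb_int]
  have h2 : ∀ k : ℤ, ((nuk M k / nu0 M : ℝ) : ℂ) * (if k + l = 0 then (1 : ℂ) else 0)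
      = if -l = k then ((nuk M k / nu0 M : ℝ) : ℂ) else 0 := by
    intro k
    by_cases h : k + l = 0
    · rw [if_pos h, if_pos (by omega), mul_one]
    · rw [if_neg h, if_neg (by omega), mul_zero]
  simp_rw [h2]
  rw [Finset.sum_ite_eq]
  split_ifs with h
  · rfl
  · rw [nuk_eq_zero M (-l)]
    · simp
    · rw [Finset.mem_Ioo] at h
      by_contra h3
      push Not at h3
      rw [abs_lt] at h3
      exact h h3

theorem integral_JJ (M : ℕ) (hM : 1 ≤ M) (x t : ℝ) : (∫ y in t..(t + 1), JJ M (x - y)) = 1 := by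
  have h1 := kb_pick M hM 0 x t
  have h2 : ∀ y : ℝ, ((JJ M (x - y) : ℝ) : ℂ) * ee (((0 : ℤ) : ℝ) * (x - y))
      = ((JJ M (x - y) : ℝ) : ℂ) := by
    intro y
    rw [Int.cast_zero, zero_mul, ee_zero, mul_one]
  simp_rw [h2] at h1
  rw [neg_zero, nuk_zero, div_self (nu0_pos M hM).ne', intervalIntegral.integral_ofReal] at h1
  exact_mod_cast h1

theorem kb_norm_sq (u : ℝ) : ((‖1 - ee u‖ ^ 2 : ℝ) : ℂ) = 2 - ee u - ee (-u) := by
  rw [← Complex.normSq_eq_norm_sq, ← Complex.mul_conj, map_sub, map_one, ← ee_neg]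
  have h : ee u * ee (-u) = 1 := by
    rw [← ee_add, add_neg_cancel, ee_zero]
  calc (1 - ee u) * (1 - ee (-u)) = 1 - ee u - ee (-u) + ee u * ee (-u) := by ring
    _ = 2 - ee u - ee (-u) := by rw [h]; ring

theorem integral_JJ_sq (M : ℕ) (hM : 1 ≤ M) (x t : ℝ) :
    (∫ y in t..(t + 1), JJ M (x - y) * ‖1 - ee (x - y)‖ ^ 2) ≤ 4 / (M : ℝ) ^ 2 := by
  have hM0 : (0 : ℝ) < M := by exact_mod_cast hM
  have hn := nu0_pos M hM
  have hi : ∀ l : ℤ, IntervalIntegrable (fun y : ℝ => ((JJ M (x - y) : ℝ) : ℂ) * ee (l * (x - y)))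
      MeasureTheory.volume t (t + 1) := by
    intro l
    apply Continuous.intervalIntegrable
    apply Continuous.mul
    · exact Complex.continuous_ofReal.comp ((continuous_JJ M).comp (continuous_const.sub continuous_id))
    · exact continuous_ee.comp (continuous_const.mul (continuous_const.sub continuous_id))
  have h1 : ((∫ y in t..(t + 1), JJ M (x - y) * ‖1 - ee (x - y)‖ ^ 2 : ℝ) : ℂ)
      = ((2 * (nu0 M - nuk M 1) / nu0 M : ℝ) : ℂ) := by
    rw [← intervalIntegral.integral_ofReal]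
    have h2 : ∀ y : ℝ, ((JJ M (x - y) * ‖1 - ee (x - y)‖ ^ 2 : ℝ) : ℂ)
        = 2 * (((JJ M (x - y) : ℝ) : ℂ) * ee (((0 : ℤ) : ℝ) * (x - y)))
          - (((JJ M (x - y) : ℝ) : ℂ) * ee (((1 : ℤ) : ℝ) * (x - y)))
          - (((JJ M (x - y) : ℝ) : ℂ) * ee (((-1 : ℤ) : ℝ) * (x - y))) := by
      intro y
      rw [Complex.ofReal_mul, kb_norm_sq, Int.cast_zero, zero_mul, ee_zero, Int.cast_one, one_mul,
        Int.cast_neg, Int.cast_one, neg_one_mul]
      ring
    simp_rw [h2]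
    rw [intervalIntegral.integral_sub (((hi 0).const_mul 2).sub (hi 1)) (hi (-1)),
      intervalIntegral.integral_sub ((hi 0).const_mul 2) (hi 1),
      intervalIntegral.integral_const_mul, kb_pick M hM, kb_pick M hM, kb_pick M hM,
      neg_zero, neg_neg, nuk_neg, nuk_zero]
    push_cast
    have hn' : ((nu0 M : ℝ) : ℂ) ≠ 0 := by exact_mod_cast hn.ne'
    field_simp
    ring
  have h3 : (∫ y in t..(t + 1), JJ M (x - y) * ‖1 - ee (x - y)‖ ^ 2)
      = 2 * (nu0 M - nuk M 1) / nu0 M := by exact_mod_cast h1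
  rw [h3, div_le_div_iff₀ hn (by positivity)]
  have h4 := nu0_sub_nuk_one_le M hM
  have h5 := nu0_ge M hM
  have h6 : 2 * (nu0 M - nuk M 1) * (M : ℝ) ^ 2 ≤ 2 * M * (M : ℝ) ^ 2 := by
    gcongr
  nlinarith

end Pool.Agent.Lib.H50X
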