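import Pool.Agent.Lib.H50X.KB

/-! # H50X, chunk KC: Fourier expansion of the pieces `psi`.

`AA M a b x = ∫_a^b JJ M (x-y) dy`; insert `JJ_expand` and integrate term by term:
`AA M a b x = ∑_k cc M a b k ee(k x)` over `|k| < 2M-1`; `cc` vanishes for `|k| ≥ 2M-1`
(`nuk_eq_zero`), so for `psi (j+1)` the sum may be taken over `|k| < 2^(j+2)`; the coefficient at
`k = 0` is `(b-a) - (b-a) = 0` (`nuk_zero`, `chat_zero`).

`norm_cpsi_le`: `|nuk M k/nu0 M - 1| ≤ |k| M^2/(M^3/2) = 2|k|/M`, so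
`|cpsi (j+1) k| ≤ (2|k|/2^(j+1) + 2|k|/2^j) |chat k| ≤ 6/2^(j+1)`; for `j = 0`: `k = 0`, `|b - a| ≤ 1`. -/

open scoped Classical

namespace Pool.Agent.Lib.H50X

theorem AA_one (a b x : ℝ) : AA 1 a b x = b - a := by
  unfold AA
  simp only [JJ_one, intervalIntegral.integral_const, smul_eq_mul, mul_one]

theorem AA_expand (M : ℕ) (hM : 1 ≤ M) (a b x : ℝ) :
    ((AA M a b x : ℝ) : ℂ) = ∑ k ∈ Finset.Ioo (-(2 * M - 1 : ℤ)) (2 * M - 1),
      cc M a b k * ee (k * x) := by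
  unfold AA
  rw [← intervalIntegral.integral_ofReal]
  simp only [JJ_expand M hM]
  rw [intervalIntegral.integral_finset_sum]
  · refine Finset.sum_congr rfl fun k _ => ?_
    have h1 : ∀ y : ℝ, ((nuk M k / nu0 M : ℝ) : ℂ) * ee (k * (x - y)) =
        (((nuk M k / nu0 M : ℝ) : ℂ) * ee (k * x)) * ee (-(k * y)) := by
      intro y
      rw [mul_assoc, ← ee_add]
      congr 2
      ring
    simp only [h1]
    rw [intervalIntegral.integral_const_mul]
    unfold cc chat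
    ring
  · intro k _
    refine Continuous.intervalIntegrable ?_ _ _
    exact continuous_const.mul (continuous_ee.comp (by fun_prop))

theorem kc_cc_zero (M : ℕ) (a b : ℝ) (k : ℤ) (hk : k ∉ Finset.Ioo (-(2 * M - 1 : ℤ)) (2 * M - 1)) :
    cc M a b k = 0 := by
  unfold cc
  rw [nuk_eq_zero M k ?_]
  · simp
  · by_contra h
    push Not at h
    apply hk
    rw [Finset.mem_Ioo]
    exact abs_lt.1 h

theorem kc_big (M N : ℕ) (hM : 1 ≤ M) (hN : 2 * M ≤ N) (a b x : ℝ) :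
    ((AA M a b x : ℝ) : ℂ) = ∑ k ∈ Finset.Ioo (-(N : ℤ)) N, cc M a b k * ee (k * x) := by
  rw [AA_expand M hM]
  refine Finset.sum_subset ?_ ?_
  · intro k hk
    rw [Finset.mem_Ioo] at hk ⊢
    have : (2 * M : ℤ) ≤ N := by exact_mod_cast hN
    constructor <;> omega
  · intro k _ hk
    rw [kc_cc_zero M a b k hk, zero_mul]

theorem kc_cc0 (M : ℕ) (hM : 1 ≤ M) (a b : ℝ) : cc M a b 0 = ((b - a : ℝ) : ℂ) := by
  unfold cc
  rw [nuk_zero, chat_zero, div_self (nu0_pos M hM).ne']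
  simp

theorem psi_expand (a b : ℝ) (j : ℕ) (x : ℝ) :
    ((psi a b j x : ℝ) : ℂ) = ∑ k ∈ kset j, cpsi a b j k * ee (k * x) := by
  rcases j with _ | j
  · show ((AA 1 a b x : ℝ) : ℂ) = ∑ k ∈ ({0} : Finset ℤ), cc 1 a b k * ee (k * x)
    rw [Finset.sum_singleton, AA_one, kc_cc0 1 le_rfl]
    simp [ee_zero]
  · show ((AA (2 ^ (j + 1)) a b x - AA (2 ^ j) a b x : ℝ) : ℂ) =
      ∑ k ∈ (Finset.Ioo (-(2 ^ (j + 2) : ℤ)) (2 ^ (j + 2))).filter (fun k => k ≠ 0),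
        (cc (2 ^ (j + 1)) a b k - cc (2 ^ j) a b k) * ee (k * x)
    have h1 := kc_big (2 ^ (j + 1)) (2 ^ (j + 2)) Nat.one_le_two_pow (by rw [← pow_succ']) a b x
    have h2 := kc_big (2 ^ j) (2 ^ (j + 2)) Nat.one_le_two_pow
      (by rw [← pow_succ']; exact Nat.pow_le_pow_right (by norm_num) (by omega)) a b x
    push_cast at h1 h2 ⊢
    rw [h1, h2, ← Finset.sum_sub_distrib]
    rw [Finset.sum_filter_of_ne]
    · exact Finset.sum_congr rfl fun k _ => (sub_mul _ _ _).symm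
    · intro k _ h3 h4
      apply h3
      rw [h4, kc_cc0 _ Nat.one_le_two_pow, kc_cc0 _ Nat.one_le_two_pow, sub_self, zero_mul]

theorem kc_ratio (M : ℕ) (hM : 1 ≤ M) (k : ℤ) : |nuk M k / nu0 M - 1| ≤ 2 * |(k : ℝ)| / M := by
  have h0 := nu0_pos M hM
  have hM' : (0 : ℝ) < M := by exact_mod_cast hM
  have h1 : nuk M k / nu0 M - 1 = -(nu0 M - nuk M k) / nu0 M := by
    field_simp
    ring
  rw [h1, abs_div, abs_neg, abs_of_pos h0, div_le_div_iff₀ h0 hM']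
  have h2 := abs_sub_nuk_le M hM k
  have h3 := nu0_ge M hM
  calc |nu0 M - nuk M k| * M ≤ (|(k : ℝ)| * (M : ℝ) ^ 2) * M := mul_le_mul_of_nonneg_right h2 hM'.le
    _ = 2 * |(k : ℝ)| * ((M : ℝ) ^ 3 / 2) := by ring
    _ ≤ 2 * |(k : ℝ)| * nu0 M := mul_le_mul_of_nonneg_left h3 (by positivity)

theorem norm_cpsi_le (a b : ℝ) (ha : 0 ≤ a) (hab : a ≤ b) (hb : b ≤ 1) (j : ℕ) (k : ℤ)
    (hk : k ∈ kset j) : ‖cpsi a b j k‖ ≤ 6 / 2 ^ j := by
  rcases j with _ | j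
  · have h1 : k = 0 := Finset.mem_singleton.1 hk
    subst h1
    show ‖cc 1 a b 0‖ ≤ _
    rw [kc_cc0 1 le_rfl, Complex.norm_real, Real.norm_eq_abs, abs_of_nonneg (by linarith)]
    norm_num
    linarith
  · have hk0 : k ≠ 0 := (Finset.mem_filter.1 hk).2
    have hk' : (0 : ℝ) < |(k : ℝ)| := abs_pos.2 (by exact_mod_cast hk0)
    show ‖cc (2 ^ (j + 1)) a b k - cc (2 ^ j) a b k‖ ≤ _
    have h1 : cc (2 ^ (j + 1)) a b k - cc (2 ^ j) a b k =
        (((nuk (2 ^ (j + 1)) k / nu0 (2 ^ (j + 1)) - 1) - (nuk (2 ^ j) k / nu0 (2 ^ j) - 1) : ℝ) : ℂ) *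
          chat a b k := by
      unfold cc
      push_cast
      ring
    rw [h1, norm_mul, Complex.norm_real, Real.norm_eq_abs]
    have h2 := kc_ratio (2 ^ (j + 1)) Nat.one_le_two_pow k
    have h3 := kc_ratio (2 ^ j) Nat.one_le_two_pow k
    have h4 := norm_chat_le a b k hk0
    have h5 : |(nuk (2 ^ (j + 1)) k / nu0 (2 ^ (j + 1)) - 1) - (nuk (2 ^ j) k / nu0 (2 ^ j) - 1)| ≤
        6 * |(k : ℝ)| / 2 ^ (j + 1) := by
      refine (abs_sub _ _).trans ((add_le_add h2 h3).trans (le_of_eq ?_))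
      push_cast
      rw [pow_succ]
      field_simp
      norm_num
    calc _ ≤ 6 * |(k : ℝ)| / 2 ^ (j + 1) * (1 / |(k : ℝ)|) :=
          mul_le_mul h5 h4 (norm_nonneg _) (by positivity)
      _ = 6 / 2 ^ (j + 1) := by
          field_simp

/-- telescoping -/
theorem sum_psi (a b : ℝ) (j : ℕ) (x : ℝ) :
    ∑ k ∈ Finset.range (j + 1), psi a b k x = AA (2 ^ j) a b x := by
  induction j with
  | zero =>
    rw [zero_add, Finset.sum_range_one]
    rfl
  | succ n ih =>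
    rw [Finset.sum_range_succ, ih]
    show AA (2 ^ n) a b x + (AA (2 ^ (n + 1)) a b x - AA (2 ^ n) a b x) = _
    ring

end Pool.Agent.Lib.H50X
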