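import Pool.Agent.Lib.H50X.KB

/-! # H50X, chunk KD: the smoothed indicator is close to the indicator.

Both sides are 1-periodic in `x` (`chi` by definition; `AA` because `JJ M` is), so let `x ∈ [0,1)`.
`0 ≤ AA ≤ 1` (`JJ ≥ 0`, `integral_JJ` with `t = 0`, `[a,b] ⊂ [0,1]`).
Let `d = min(nn(x-a), nn(x-b))`. If `x ∉ [a,b)`, every `y ∈ [a,b]` has `nn(x-y) ≥ d` (on the circle one
must cross `a` or `b` to go from `x` to `y`), hence `16 d^2 ≤ ‖1 - ee(x-y)‖^2` (`four_nn_le`) and
`16 d^2 AA ≤ ∫_0^1 JJ(x-y) ‖1-ee(x-y)‖^2 dy ≤ 4/M^2`. If `x ∈ [a,b)` the same for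
`1 - AA = ∫_{[0,1] minus [a,b]} JJ(x-y) dy`. So `|AA - chi| ≤ min(1, 1/(4 M^2 d^2))`, `M = 2^j`.

Compare with the envelope: let `nn(x-e) = d`, `e ∈ {a,b}`, and `u` minimal with `2^j d < 2^u`
(`u ≤ j` since `d ≤ 1/2`). If `u = 0` the envelope is `≥ 1`. If `u ≥ 1` then `2^j d ≥ 2^(u-1)` and
`1/(4 (2^j d)^2) ≤ (1/4)^u ≤ env e j x`. -/

open scoped Classical

namespace Pool.Agent.Lib.H50X

theorem kd_cont (M : ℕ) (x : ℝ) : Continuous fun y : ℝ => JJ M (x - y) :=
  (continuous_JJ M).comp (continuous_const.sub continuous_id)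

theorem kd_cont2 (M : ℕ) (x : ℝ) : Continuous fun y : ℝ => JJ M (x - y) * ‖1 - ee (x - y)‖ ^ 2 :=
  (kd_cont M x).mul ((continuous_const.sub
    (continuous_ee.comp (continuous_const.sub continuous_id))).norm.pow 2)

theorem AA_nonneg (M : ℕ) (a b : ℝ) (hab : a ≤ b) (x : ℝ) : 0 ≤ AA M a b x := by
  unfold AA
  exact intervalIntegral.integral_nonneg hab fun y _ => JJ_nonneg M _

theorem kd_split (M : ℕ) (hM : 1 ≤ M) (a b x : ℝ) :
    (∫ y in (0 : ℝ)..a, JJ M (x - y)) + AA M a b x + (∫ y in b..1, JJ M (x - y)) = 1 := by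
  have h := integral_JJ M hM x 0
  rw [zero_add] at h
  unfold AA
  rw [intervalIntegral.integral_add_adjacent_intervals
      ((kd_cont M x).intervalIntegrable _ _) ((kd_cont M x).intervalIntegrable _ _),
    intervalIntegral.integral_add_adjacent_intervals
      ((kd_cont M x).intervalIntegrable _ _) ((kd_cont M x).intervalIntegrable _ _)]
  exact h

theorem kd_split2 (M : ℕ) (a b x : ℝ) :
    (∫ y in (0 : ℝ)..a, JJ M (x - y) * ‖1 - ee (x - y)‖ ^ 2)
      + (∫ y in a..b, JJ M (x - y) * ‖1 - ee (x - y)‖ ^ 2)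
      + (∫ y in b..1, JJ M (x - y) * ‖1 - ee (x - y)‖ ^ 2)
      = ∫ y in (0 : ℝ)..1, JJ M (x - y) * ‖1 - ee (x - y)‖ ^ 2 := by
  rw [intervalIntegral.integral_add_adjacent_intervals
      ((kd_cont2 M x).intervalIntegrable _ _) ((kd_cont2 M x).intervalIntegrable _ _),
    intervalIntegral.integral_add_adjacent_intervals
      ((kd_cont2 M x).intervalIntegrable _ _) ((kd_cont2 M x).intervalIntegrable _ _)]

theorem kd_nonneg2 (M : ℕ) (x p q : ℝ) (hpq : p ≤ q) :
    0 ≤ ∫ y in p..q, JJ M (x - y) * ‖1 - ee (x - y)‖ ^ 2 :=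
  intervalIntegral.integral_nonneg hpq fun _ _ => mul_nonneg (JJ_nonneg M _) (sq_nonneg _)

theorem AA_le_one (M : ℕ) (hM : 1 ≤ M) (a b : ℝ) (ha : 0 ≤ a) (hab : a ≤ b) (hb : b ≤ 1) (x : ℝ) :
    AA M a b x ≤ 1 := by
  have h := kd_split M hM a b x
  have h1 : 0 ≤ ∫ y in (0 : ℝ)..a, JJ M (x - y) :=
    intervalIntegral.integral_nonneg ha fun y _ => JJ_nonneg M _
  have h2 : 0 ≤ ∫ y in b..1, JJ M (x - y) :=
    intervalIntegral.integral_nonneg hb fun y _ => JJ_nonneg M _
  linarith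

theorem kd_out (x a b y : ℝ) (hx0 : 0 ≤ x) (hx1 : x < 1) (ha : 0 ≤ a) (hb : b ≤ 1)
    (hx : x < a ∨ b ≤ x) (hy1 : a ≤ y) (hy2 : y ≤ b) :
    min (nn (x - a)) (nn (x - b)) ≤ nn (x - y) := by
  set k : ℤ := round (x - y) with hk
  have hz : x - k ≤ a ∨ b ≤ x - k := by
    rcases lt_trichotomy k 0 with h | h | h
    · right
      have h1 : k ≤ -1 := by omega
      have h2 : (k : ℝ) ≤ -1 := by exact_mod_cast h1
      linarith
    · rw [h, Int.cast_zero, sub_zero]
      rcases hx with hx | hx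
      · exact Or.inl hx.le
      · exact Or.inr hx
    · left
      have h1 : 1 ≤ k := by omega
      have h2 : (1 : ℝ) ≤ k := by exact_mod_cast h1
      linarith
  have hnn : nn (x - y) = |x - y - k| := rfl
  rw [hnn]
  rcases hz with hz | hz
  · refine le_trans (min_le_left _ _) (le_trans (nn_le (x - a) k) ?_)
    rw [abs_of_nonpos (by linarith), abs_of_nonpos (by linarith)]
    linarith
  · refine le_trans (min_le_right _ _) (le_trans (nn_le (x - b) k) ?_)
    rw [abs_of_nonneg (by linarith), abs_of_nonneg (by linarith)]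
    linarith

theorem kd_in (x a b y : ℝ) (ha : 0 ≤ a) (hb : b ≤ 1)
    (hx1 : a ≤ x) (hx2 : x < b) (hy0 : 0 ≤ y) (hy1 : y ≤ 1) (hy : y ≤ a ∨ b ≤ y) :
    min (nn (x - a)) (nn (x - b)) ≤ nn (x - y) := by
  set k : ℤ := round (x - y) with hk
  have hnn : nn (x - y) = |x - y - k| := rfl
  rw [hnn]
  have h0a : nn (x - a) ≤ x - a := by
    have := nn_le (x - a) 0
    rw [Int.cast_zero, sub_zero, abs_of_nonneg (by linarith)] at this
    exact this
  have h0b : nn (x - b) ≤ b - x := by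
    have := nn_le (x - b) 0
    rw [Int.cast_zero, sub_zero, abs_of_nonpos (by linarith)] at this
    linarith
  rcases lt_trichotomy k 0 with h | h | h
  · have h1 : k ≤ -1 := by omega
    have h2 : (k : ℝ) ≤ -1 := by exact_mod_cast h1
    refine le_trans (min_le_left _ _) (le_trans h0a ?_)
    refine le_trans ?_ (le_abs_self _)
    linarith
  · rw [h, Int.cast_zero, sub_zero]
    rcases hy with hy | hy
    · refine le_trans (min_le_left _ _) (le_trans h0a ?_)
      refine le_trans ?_ (le_abs_self _)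
      linarith
    · refine le_trans (min_le_right _ _) (le_trans h0b ?_)
      refine le_trans ?_ (neg_le_abs _)
      linarith
  · have h1 : 1 ≤ k := by omega
    have h2 : (1 : ℝ) ≤ k := by exact_mod_cast h1
    refine le_trans (min_le_right _ _) (le_trans h0b ?_)
    refine le_trans ?_ (neg_le_abs _)
    linarith

theorem kd_part (M : ℕ) (x p q d : ℝ) (hpq : p ≤ q) (hd0 : 0 ≤ d)
    (hd : ∀ y, p ≤ y → y ≤ q → d ≤ nn (x - y)) :
    16 * d ^ 2 * (∫ y in p..q, JJ M (x - y))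
      ≤ ∫ y in p..q, JJ M (x - y) * ‖1 - ee (x - y)‖ ^ 2 := by
  rw [← intervalIntegral.integral_const_mul]
  apply intervalIntegral.integral_mono_on hpq
  · exact (continuous_const.mul (kd_cont M x)).intervalIntegrable _ _
  · exact (kd_cont2 M x).intervalIntegrable _ _
  · intro y hy
    have h1 := hd y hy.1 hy.2
    have h2 := four_nn_le (x - y)
    have h3 : 4 * d ≤ ‖1 - ee (x - y)‖ := by linarith
    have h4 : (4 * d) ^ 2 ≤ ‖1 - ee (x - y)‖ ^ 2 := by gcongr
    have h5 := JJ_nonneg M (x - y)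
    calc 16 * d ^ 2 * JJ M (x - y) = JJ M (x - y) * (4 * d) ^ 2 := by ring
      _ ≤ JJ M (x - y) * ‖1 - ee (x - y)‖ ^ 2 := by gcongr

theorem AA_sub_chi_le (M : ℕ) (hM : 1 ≤ M) (a b : ℝ) (ha : 0 ≤ a) (hab : a ≤ b) (hb : b ≤ 1)
    (x : ℝ) : |AA M a b x - chi a b x| * (4 * (M : ℝ) ^ 2 * (min (nn (x - a)) (nn (x - b))) ^ 2) ≤ 1 := by
  have hM0 : (0 : ℝ) < M := by exact_mod_cast hM
  set d : ℝ := min (nn (x - a)) (nn (x - b)) with hd
  have hd0 : 0 ≤ d := le_min (nn_nonneg _) (nn_nonneg _)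
  have hdf : d = min (nn (Int.fract x - a)) (nn (Int.fract x - b)) := by
    rw [hd, nn_fract_sub, nn_fract_sub]
  have hsq := integral_JJ_sq M hM x 0
  rw [zero_add, ← kd_split2 M a b x] at hsq
  have hf0 := Int.fract_nonneg x
  have hf1 := Int.fract_lt_one x
  have hn1 := kd_nonneg2 M x 0 a ha
  have hn2 := kd_nonneg2 M x a b hab
  have hn3 := kd_nonneg2 M x b 1 hb
  -- it suffices to bound `16 d² |AA - chi|` by `4/M²`
  suffices hmain : 16 * d ^ 2 * |AA M a b x - chi a b x| ≤ 4 / (M : ℝ) ^ 2 by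
    rw [le_div_iff₀ (by positivity)] at hmain
    linarith
  by_cases hx : a ≤ Int.fract x ∧ Int.fract x < b
  · have hchi : chi a b x = 1 := by
      unfold chi
      rw [if_pos hx]
    have hsplit := kd_split M hM a b x
    have hle := AA_le_one M hM a b ha hab hb x
    rw [hchi, abs_of_nonpos (by linarith)]
    have h1 := kd_part M x 0 a d ha hd0 (by
      intro y hy1 hy2
      rw [hdf, ← nn_fract_sub x y]
      exact kd_in _ a b y ha hb hx.1 hx.2 hy1 (by linarith) (Or.inl hy2))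
    have h2 := kd_part M x b 1 d hb hd0 (by
      intro y hy1 hy2
      rw [hdf, ← nn_fract_sub x y]
      exact kd_in _ a b y ha hb hx.1 hx.2 (by linarith) hy2 (Or.inr hy1))
    have h3 : 16 * d ^ 2 * -(AA M a b x - 1) = 16 * d ^ 2 * (∫ y in (0 : ℝ)..a, JJ M (x - y))
        + 16 * d ^ 2 * (∫ y in b..1, JJ M (x - y)) := by
      have h4 : -(AA M a b x - 1) = (∫ y in (0 : ℝ)..a, JJ M (x - y))
          + (∫ y in b..1, JJ M (x - y)) := by linarith
      rw [h4, mul_add]
    rw [h3]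
    linarith
  · have hchi : chi a b x = 0 := by
      unfold chi
      rw [if_neg hx]
    rw [hchi, sub_zero, abs_of_nonneg (AA_nonneg M a b hab x)]
    have hx' : Int.fract x < a ∨ b ≤ Int.fract x := by
      by_contra hcon
      push Not at hcon
      exact hx hcon
    have h1 := kd_part M x a b d hab hd0 (by
      intro y hy1 hy2
      rw [hdf, ← nn_fract_sub x y]
      exact kd_out _ a b y hf0 hf1 ha hb hx' hy1 hy2)
    have h2 : AA M a b x = ∫ y in a..b, JJ M (x - y) := rfl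
    rw [h2]
    linarith

end Pool.Agent.Lib.H50X
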