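import Pool.Agent.Lib.H50X.KC
import Pool.Agent.Lib.H50X.KD

/-! # H50X, chunk KE: envelopes.

`AA_sub_chi_le_env`: from `AA_sub_chi_le`, `AA_nonneg`, `AA_le_one` (so `|AA - chi| ≤ 1`). Let
`d = min(nn(x-a), nn(x-b)) = nn(x-e)` and `u` minimal with `2^j d < 2^u` (`u ≤ j` since `d ≤ 1/2`).
If `u = 0` then `env e j x ≥ 1`. If `u ≥ 1` then `2^j d ≥ 2^(u-1)`, so
`|AA - chi| ≤ 1/(4 (2^j d)^2) ≤ (1/4)^u ≤ env e j x`.

`abs_psi_le`: `psi (j+1) = (AA(2^(j+1)) - chi) - (AA(2^j) - chi)` and `env e j x ≤ 4 env e (j+1) x`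
(shift `u ↦ u+1`); `psi 0 = b - a ∈ [0,1]` and `Env a b 0 x = 2` (`nn ≤ 1/2 < 1`). -/

open scoped Classical

namespace Pool.Agent.Lib.H50X

theorem env_nonneg (e : ℝ) (j : ℕ) (x : ℝ) : 0 ≤ env e j x := by
  unfold env
  refine Finset.sum_nonneg fun u _ => ?_
  split_ifs <;> positivity

theorem Env_nonneg (a b : ℝ) (j : ℕ) (x : ℝ) : 0 ≤ Env a b j x :=
  add_nonneg (env_nonneg a j x) (env_nonneg b j x)

theorem ke_term (e : ℝ) (j : ℕ) (x : ℝ) (u : ℕ) (hu : u ≤ j) (h : nn (x - e) * 2 ^ j < 2 ^ u) :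
    (1 / 4 : ℝ) ^ u ≤ env e j x := by
  unfold env
  have h1 := Finset.single_le_sum
    (f := fun u : ℕ => (1 / 4 : ℝ) ^ u * (if nn (x - e) * 2 ^ j < 2 ^ u then (1 : ℝ) else 0))
    (s := Finset.range (j + 1))
    (fun v _ => by
      show (0 : ℝ) ≤ (1 / 4 : ℝ) ^ v * (if nn (x - e) * 2 ^ j < 2 ^ v then (1 : ℝ) else 0)
      split_ifs <;> positivity) (Finset.mem_range.2 (by omega : u < j + 1))
  refine le_trans (le_of_eq ?_) h1
  show (1 / 4 : ℝ) ^ u = (1 / 4 : ℝ) ^ u * (if nn (x - e) * 2 ^ j < 2 ^ u then (1 : ℝ) else 0)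
  rw [if_pos h, mul_one]

theorem ke_env_zero (e x : ℝ) : 1 ≤ env e 0 x := by
  have h := ke_term e 0 x 0 le_rfl (by
    have := nn_le_half (x - e)
    rw [pow_zero, mul_one]
    linarith)
  rwa [pow_zero] at h

theorem one_le_Env_zero (a b x : ℝ) : 1 ≤ Env a b 0 x := by
  have h1 := ke_env_zero a x
  have h2 := env_nonneg b 0 x
  unfold Env
  linarith

theorem env_le_succ (e : ℝ) (j : ℕ) (x : ℝ) : env e j x ≤ 4 * env e (j + 1) x := by
  unfold env
  rw [Finset.sum_range_succ' _ (j + 1), mul_add, Finset.mul_sum]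
  have h1 : ∑ u ∈ Finset.range (j + 1),
      (1 / 4 : ℝ) ^ u * (if nn (x - e) * 2 ^ j < 2 ^ u then (1 : ℝ) else 0)
      ≤ ∑ u ∈ Finset.range (j + 1),
      4 * ((1 / 4 : ℝ) ^ (u + 1) * (if nn (x - e) * 2 ^ (j + 1) < 2 ^ (u + 1) then (1 : ℝ) else 0)) := by
    refine Finset.sum_le_sum fun u _ => ?_
    have h2 : (nn (x - e) * 2 ^ j < 2 ^ u) ↔ (nn (x - e) * 2 ^ (j + 1) < 2 ^ (u + 1)) := by
      rw [pow_succ, pow_succ]
      constructor <;> intro h <;> linarith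
    by_cases h3 : nn (x - e) * 2 ^ j < 2 ^ u
    · rw [if_pos h3, if_pos (h2.1 h3), pow_succ]
      linarith
    · rw [if_neg h3, if_neg (fun h => h3 (h2.2 h))]
      simp
  have h4 : (0 : ℝ) ≤ 4 * ((1 / 4 : ℝ) ^ 0 * (if nn (x - e) * 2 ^ (j + 1) < 2 ^ 0 then (1 : ℝ) else 0)) := by
    split_ifs <;> positivity
  linarith

theorem ke_one (D e : ℝ) (j : ℕ) (x : ℝ) (hD0 : 0 ≤ D) (hD1 : D ≤ 1)
    (h : D * (4 * (((2 ^ j : ℕ) : ℝ)) ^ 2 * nn (x - e) ^ 2) ≤ 1) : D ≤ env e j x := by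
  have hex : ∃ u, nn (x - e) * 2 ^ j < 2 ^ u := by
    refine ⟨j, ?_⟩
    have := nn_le_half (x - e)
    have h2 : (0 : ℝ) < 2 ^ j := by positivity
    nlinarith
  have hj : nn (x - e) * 2 ^ j < 2 ^ j := by
    have := nn_le_half (x - e)
    have h2 : (0 : ℝ) < 2 ^ j := by positivity
    nlinarith
  set u := Nat.find hex with hu
  have hu1 : nn (x - e) * 2 ^ j < 2 ^ u := Nat.find_spec hex
  have huj : u ≤ j := Nat.find_le hj
  have hterm := ke_term e j x u huj hu1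
  rcases Nat.eq_zero_or_pos u with h0 | hpos
  · rw [h0, pow_zero] at hterm
    linarith
  · have hmin : ¬ (nn (x - e) * 2 ^ j < 2 ^ (u - 1)) := Nat.find_min hex (by omega)
    push Not at hmin
    have h3 : ((2 : ℝ) ^ (u - 1)) ^ 2 ≤ (nn (x - e) * 2 ^ j) ^ 2 := by
      gcongr
    have h4 : (4 : ℝ) ^ u = 4 * ((2 : ℝ) ^ (u - 1)) ^ 2 := by
      have e1 : u = (u - 1) + 1 := by omega
      rw [← pow_mul, mul_comm (u - 1) 2, pow_mul]
      conv_lhs => rw [e1, pow_succ]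
      norm_num
      ring
    have h5 : D * 4 ^ u ≤ 1 := by
      rw [h4]
      calc D * (4 * ((2 : ℝ) ^ (u - 1)) ^ 2) ≤ D * (4 * (nn (x - e) * 2 ^ j) ^ 2) := by gcongr
        _ = D * (4 * (((2 ^ j : ℕ) : ℝ)) ^ 2 * nn (x - e) ^ 2) := by push_cast; ring
        _ ≤ 1 := h
    have h6 : D ≤ (1 / 4 : ℝ) ^ u := by
      rw [one_div, inv_pow, ← one_div, le_div_iff₀ (by positivity)]
      exact h5
    exact h6.trans hterm

theorem AA_sub_chi_le_env (a b : ℝ) (ha : 0 ≤ a) (hab : a ≤ b) (hb : b ≤ 1) (j : ℕ) (x : ℝ) :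
    |chi a b x - AA (2 ^ j) a b x| ≤ Env a b j x := by
  have hM : 1 ≤ 2 ^ j := Nat.one_le_two_pow
  have h0 := AA_nonneg (2 ^ j) a b hab x
  have h1 := AA_le_one (2 ^ j) hM a b ha hab hb x
  have h2 := AA_sub_chi_le (2 ^ j) hM a b ha hab hb x
  rw [abs_sub_comm] at h2
  have hD1 : |chi a b x - AA (2 ^ j) a b x| ≤ 1 := by
    unfold chi
    rw [abs_le]
    split_ifs <;> constructor <;> linarith
  have hea := env_nonneg a j x
  have heb := env_nonneg b j x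
  unfold Env
  rcases min_choice (nn (x - a)) (nn (x - b)) with h | h
  · rw [h] at h2
    have := ke_one _ a j x (abs_nonneg _) hD1 h2
    linarith
  · rw [h] at h2
    have := ke_one _ b j x (abs_nonneg _) hD1 h2
    linarith

theorem abs_psi_le (a b : ℝ) (ha : 0 ≤ a) (hab : a ≤ b) (hb : b ≤ 1) (j : ℕ) (x : ℝ) :
    |psi a b j x| ≤ 5 * Env a b j x := by
  rcases j with _ | j
  · have h1 := one_le_Env_zero a b x
    have h2 : psi a b 0 x = b - a := AA_one a b x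
    rw [h2, abs_of_nonneg (by linarith)]
    linarith
  · have h1 := AA_sub_chi_le_env a b ha hab hb j x
    have h2 := AA_sub_chi_le_env a b ha hab hb (j + 1) x
    have h3 : psi a b (j + 1) x = (chi a b x - AA (2 ^ j) a b x)
        - (chi a b x - AA (2 ^ (j + 1)) a b x) := by
      show AA (2 ^ (j + 1)) a b x - AA (2 ^ j) a b x = _
      ring
    have h4 : Env a b j x ≤ 4 * Env a b (j + 1) x := by
      have := env_le_succ a j x
      have := env_le_succ b j x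
      unfold Env
      linarith
    rw [h3]
    refine le_trans (abs_sub _ _) ?_
    linarith

end Pool.Agent.Lib.H50X
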