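import Pool.Agent.Lib.H50X.BA

/-! # H50X, chunk PA: an arithmetic progression near the integers.

The points `t_x = c + h x/2^ρ`, `x` in an interval of `2^d` consecutive integers. If `y > 1/2` the right side is
`≥ 3·2^d·1·1` and the claim is trivial. Let `y ≤ 1/2`, `A = |h| 2^d/2^ρ`. `nn t_x < y` means
`|t_x - p| < y` for some integer `p`; the possible `p` lie in an interval of length `≤ A + 2y ≤ A + 1`, so there
are at most `A + 2` of them; for each `p` the integers `x` with `|t_x - p| < y` lie in an interval of length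
`2 y 2^ρ/|h|`: at most `2 y 2^ρ/|h| + 1`. If `A ≥ 1`: `(A+2)(2y 2^ρ/|h| + 1) ≤ 3A(...) = 3·2^d (2y + |h|/2^ρ)`.
If `A < 1`: `≤ 3 (2y 2^ρ/|h| + 1) = 3·2^d (1/A)(2y + |h|/2^ρ)`. -/

open scoped Classical

namespace Pool.Agent.Lib.H50X

/-- integers which differ by less than `L` -/
theorem pa_card (S : Finset ℤ) (L : ℝ) (hL : 0 < L) (h : ∀ a ∈ S, ∀ b ∈ S, ((a : ℝ) - b) < L) :
    (S.card : ℝ) ≤ L + 1 := by
  rcases S.eq_empty_or_nonempty with h0 | h0
  · rw [h0, Finset.card_empty, Nat.cast_zero]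
    linarith
  · have h1 : S ⊆ Finset.Icc (S.min' h0) (S.max' h0) := fun x hx =>
      Finset.mem_Icc.2 ⟨S.min'_le x hx, S.le_max' x hx⟩
    have h2 := Finset.card_le_card h1
    rw [Int.card_Icc] at h2
    have h3 := h _ (S.max'_mem h0) _ (S.min'_mem h0)
    have h4 : S.min' h0 ≤ S.max' h0 := S.min'_le _ (S.max'_mem h0)
    have h5 : ((S.max' h0 + 1 - S.min' h0).toNat : ℝ) = (S.max' h0 : ℝ) + 1 - S.min' h0 := by
      have h6 : ((S.max' h0 + 1 - S.min' h0).toNat : ℤ) = S.max' h0 + 1 - S.min' h0 :=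
        Int.toNat_of_nonneg (by omega)
      have h7 : (((S.max' h0 + 1 - S.min' h0).toNat : ℤ) : ℝ) =
          ((S.max' h0 + 1 - S.min' h0 : ℤ) : ℝ) := by rw [h6]
      push_cast at h7
      exact h7
    have h6 : (S.card : ℝ) ≤ ((S.max' h0 + 1 - S.min' h0).toNat : ℝ) := by exact_mod_cast h2
    linarith

theorem count_one (h : ℤ) (hh : h ≠ 0) (c y : ℝ) (hy : 0 < y) (d ρ v : ℕ) :
    (((Finset.Ico (v * 2 ^ d) ((v + 1) * 2 ^ d)).filter fun x : ℕ =>
        nn (c + h * ((x : ℝ) / 2 ^ ρ)) < y).card : ℝ)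
      ≤ 3 * 2 ^ d * max 1 (2 ^ ρ / (2 ^ d * |(h : ℝ)|)) * (2 * y + |(h : ℝ)| / 2 ^ ρ) := by
  set S := (Finset.Ico (v * 2 ^ d) ((v + 1) * 2 ^ d)).filter fun x : ℕ =>
        nn (c + h * ((x : ℝ) / 2 ^ ρ)) < y with hS
  have hh' : (0 : ℝ) < |(h : ℝ)| := abs_pos.2 (by exact_mod_cast hh)
  set H : ℝ := |(h : ℝ)| / 2 ^ ρ with hH
  have hH0 : 0 < H := by positivity
  have h2d : (0 : ℝ) < 2 ^ d := by positivity
  have hR : 3 * 2 ^ d * max 1 (2 ^ ρ / (2 ^ d * |(h : ℝ)|)) * (2 * y + |(h : ℝ)| / 2 ^ ρ) =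
      3 * max (2 ^ d * H) 1 * (2 * y / H + 1) := by
    have e1 : (2 : ℝ) ^ ρ / (2 ^ d * |(h : ℝ)|) = 1 / (2 ^ d * H) := by
      rw [hH]
      field_simp
    have e2 : (2 : ℝ) ^ d * max 1 (1 / (2 ^ d * H)) * H = max (2 ^ d * H) 1 := by
      rw [mul_right_comm, mul_max_of_nonneg _ _ (by positivity)]
      congr 1
      · ring
      · field_simp
    rw [e1, ← hH, ← e2]
    field_simp
  rw [hR]
  by_cases hy2 : 1 / 2 < y
  · -- trivial bound
    have h1 : (S.card : ℝ) ≤ 2 ^ d := by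
      have h2 : S.card ≤ 2 ^ d := by
        refine (Finset.card_filter_le _ _).trans (le_of_eq ?_)
        rw [Nat.card_Ico, Nat.add_mul, one_mul, Nat.add_sub_cancel_left]
      exact_mod_cast h2
    refine h1.trans ?_
    have h3 : (2 : ℝ) ^ d * H ≤ max (2 ^ d * H) 1 := le_max_left _ _
    have h4 : 1 / H ≤ 2 * y / H + 1 := by
      have h5 : 1 / H ≤ 2 * y / H := div_le_div_of_nonneg_right (by linarith) hH0.le
      linarith
    have h5 : (2 : ℝ) ^ d * H * (1 / H) ≤ max (2 ^ d * H) 1 * (2 * y / H + 1) :=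
      mul_le_mul h3 h4 (by positivity) (by positivity)
    have h6 : (2 : ℝ) ^ d * H * (1 / H) = 2 ^ d := by field_simp
    rw [h6] at h5
    nlinarith
  · rw [not_lt] at hy2
    set t : ℕ → ℝ := fun x => c + h * ((x : ℝ) / 2 ^ ρ) with ht
    have htdiff : ∀ x x' : ℕ, |t x - t x'| = H * |(x : ℝ) - x'| := by
      intro x x'
      have e : t x - t x' = (h : ℝ) / 2 ^ ρ * ((x : ℝ) - x') := by
        rw [ht]
        ring
      rw [e, abs_mul, abs_div, abs_of_pos (by positivity : (0 : ℝ) < 2 ^ ρ)]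
    have hrd : ∀ x ∈ S, |t x - (round (t x) : ℝ)| < y := fun x hx => (Finset.mem_filter.1 hx).2
    have hxI : ∀ x ∈ S, (v : ℝ) * 2 ^ d ≤ x ∧ (x : ℝ) < (v + 1) * 2 ^ d := by
      intro x hx
      have h1 := (Finset.mem_filter.1 hx).1
      rw [Finset.mem_Ico] at h1
      exact ⟨by exact_mod_cast h1.1, by exact_mod_cast h1.2⟩
    -- the integers `p`
    set Pz : Finset ℤ := S.image fun x => round (t x) with hPz
    have hPc : (Pz.card : ℝ) ≤ 2 ^ d * H + 2 := by
      have h1 := pa_card Pz (2 ^ d * H + 1) (by positivity) (by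
        intro a ha b hb
        obtain ⟨x, hx, rfl⟩ := Finset.mem_image.1 ha
        obtain ⟨x', hx', rfl⟩ := Finset.mem_image.1 hb
        have h2 := abs_lt.1 (hrd x hx)
        have h3 := abs_lt.1 (hrd x' hx')
        have h4 : t x - t x' ≤ 2 ^ d * H := by
          refine (le_abs_self _).trans ?_
          rw [htdiff, mul_comm]
          apply mul_le_mul_of_nonneg_right _ hH0.le
          rw [abs_le]
          have := hxI x hx
          have := hxI x' hx'
          constructor <;> linarith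
        linarith)
      linarith
    have hfib : ∀ p ∈ Pz, ((S.filter fun x => round (t x) = p).card : ℝ) ≤ 2 * y / H + 1 := by
      intro p _
      set F : Finset ℤ := (S.filter fun x => round (t x) = p).image (fun x : ℕ => (x : ℤ)) with hF
      have hFc : F.card = (S.filter fun x => round (t x) = p).card :=
        Finset.card_image_of_injective _ Nat.cast_injective
      rw [← hFc]
      refine pa_card F (2 * y / H) (by positivity) ?_
      intro a ha b hb
      obtain ⟨x, hx, rfl⟩ := Finset.mem_image.1 ha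
      obtain ⟨x', hx', rfl⟩ := Finset.mem_image.1 hb
      rw [Finset.mem_filter] at hx hx'
      have h2 := hrd x hx.1
      have h3 := hrd x' hx'.1
      rw [hx.2] at h2
      rw [hx'.2] at h3
      have h4 : |t x - t x'| < 2 * y := by
        rw [abs_lt] at h2 h3 ⊢
        constructor <;> linarith
      rw [htdiff] at h4
      rw [lt_div_iff₀ hH0]
      have h5 : ((x : ℤ) : ℝ) - ((x' : ℤ) : ℝ) ≤ |(x : ℝ) - x'| := by
        push_cast
        exact le_abs_self _
      calc (((x : ℤ) : ℝ) - ((x' : ℤ) : ℝ)) * H ≤ |(x : ℝ) - x'| * H :=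
            mul_le_mul_of_nonneg_right h5 hH0.le
        _ < 2 * y := by linarith
    have hcard : (S.card : ℝ) ≤ (2 ^ d * H + 2) * (2 * y / H + 1) := by
      have h1 : S.card = ∑ p ∈ Pz, (S.filter fun x => round (t x) = p).card :=
        Finset.card_eq_sum_card_image _ _
      have h2 : (S.card : ℝ) = ∑ p ∈ Pz, ((S.filter fun x => round (t x) = p).card : ℝ) := by
        exact_mod_cast h1
      rw [h2]
      refine (Finset.sum_le_sum hfib).trans ?_
      rw [Finset.sum_const, nsmul_eq_mul]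
      exact mul_le_mul_of_nonneg_right hPc (by positivity)
    refine hcard.trans ?_
    apply mul_le_mul_of_nonneg_right _ (by positivity)
    have h3 : (2 : ℝ) ^ d * H ≤ max (2 ^ d * H) 1 := le_max_left _ _
    have h4 : (1 : ℝ) ≤ max (2 ^ d * H) 1 := le_max_right _ _
    linarith

end Pool.Agent.Lib.H50X
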