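import Pool.Agent.Lib.H50X.PB
import Pool.Agent.Lib.H50X.PC

/-! # H50X, chunk PD: expected number of excluded frequencies.

Block `i+1`, `τ = 2^i`, `ρ = 2^(i+n0)`, `d = ρ - τ` (note `2^i ≤ 2^(i+n0)`). Let `h ∈ hblk s (i+1)`: some `j0`
with `sz (h j0) ≥ 2^(i+1)`, so `|h j0| ≥ 2^(2^(i+1) - 1) ≥ 2^(2^i)` (`two_pow_sz_le`), i.e. `2^ρ ≤ 2^d |h j0|`.
`bb h ≤ s 2^(i+2)`, `|h j0| ≤ 2^(2^(i+2))`, and `Hn` gives
`|h j0| ≤ 2^ρ xz` (as `2^(2^(i+2)) · 2^(bb h) · (2^(i+1))^s ≤ 2^((s+1) 2^(i+2)) (2^(i+1))^s ≤ κ 2^ρ`).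
`blk_count` is `count_dot`, valid for all `y ≥ xz`. `expV`: sum with `y = xz = κ/(2^(bb h) (2^(i+1))^s)` and
`sum_bb` with `R = 2^(i+2)`: `9 κ (2^(i+1))^(-s) (2^(i+2))^s = 9 κ 2^s`. -/

open scoped Classical

namespace Pool.Agent.Lib.H50X

theorem blk_count (s n0 : ℕ) (κ : ℝ) (hκ : 0 < κ) (H : Hn s n0 κ) (i : ℕ) (u : Fin s → ℕ)
    (h : Fin s → ℤ) (hh : h ∈ hblk s (i + 1)) (y : ℝ) (hy : xz κ s (i + 1) h ≤ y) :
    (((fib (2 ^ (i + n0) - 2 ^ i) u).filter fun x => nn (dot h (pt (2 ^ (i + n0)) x)) < y).card : ℝ)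
      ≤ 9 * y * ((2 : ℝ) ^ (2 ^ (i + n0) - 2 ^ i)) ^ s := by
  obtain ⟨⟨j0, hj0⟩, hall⟩ := (mem_hblk s (i + 1) h).1 hh
  have hle : 2 ^ i ≤ 2 ^ (i + n0) := Nat.pow_le_pow_right (by norm_num) (by omega)
  have hxz : 0 < xz κ s (i + 1) h := by
    unfold xz
    positivity
  have hne : h j0 ≠ 0 := by
    intro h0
    rw [h0, (sz_zero_iff 0).2 rfl] at hj0
    have : 0 < 2 ^ (i + 1) := by positivity
    omega
  refine count_dot h j0 (2 ^ (i + n0) - 2 ^ i) (2 ^ (i + n0)) u y (hxz.trans_le hy) ?_ ?_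
  · have h1 := two_pow_sz_le (h j0) hne
    have h2 : (2 : ℝ) ^ (2 ^ i + 1) ≤ 2 ^ sz (h j0) := by
      refine pow_le_pow_right₀ (by norm_num) ?_
      have h3 : 1 ≤ 2 ^ i := Nat.one_le_two_pow
      rw [pow_succ] at hj0
      omega
    have h4 : (2 : ℝ) ^ 2 ^ i ≤ |(h j0 : ℝ)| := by
      rw [pow_succ] at h2
      linarith
    calc (2 : ℝ) ^ 2 ^ (i + n0) = 2 ^ (2 ^ (i + n0) - 2 ^ i) * 2 ^ 2 ^ i := by
          rw [← pow_add, Nat.sub_add_cancel hle]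
      _ ≤ _ := mul_le_mul_of_nonneg_left h4 (by positivity)
  · have h1 : |(h j0 : ℝ)| ≤ 2 ^ 2 ^ (i + 2) :=
      (abs_lt_two_pow_sz (h j0)).le.trans (pow_le_pow_right₀ (by norm_num) (hall j0).le)
    have h2 : bb h ≤ s * 2 ^ (i + 2) := by
      unfold bb
      refine (Finset.sum_le_sum fun j _ => (hall j).le).trans (le_of_eq ?_)
      rw [Finset.sum_const, Finset.card_univ, Fintype.card_fin, smul_eq_mul]
    have h3 : |(h j0 : ℝ)| * (2 ^ bb h * (2 ^ (i + 1)) ^ s) ≤ κ * 2 ^ (2 ^ (i + n0)) := by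
      refine le_trans ?_ (H i)
      have h4 : (2 : ℝ) ^ bb h ≤ 2 ^ (s * 2 ^ (i + 2)) := pow_le_pow_right₀ (by norm_num) h2
      calc |(h j0 : ℝ)| * (2 ^ bb h * (2 ^ (i + 1)) ^ s)
          ≤ 2 ^ 2 ^ (i + 2) * (2 ^ (s * 2 ^ (i + 2)) * (2 ^ (i + 1)) ^ s) := by gcongr
        _ = 1 * (2 ^ ((s + 1) * 2 ^ (i + 2)) * (2 ^ (i + 1)) ^ s) := by
            rw [add_mul, one_mul, pow_add]
            ring
        _ ≤ 2 * (s + 1) * (2 ^ ((s + 1) * 2 ^ (i + 2)) * (2 ^ (i + 1)) ^ s) := by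
            refine mul_le_mul_of_nonneg_right ?_ (by positivity)
            have : (0 : ℝ) ≤ s := Nat.cast_nonneg s
            linarith
        _ = _ := by ring
    have h5 : |(h j0 : ℝ)| ≤ 2 ^ 2 ^ (i + n0) * xz κ s (i + 1) h := by
      unfold xz
      rw [mul_div_assoc', le_div_iff₀ (by positivity), mul_comm ((2 : ℝ) ^ 2 ^ (i + n0)) κ]
      exact h3
    exact h5.trans (mul_le_mul_of_nonneg_left hy (by positivity))

theorem expV (s n0 : ℕ) (κ : ℝ) (hκ : 0 < κ) (H : Hn s n0 κ) (i : ℕ) (u : Fin s → ℕ) :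
    ∑ h ∈ hblk s (i + 1), (((fib (2 ^ (i + n0) - 2 ^ i) u).filter fun x =>
        nn (dot h (pt (2 ^ (i + n0)) x)) < xz κ s (i + 1) h).card : ℝ)
      ≤ 9 * 2 ^ s * κ * ((2 : ℝ) ^ (2 ^ (i + n0) - 2 ^ i)) ^ s := by
  have h1 : ∀ h ∈ hblk s (i + 1), (((fib (2 ^ (i + n0) - 2 ^ i) u).filter fun x =>
        nn (dot h (pt (2 ^ (i + n0)) x)) < xz κ s (i + 1) h).card : ℝ) ≤
      9 * κ / (2 ^ (i + 1)) ^ s * ((2 : ℝ) ^ (2 ^ (i + n0) - 2 ^ i)) ^ s * (1 / 2 ^ bb h) := by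
    intro h hh
    refine (blk_count s n0 κ hκ H i u h hh _ le_rfl).trans (le_of_eq ?_)
    unfold xz
    field_simp
  refine (Finset.sum_le_sum h1).trans ?_
  rw [← Finset.mul_sum]
  have h2 := sum_bb s (2 ^ (i + 2)) (hblk s (i + 1)) fun h hh => ((mem_hblk s (i + 1) h).1 hh).2
  push_cast at h2
  refine (mul_le_mul_of_nonneg_left h2 (by positivity)).trans (le_of_eq ?_)
  have h3 : ((2 : ℝ) ^ (i + 2)) ^ s = (2 ^ (i + 1)) ^ s * 2 ^ s := by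
    rw [← mul_pow, ← pow_succ]
  rw [h3]
  field_simp

end Pool.Agent.Lib.H50X
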