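import Pool.Agent.Lib.H50X.Defs

/-! # H50X, chunk PE: dyadic summation (PURE).

For `x` with `y x ≥ y0` let `k ∈ ℤ` with `2^k ≤ r y(x) < 2^(k+1)`; `k ≥ -l0` by `hl`. If `k < 0`:
`gg(1/(r y)) ≤ 2^(-k)`; if `k ≥ 0`: `gg(1/(r y)) ≤ 4^(-k)`. The number of `x` with `r y(x) < 2^(k+1)` is
`≤ B 2^(k+1)/r` by `hB` (if some `x` has this `k` then `2^(k+1)/r > y(x) ≥ y0`). Sum over `k`:
`l0 · 2B/r + (2B/r) ∑_{k ≥ 0} 2^(-k) ≤ (2 l0 + 4) B/r`. -/

open scoped Classical

namespace Pool.Agent.Lib.H50X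

theorem pe_point (u : ℝ) (hu : 0 < u) (l0 N : ℕ) (h1 : 1 ≤ 2 ^ l0 * u) (h2 : u < 2 ^ N) :
    gg (1 / u) ≤ ∑ l ∈ Finset.range l0, (2 : ℝ) ^ (l + 1) * (if u < 1 / 2 ^ l then 1 else 0) +
      ∑ k ∈ Finset.range N, (1 / 4 : ℝ) ^ k * (if u < 2 ^ (k + 1) then 1 else 0) := by
  have hn1 : ∀ l ∈ Finset.range l0, (0 : ℝ) ≤ (2 : ℝ) ^ (l + 1) * (if u < 1 / 2 ^ l then 1 else 0) := by
    intro l _
    split_ifs <;> positivity
  have hn2 : ∀ k ∈ Finset.range N, (0 : ℝ) ≤ (1 / 4 : ℝ) ^ k * (if u < 2 ^ (k + 1) then 1 else 0) := by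
    intro l _
    split_ifs <;> positivity
  by_cases hc : u < 1
  · -- `u < 1`
    have hex : ∃ m : ℕ, 1 / (2 : ℝ) ^ m ≤ u := by
      refine ⟨l0, ?_⟩
      rw [div_le_iff₀ (by positivity)]
      linarith
    set m := Nat.find hex with hm
    have hm1 : 1 / (2 : ℝ) ^ m ≤ u := Nat.find_spec hex
    have hm0 : m ≠ 0 := by
      intro h0
      rw [h0] at hm1
      norm_num at hm1
      linarith
    obtain ⟨l, hl⟩ := Nat.exists_eq_succ_of_ne_zero hm0
    have hl1 : u < 1 / (2 : ℝ) ^ l := by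
      have h3 : l < m := by omega
      have h4 := Nat.find_min hex (m := l) (by omega)
      exact not_le.1 h4
    have hml0 : m ≤ l0 := Nat.find_min' hex (by
      rw [div_le_iff₀ (by positivity)]
      linarith)
    have hll0 : l ∈ Finset.range l0 := Finset.mem_range.2 (by omega)
    have h5 := Finset.single_le_sum hn1 hll0
    rw [if_pos hl1, mul_one] at h5
    have h6 := Finset.sum_nonneg hn2
    have h7 : gg (1 / u) ≤ 2 ^ (l + 1) := by
      unfold gg
      refine (min_le_left _ _).trans ?_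
      rw [div_le_iff₀ hu]
      rw [hl, div_le_iff₀ (by positivity)] at hm1
      have : (2 : ℝ) ^ l.succ = 2 ^ (l + 1) := rfl
      rw [this] at hm1
      linarith
    linarith
  · rw [not_lt] at hc
    obtain ⟨k, hk1, hk2⟩ := exists_nat_pow_near hc (by norm_num : (1 : ℝ) < 2)
    have hkN : k < N := by
      have h3 : (2 : ℝ) ^ k < 2 ^ N := lt_of_le_of_lt hk1 h2
      exact (pow_lt_pow_iff_right₀ (by norm_num)).1 h3
    have h5 := Finset.single_le_sum hn2 (Finset.mem_range.2 hkN)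
    rw [if_pos hk2, mul_one] at h5
    have h6 := Finset.sum_nonneg hn1
    have h7 : gg (1 / u) ≤ (1 / 4) ^ k := by
      unfold gg
      refine (min_le_right _ _).trans ?_
      rw [div_pow, one_pow, div_pow, one_pow]
      apply one_div_le_one_div_of_le (by positivity)
      have h8 : (4 : ℝ) ^ k = (2 ^ k) ^ 2 := by
        rw [← pow_mul, mul_comm, pow_mul]
        norm_num
      rw [h8]
      exact pow_le_pow_left₀ (by positivity) hk1 2
    linarith

theorem pe_geom (N : ℕ) : ∑ k ∈ Finset.range N, (1 / 2 : ℝ) ^ k ≤ 2 := by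
  have h1 : ∑ k ∈ Finset.range N, (1 / 2 : ℝ) ^ k = 2 - 2 * (1 / 2) ^ N := by
    induction N with
    | zero => simp
    | succ n ih =>
      rw [Finset.sum_range_succ, ih, pow_succ]
      ring
  rw [h1]
  have : (0 : ℝ) ≤ (1 / 2) ^ N := by positivity
  linarith

theorem gg_sum {ι : Type*} (F : Finset ι) (y : ι → ℝ) (r y0 B : ℝ)
    (hr : 0 < r) (hy0 : 0 < y0) (hB0 : 0 ≤ B) (l0 : ℕ) (hl : 1 ≤ 2 ^ l0 * (r * y0))
    (hB : ∀ z, y0 ≤ z → ((F.filter fun x => y x < z).card : ℝ) ≤ B * z) :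
    ∑ x ∈ F, (if y0 ≤ y x then gg (1 / (r * y x)) else 0) ≤ 2 * B / r * (l0 + 2) := by
  have hcount : ∀ z : ℝ, 0 < z → ((F.filter fun x => y0 ≤ y x ∧ y x < z).card : ℝ) ≤ B * z := by
    intro z hz
    by_cases h : y0 ≤ z
    · have h1 : (F.filter fun x => y0 ≤ y x ∧ y x < z) ⊆ F.filter fun x => y x < z := by
        intro x hx
        rw [Finset.mem_filter] at hx ⊢
        exact ⟨hx.1, hx.2.2⟩
      have h2 : ((F.filter fun x => y0 ≤ y x ∧ y x < z).card : ℝ) ≤
          (F.filter fun x => y x < z).card := by exact_mod_cast Finset.card_le_card h1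
      exact h2.trans (hB z h)
    · have h1 : (F.filter fun x => y0 ≤ y x ∧ y x < z) = ∅ := by
        rw [Finset.filter_eq_empty_iff]
        rintro x _ ⟨h2, h3⟩
        linarith
      rw [h1]
      simp only [Finset.card_empty, Nat.cast_zero]
      positivity
  -- a bound for all `r y x`
  obtain ⟨N, hN⟩ : ∃ N : ℕ, ∀ x ∈ F, r * y x < 2 ^ N := by
    obtain ⟨C, hC⟩ : ∃ C : ℝ, ∀ x ∈ F, r * y x ≤ C := by
      refine ⟨∑ x ∈ F, |r * y x|, fun x hx => ?_⟩
      exact (le_abs_self _).trans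
        (Finset.single_le_sum (f := fun x => |r * y x|) (fun _ _ => abs_nonneg _) hx)
    obtain ⟨N, hN⟩ := pow_unbounded_of_one_lt C (by norm_num : (1 : ℝ) < 2)
    exact ⟨N, fun x hx => lt_of_le_of_lt (hC x hx) hN⟩
  have hpt : ∀ x ∈ F, (if y0 ≤ y x then gg (1 / (r * y x)) else 0) ≤
      ∑ l ∈ Finset.range l0, (2 : ℝ) ^ (l + 1) *
        (if y0 ≤ y x ∧ y x < 1 / 2 ^ l / r then 1 else 0) +
      ∑ k ∈ Finset.range N, (1 / 4 : ℝ) ^ k *
        (if y0 ≤ y x ∧ y x < 2 ^ (k + 1) / r then 1 else 0) := by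
    intro x hx
    by_cases h : y0 ≤ y x
    · rw [if_pos h]
      have hu : 0 < r * y x := mul_pos hr (lt_of_lt_of_le hy0 h)
      refine (pe_point (r * y x) hu l0 N ?_ (hN x hx)).trans (le_of_eq ?_)
      · refine hl.trans (mul_le_mul_of_nonneg_left (mul_le_mul_of_nonneg_left h hr.le)
          (by positivity))
      · congr 1
        · refine Finset.sum_congr rfl fun l _ => ?_
          congr 1
          have e : (r * y x < 1 / 2 ^ l) ↔ (y0 ≤ y x ∧ y x < 1 / 2 ^ l / r) := by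
            rw [lt_div_iff₀ hr, mul_comm (y x) r]
            exact ⟨fun h' => ⟨h, h'⟩, fun h' => h'.2⟩
          exact if_congr e rfl rfl
        · refine Finset.sum_congr rfl fun l _ => ?_
          congr 1
          have e : (r * y x < 2 ^ (l + 1)) ↔ (y0 ≤ y x ∧ y x < 2 ^ (l + 1) / r) := by
            rw [lt_div_iff₀ hr, mul_comm (y x) r]
            exact ⟨fun h' => ⟨h, h'⟩, fun h' => h'.2⟩
          exact if_congr e rfl rfl
    · rw [if_neg h]
      apply add_nonneg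
      · refine Finset.sum_nonneg fun l _ => ?_
        split_ifs <;> positivity
      · refine Finset.sum_nonneg fun l _ => ?_
        split_ifs <;> positivity
  refine (Finset.sum_le_sum hpt).trans ?_
  rw [Finset.sum_add_distrib, Finset.sum_comm, Finset.sum_comm (t := Finset.range N)]
  have s1 : ∑ l ∈ Finset.range l0, ∑ x ∈ F, (2 : ℝ) ^ (l + 1) *
      (if y0 ≤ y x ∧ y x < 1 / 2 ^ l / r then 1 else 0) ≤ ∑ _l ∈ Finset.range l0, 2 * B / r := by
    refine Finset.sum_le_sum fun l _ => ?_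
    rw [← Finset.mul_sum, ← Finset.sum_filter, Finset.sum_const, nsmul_eq_mul, mul_one]
    have h1 := hcount (1 / 2 ^ l / r) (by positivity)
    calc (2 : ℝ) ^ (l + 1) * ((F.filter fun x => y0 ≤ y x ∧ y x < 1 / 2 ^ l / r).card : ℝ)
        ≤ 2 ^ (l + 1) * (B * (1 / 2 ^ l / r)) := mul_le_mul_of_nonneg_left h1 (by positivity)
      _ = 2 * B / r := by
          rw [pow_succ]
          field_simp
  have s2 : ∑ k ∈ Finset.range N, ∑ x ∈ F, (1 / 4 : ℝ) ^ k *
      (if y0 ≤ y x ∧ y x < 2 ^ (k + 1) / r then 1 else 0) ≤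
      ∑ k ∈ Finset.range N, 2 * B / r * (1 / 2 : ℝ) ^ k := by
    refine Finset.sum_le_sum fun k _ => ?_
    rw [← Finset.mul_sum, ← Finset.sum_filter, Finset.sum_const, nsmul_eq_mul, mul_one]
    have h1 := hcount (2 ^ (k + 1) / r) (by positivity)
    calc (1 / 4 : ℝ) ^ k * ((F.filter fun x => y0 ≤ y x ∧ y x < 2 ^ (k + 1) / r).card : ℝ)
        ≤ (1 / 4) ^ k * (B * (2 ^ (k + 1) / r)) := mul_le_mul_of_nonneg_left h1 (by positivity)
      _ = 2 * B / r * (1 / 2) ^ k := by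
          have h2 : (1 / 4 : ℝ) ^ k = (1 / 2) ^ k * (1 / 2) ^ k := by
            rw [← mul_pow]
            norm_num
          have h3 : (1 / 2 : ℝ) ^ k * 2 ^ k = 1 := by
            rw [← mul_pow]
            norm_num
          rw [h2, pow_succ]
          calc (1 / 2 : ℝ) ^ k * (1 / 2) ^ k * (B * (2 ^ k * 2 / r)) =
              ((1 / 2 : ℝ) ^ k * 2 ^ k) * (2 * B / r * (1 / 2) ^ k) := by ring
            _ = _ := by rw [h3, one_mul]
  rw [Finset.sum_const, Finset.card_range, nsmul_eq_mul] at s1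
  rw [← Finset.mul_sum] at s2
  have h3 : 2 * B / r * ∑ k ∈ Finset.range N, (1 / 2 : ℝ) ^ k ≤ 2 * B / r * 2 :=
    mul_le_mul_of_nonneg_left (pe_geom N) (by positivity)
  linarith

end Pool.Agent.Lib.H50X
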