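import Pool.Agent.Lib.H50X.PD
import Pool.Agent.Lib.H50X.PE

/-! # H50X, chunk PF: expected value of the truncated frequency sum.

For each `h` apply `gg_sum` with `F = fib`, `y(x) = nn(h·pt x)`, `r = 2^(bb h)`, `y0 = xz`,
`B = 9 (2^d)^s` (`blk_count`), `l0 = s (i+1) + k0`: `r y0 = κ/(2^(i+1))^s ≥ 2^(-k0 - s(i+1))`.
Sum over `h` with `sum_bb` (`R = 2^(i+2)`, `(2^(i+2))^s = 2^s (2^(i+1))^s`). -/

open scoped Classical

namespace Pool.Agent.Lib.H50X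

theorem expS (s n0 : ℕ) (κ : ℝ) (hκ : 0 < κ) (H : Hn s n0 κ) (k0 : ℕ) (hk0 : 1 / 2 ^ k0 ≤ κ)
    (i : ℕ) (u : Fin s → ℕ) :
    ∑ h ∈ hblk s (i + 1), ∑ x ∈ fib (2 ^ (i + n0) - 2 ^ i) u,
        (if xz κ s (i + 1) h ≤ nn (dot h (pt (2 ^ (i + n0)) x))
          then gg (TT (pt (2 ^ (i + n0)) x) h) else 0)
      ≤ 18 * 2 ^ s * (2 ^ (i + 1)) ^ s * (s * (i + 1) + k0 + 2)
        * ((2 : ℝ) ^ (2 ^ (i + n0) - 2 ^ i)) ^ s := by
  obtain ⟨W, hW⟩ : ∃ W : ℝ, W = ((2 : ℝ) ^ (2 ^ (i + n0) - 2 ^ i)) ^ s := ⟨_, rfl⟩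
  have hW0 : 0 < W := by rw [hW]; positivity
  have key : ∀ h ∈ hblk s (i + 1), ∑ x ∈ fib (2 ^ (i + n0) - 2 ^ i) u,
        (if xz κ s (i + 1) h ≤ nn (dot h (pt (2 ^ (i + n0)) x))
          then gg (TT (pt (2 ^ (i + n0)) x) h) else 0) ≤
      18 * W * (s * (i + 1) + k0 + 2) * (1 / 2 ^ bb h) := by
    intro h hh
    have h1 := gg_sum (fib (2 ^ (i + n0) - 2 ^ i) u)
      (fun x => nn (dot h (pt (2 ^ (i + n0)) x))) (2 ^ bb h) (xz κ s (i + 1) h) (9 * W)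
      (by positivity) (by unfold xz; positivity) (by positivity) (s * (i + 1) + k0) (by
        unfold xz
        have e1 : (2 : ℝ) ^ bb h * (κ / (2 ^ bb h * (2 ^ (i + 1)) ^ s)) = κ / (2 ^ (i + 1)) ^ s := by
          field_simp
        rw [e1, pow_add, mul_comm s (i + 1), pow_mul]
        have e2 : ((2 : ℝ) ^ (i + 1)) ^ s * 2 ^ k0 * (κ / (2 ^ (i + 1)) ^ s) = 2 ^ k0 * κ := by
          field_simp
        rw [e2]
        rw [div_le_iff₀ (by positivity)] at hk0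
        linarith) (by
        intro z hz
        have h2 := blk_count s n0 κ hκ H i u h hh z hz
        rw [← hW] at h2
        refine h2.trans (le_of_eq ?_)
        ring)
    refine le_trans (le_of_eq ?_) (h1.trans (le_of_eq ?_))
    · rfl
    · push_cast
      ring
  refine (Finset.sum_le_sum key).trans ?_
  rw [← Finset.mul_sum]
  have h2 := sum_bb s (2 ^ (i + 2)) (hblk s (i + 1)) (fun h hh => ((mem_hblk s (i + 1) h).1 hh).2)
  have h3 : (((2 ^ (i + 2) : ℕ) : ℝ)) ^ s = 2 ^ s * (2 ^ (i + 1)) ^ s := by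
    push_cast
    rw [← mul_pow]
    congr 1
    ring
  rw [h3] at h2
  rw [← hW]
  calc 18 * W * ((s : ℝ) * (i + 1) + k0 + 2) * ∑ h ∈ hblk s (i + 1), (1 / 2 ^ bb h : ℝ)
      ≤ 18 * W * ((s : ℝ) * (i + 1) + k0 + 2) * (2 ^ s * (2 ^ (i + 1)) ^ s) :=
        mul_le_mul_of_nonneg_left h2 (by positivity)
    _ = _ := by ring

end Pool.Agent.Lib.H50X
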